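import Pool.Agent.Lib.MP_ec05f5_lc.Selection

/-!
# Additive reductions on a generic sub-product
-/

set_option autoImplicit false

namespace Pool.Agent.Lib.MP_ec05f5_lc

open Set Filter Topology
open scoped ENNReal

theorem sum_Ico_le_of_tailSum {p : ℝ} {a b : ℕ → ℝ} {l : ℕ} {ε : ℝ} (hε : 0 ≤ ε)
    (h : tailSum p l a b ≤ ENNReal.ofReal ε) (m : ℕ) :
    ∑ j ∈ Finset.Ico l m, |a j - b j| ^ p ≤ ε := by
  rw [← ENNReal.ofReal_le_ofReal_iff hε,
    ENNReal.ofReal_sum_of_nonneg fun i _ => by positivity]
  refine le_trans ?_ h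
  rw [Finset.sum_Ico_eq_sum_range]
  refine le_trans (le_of_eq ?_) (ENNReal.sum_le_tsum (Finset.range (m - l)))
  refine Finset.sum_congr rfl fun i _ => ?_
  rw [add_comm]

section

variable {I : Type*} {F : I → Type*}
variable [∀ i, TopologicalSpace (F i)] [∀ i, DiscreteTopology (F i)] [∀ i, Finite (F i)]

theorem exists_finset_head {p : ℝ} (hp : 0 < p) {θ : (∀ i, F i) → ℕ → ℝ} {B : I → Bool}
    {z : ∀ i, F i} (hc : ∀ n, ContinuousOn (fun x => θ x n) (Sub B z)) (l : ℕ) {ε : ℝ}
    (hε : 0 < ε) :
    ∃ S : Finset I, ∀ x ∈ Sub B z, ∀ y ∈ Sub B z, (∀ i ∈ S, x i = y i) →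
      ∑ j ∈ Finset.range l, |θ x j - θ y j| ^ p ≤ ε := by
  classical
  have hδ : 0 < (ε / (l + 1)) ^ (1 / p) := by positivity
  choose S hS using fun j => exists_finset_uniform (isCompact_Sub B z) (hc j) hδ
  refine ⟨(Finset.range l).biUnion S, fun x hx y hy hxy => ?_⟩
  calc ∑ j ∈ Finset.range l, |θ x j - θ y j| ^ p
      ≤ ∑ j ∈ Finset.range l, ε / (l + 1) := by
        refine Finset.sum_le_sum fun j hj => ?_
        have h := hS j x hx y hy fun i hi => hxy i (Finset.mem_biUnion.2 ⟨j, hj, hi⟩)
        calc |θ x j - θ y j| ^ p ≤ ((ε / (l + 1)) ^ (1 / p)) ^ p :=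
              Real.rpow_le_rpow (abs_nonneg _) h hp.le
          _ = ε / (l + 1) := by
              rw [← Real.rpow_mul (by positivity), one_div_mul_cancel hp.ne', Real.rpow_one]
    _ = l * (ε / (l + 1)) := by simp
    _ ≤ ε := by
        rw [mul_div_assoc']
        rw [div_le_iff₀ (by positivity)]
        nlinarith [hε]

end

/-- Embed the product over `(k, m)` in the product over all coordinates, using the coordinates
`(k, c k m)`. -/
noncomputable def emb {G : ℕ → Type*} (c : ℕ → ℕ → ℕ) (z x : ∀ i : ℕ × ℕ, G i.1) :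
    ∀ i : ℕ × ℕ, G i.1 :=
  open Classical in
  fun i => if h : ∃ m, c i.1 m = i.2 then x (i.1, h.choose) else z i

theorem emb_apply {G : ℕ → Type*} {c : ℕ → ℕ → ℕ} (hc : ∀ k, Function.Injective (c k))
    (z x : ∀ i : ℕ × ℕ, G i.1) (k m : ℕ) : emb c z x (k, c k m) = x (k, m) := by
  have h : ∃ m', c k m' = c k m := ⟨m, rfl⟩
  have e : h.choose = m := hc k h.choose_spec
  have : emb c z x (k, c k m) = x (k, h.choose) := dif_pos h
  rw [this]
  have hg : ∀ m', m' = m → x (k, m') = x (k, m) := by
    intro m' h'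
    subst h'
    rfl
  exact hg _ e

theorem emb_apply_of_not {G : ℕ → Type*} {c : ℕ → ℕ → ℕ}
    (z x : ∀ i : ℕ × ℕ, G i.1) (i : ℕ × ℕ) (h : ∀ m, c i.1 m ≠ i.2) : emb c z x i = z i := by
  have : ¬ ∃ m, c i.1 m = i.2 := by simpa using h
  exact dif_neg this

/-- If a Borel map `θ` into sequences changes by an `ℓ^p` sequence whenever finitely many
coordinates are changed, then on a generic sub-product (with infinitely many coordinates of each
type) the relation of having images at an `ℓ^p` difference is given by a sum of contributions of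
the single coordinates. -/
theorem exists_additive {G : ℕ → Type*} [∀ k, Finite (G k)] [∀ k, Nonempty (G k)]
    [∀ k, TopologicalSpace (G k)] [∀ k, DiscreteTopology (G k)]
    [MeasurableSpace (∀ i : ℕ × ℕ, G i.1)] [BorelSpace (∀ i : ℕ × ℕ, G i.1)]
    {p : ℝ} (hp : 0 < p) {θ : (∀ i : ℕ × ℕ, G i.1) → ℕ → ℝ}
    (hθ : ∀ n, Measurable fun x => θ x n)
    (hfin : ∀ x y : ∀ i : ℕ × ℕ, G i.1, (∃ S : Finset (ℕ × ℕ), ∀ i ∉ S, x i = y i) →
      Summable fun n => |θ x n - θ y n| ^ p) :
    ∃ (z : ∀ i : ℕ × ℕ, G i.1) (c : ℕ → ℕ → ℕ) (W : ℕ × ℕ → Finset ℕ),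
      (∀ k, Function.Injective (c k)) ∧
      ∀ x y : ∀ i : ℕ × ℕ, G i.1,
        (Summable fun n => |θ (emb c z x) n - θ (emb c z y) n| ^ p) ↔
        Summable fun q : ℕ × ℕ => ∑ j ∈ W q,
          |θ (Function.update z (q.1, c q.1 q.2) (x q)) j -
            θ (Function.update z (q.1, c q.1 q.2) (y q)) j| ^ p := by
  classical
  obtain ⟨B, z, hB, hcont, htail⟩ := exists_good_sub (F := fun i : ℕ × ℕ => G i.1) hθ hfin
    (J := fun k : ℕ => {i : ℕ × ℕ | i.1 = k}) fun k => by
      refine Set.infinite_of_injective_forall_mem (f := fun c : ℕ => (k, c)) ?_ ?_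
      · intro a b h; simpa using h
      · intro c; simp
  -- errors
  let ε : ℕ → ℝ := fun n => (1 / 2) ^ n
  have hε : ∀ n, 0 < ε n := fun n => by positivity
  choose L hL using fun (S : Finset (ℕ × ℕ)) (n : ℕ) =>
    htail S (ENNReal.ofReal (ε n)) (ENNReal.ofReal_pos.2 (hε n))
  choose Sf hSf using fun (l n : ℕ) => exists_finset_head hp hcont l (hε n)
  obtain ⟨i, l, hl, hinj, hi1, hi2, hi3, hi4⟩ := exists_selection B hB L Sf
  -- free coordinates
  have hsub : ∀ x : ∀ i : ℕ × ℕ, G i.1, (∀ a, (∀ n, i n ≠ a) → x a = z a) → x ∈ Sub B z := by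
    intro x hx a ha
    refine hx a fun n e => ?_
    rw [← e, hi2] at ha
    exact absurd ha (by simp)
  -- comparison with a single change
  have hcmp : ∀ x : ∀ i : ℕ × ℕ, G i.1, (∀ a, (∀ n, i n ≠ a) → x a = z a) → ∀ n,
      ∑ j ∈ Finset.Ico (l n) (l (n + 1)), |θ x j - θ (Function.update z (i n) (x (i n))) j| ^ p
        ≤ 2 ^ p * (ε n + ε (n + 1)) := by
    intro x hx n
    let x'' : ∀ i : ℕ × ℕ, G i.1 := fun a => if a ∈ (Finset.range n).image i then z a else x a
    have hx'' : ∀ a, (∀ n, i n ≠ a) → x'' a = z a := by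
      intro a ha
      simp only [x'']
      split_ifs
      · rfl
      · exact hx a ha
    have hx' : ∀ a, (∀ m, i m ≠ a) → Function.update z (i n) (x (i n)) a = z a := by
      intro a ha
      rw [Function.update_of_ne (ha n).symm]
    have e1 : ∑ j ∈ Finset.Ico (l n) (l (n + 1)), |θ x j - θ x'' j| ^ p ≤ ε n := by
      refine sum_Ico_le_of_tailSum (hε n).le ?_ _
      refine (tailSum_anti (hi3 n)).trans ?_
      refine hL _ n x (hsub x hx) x'' (hsub x'' hx'') fun a ha => ?_
      simp only [x'', if_neg ha]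
    have e2 : ∑ j ∈ Finset.Ico (l n) (l (n + 1)),
        |θ x'' j - θ (Function.update z (i n) (x (i n))) j| ^ p ≤ ε (n + 1) := by
      refine le_trans ?_ (hSf (l (n + 1)) (n + 1) x'' (hsub x'' hx'') _
        (hsub (Function.update z (i n) (x (i n))) hx') fun a ha => ?_)
      · refine Finset.sum_le_sum_of_subset_of_nonneg ?_ fun j _ _ => by positivity
        intro j hj
        simp only [Finset.mem_Ico, Finset.mem_range] at hj ⊢
        exact hj.2
      · by_cases h : ∃ m, i m = a
        · obtain ⟨m, rfl⟩ := h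
          have hmn : m ≤ n := by
            by_contra hlt
            exact hi4 (n + 1) m (by omega) ha
          rcases hmn.eq_or_lt with rfl | hlt
          · have : i m ∉ (Finset.range m).image i := by
              intro hmem
              obtain ⟨m', hm', e⟩ := Finset.mem_image.1 hmem
              rw [hinj e] at hm'
              simp at hm'
            simp only [x'', if_neg this, Function.update_self]
          · have h1 : i m ∈ (Finset.range n).image i :=
              Finset.mem_image_of_mem _ (Finset.mem_range.2 hlt)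
            have h2 : i m ≠ i n := fun e => hlt.ne (hinj e)
            simp only [x'', if_pos h1, Function.update_of_ne h2]
        · push Not at h
          rw [hx'' a h, hx' a h]
    calc ∑ j ∈ Finset.Ico (l n) (l (n + 1)),
          |θ x j - θ (Function.update z (i n) (x (i n))) j| ^ p
        ≤ ∑ j ∈ Finset.Ico (l n) (l (n + 1)), 2 ^ p * (|θ x j - θ x'' j| ^ p +
            |θ x'' j - θ (Function.update z (i n) (x (i n))) j| ^ p) :=
          Finset.sum_le_sum fun j _ => abs_sub_rpow_le hp.le _ _ _
      _ = 2 ^ p * (∑ j ∈ Finset.Ico (l n) (l (n + 1)), |θ x j - θ x'' j| ^ p +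
            ∑ j ∈ Finset.Ico (l n) (l (n + 1)),
              |θ x'' j - θ (Function.update z (i n) (x (i n))) j| ^ p) := by
          rw [← Finset.mul_sum, Finset.sum_add_distrib]
      _ ≤ _ := by gcongr
  -- the equivalence
  have hmain : ∀ x y : ∀ i : ℕ × ℕ, G i.1, (∀ a, (∀ n, i n ≠ a) → x a = z a) →
      (∀ a, (∀ n, i n ≠ a) → y a = z a) →
      ((Summable fun n => |θ x n - θ y n| ^ p) ↔
        Summable fun n => ∑ j ∈ Finset.Ico (l n) (l (n + 1)),
          |θ (Function.update z (i n) (x (i n))) j -
            θ (Function.update z (i n) (y (i n))) j| ^ p) := by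
    intro x y hx hy
    rw [summable_windows (fun j => by positivity) hl]
    have hεs : Summable fun n => 2 ^ p * (ε n + ε (n + 1)) := by
      have h0 : Summable ε := summable_geometric_of_lt_one (by norm_num) (by norm_num)
      exact (h0.add ((summable_nat_add_iff 1).2 h0)).mul_left _
    set A : ℕ → ℝ := fun n => ∑ j ∈ Finset.Ico (l n) (l (n + 1)), |θ x j - θ y j| ^ p with hA
    set A' : ℕ → ℝ := fun n => ∑ j ∈ Finset.Ico (l n) (l (n + 1)),
          |θ (Function.update z (i n) (x (i n))) j -
            θ (Function.update z (i n) (y (i n))) j| ^ p with hA'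
    have hc := hcmp x hx
    have hd := hcmp y hy
    constructor
    · intro h
      refine Summable.of_nonneg_of_le (fun n => Finset.sum_nonneg fun j _ => by positivity)
        (fun n => ?_) (((hεs.add ((h.add hεs).mul_left (2 ^ p)))).mul_left (2 ^ p))
      calc A' n ≤ ∑ j ∈ Finset.Ico (l n) (l (n + 1)), 2 ^ p *
            (|θ x j - θ (Function.update z (i n) (x (i n))) j| ^ p +
              2 ^ p * (|θ x j - θ y j| ^ p +
                |θ y j - θ (Function.update z (i n) (y (i n))) j| ^ p)) := by
            refine Finset.sum_le_sum fun j _ => ?_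
            refine (abs_sub_rpow_le hp.le _ _ (θ x j)).trans ?_
            rw [abs_sub_comm]
            gcongr
            exact abs_sub_rpow_le hp.le _ _ _
        _ = 2 ^ p * (∑ j ∈ Finset.Ico (l n) (l (n + 1)),
              |θ x j - θ (Function.update z (i n) (x (i n))) j| ^ p +
              2 ^ p * (A n + ∑ j ∈ Finset.Ico (l n) (l (n + 1)),
                |θ y j - θ (Function.update z (i n) (y (i n))) j| ^ p)) := by
            rw [hA]
            simp only [← Finset.mul_sum, Finset.sum_add_distrib]
        _ ≤ 2 ^ p * (2 ^ p * (ε n + ε (n + 1)) + 2 ^ p * (A n + 2 ^ p * (ε n + ε (n + 1)))) := by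
            gcongr
            · exact hc n
            · exact hd n
    · intro h
      refine Summable.of_nonneg_of_le (fun n => Finset.sum_nonneg fun j _ => by positivity)
        (fun n => ?_) (((hεs.add ((h.add hεs).mul_left (2 ^ p)))).mul_left (2 ^ p))
      calc A n ≤ ∑ j ∈ Finset.Ico (l n) (l (n + 1)), 2 ^ p *
            (|θ x j - θ (Function.update z (i n) (x (i n))) j| ^ p +
              2 ^ p * (|θ (Function.update z (i n) (x (i n))) j -
                  θ (Function.update z (i n) (y (i n))) j| ^ p +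
                |θ y j - θ (Function.update z (i n) (y (i n))) j| ^ p)) := by
            refine Finset.sum_le_sum fun j _ => ?_
            refine (abs_sub_rpow_le hp.le _ _ (θ (Function.update z (i n) (x (i n))) j)).trans ?_
            rw [abs_sub_comm (θ y j)]
            gcongr
            exact abs_sub_rpow_le hp.le _ _ _
        _ = 2 ^ p * (∑ j ∈ Finset.Ico (l n) (l (n + 1)),
              |θ x j - θ (Function.update z (i n) (x (i n))) j| ^ p +
              2 ^ p * (A' n + ∑ j ∈ Finset.Ico (l n) (l (n + 1)),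
                |θ y j - θ (Function.update z (i n) (y (i n))) j| ^ p)) := by
            rw [hA']
            simp only [← Finset.mul_sum, Finset.sum_add_distrib]
        _ ≤ 2 ^ p * (2 ^ p * (ε n + ε (n + 1)) + 2 ^ p * (A' n + 2 ^ p * (ε n + ε (n + 1)))) := by
            gcongr
            · exact hc n
            · exact hd n
  -- reindexing
  let c : ℕ → ℕ → ℕ := fun k m => (i (Nat.pair k m)).2
  have hic : ∀ k m, i (Nat.pair k m) = (k, c k m) := by
    intro k m
    refine Prod.ext ?_ rfl
    rw [hi1, Nat.unpair_pair]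
  have hci : ∀ k, Function.Injective (c k) := by
    intro k m m' h
    have : i (Nat.pair k m) = i (Nat.pair k m') := by rw [hic, hic, h]
    have := hinj this
    rw [Nat.pair_eq_pair] at this
    exact this.2
  have hembz : ∀ x : ∀ i : ℕ × ℕ, G i.1, ∀ a, (∀ n, i n ≠ a) → emb c z x a = z a := by
    intro x a ha
    refine emb_apply_of_not z x a fun m e => ?_
    refine ha (Nat.pair a.1 m) ?_
    rw [hic, e]
  refine ⟨z, c, fun q => Finset.Ico (l (Nat.pair q.1 q.2)) (l (Nat.pair q.1 q.2 + 1)), hci, ?_⟩
  intro x y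
  rw [hmain _ _ (hembz x) (hembz y)]
  rw [← Nat.pairEquiv.summable_iff]
  refine summable_congr fun q => ?_
  obtain ⟨k, m⟩ := q
  simp only [Function.comp, Nat.pairEquiv_apply, Function.uncurry_apply_pair]
  refine Finset.sum_congr rfl fun j _ => ?_
  have hx : Function.update z (i (Nat.pair k m)) (emb c z x (i (Nat.pair k m))) =
      Function.update z (k, c k m) (x (k, m)) := by
    rw [← emb_apply hci z x k m]
    exact congrArg (fun a => Function.update z a (emb c z x a)) (hic k m)
  have hy : Function.update z (i (Nat.pair k m)) (emb c z y (i (Nat.pair k m))) =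
      Function.update z (k, c k m) (y (k, m)) := by
    rw [← emb_apply hci z y k m]
    exact congrArg (fun a => Function.update z a (emb c z y a)) (hic k m)
  have hpair : Nat.pairEquiv (k, m) = Nat.pair k m := rfl
  rw [hpair, hx, hy]

end Pool.Agent.Lib.MP_ec05f5_lc
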