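import Pool.Agent.Lib.MP_ec05f5_lc.Schatten

/-!
# Orthonormal bases, and the case `p = 2`
-/

set_option autoImplicit false

namespace Pool.Agent.Lib.MP_ec05f5_lc

open scoped InnerProductSpace ENNReal
open Filter Topology MeasureTheory

variable {H : Type*} [NormedAddCommGroup H] [InnerProductSpace ℂ H] [CompleteSpace H]

omit [CompleteSpace H] in
theorem orthonormal_countable [TopologicalSpace.SeparableSpace H] {w : Set H}
    (hw : Orthonormal ℂ ((↑) : w → H)) : w.Countable := by
  have hdist : ∀ x ∈ w, ∀ y ∈ w, x ≠ y → 1 < ‖x - y‖ := by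
    intro x hx y hy hxy
    have h1 : ‖x‖ = 1 := hw.1 ⟨x, hx⟩
    have h2 : ‖y‖ = 1 := hw.1 ⟨y, hy⟩
    have h3 : ⟪x, y⟫_ℂ = 0 := hw.2 (i := ⟨x, hx⟩) (j := ⟨y, hy⟩) (by simpa using hxy)
    have h4 : ‖x - y‖ ^ 2 = 2 := by
      rw [@norm_sub_sq ℂ, h1, h2, h3]
      norm_num
    nlinarith [norm_nonneg (x - y)]
  have hd : w.PairwiseDisjoint fun x => Metric.ball x (1 / 2) := by
    intro x hx y hy hxy
    refine Metric.ball_disjoint_ball ?_
    rw [dist_eq_norm]
    linarith [hdist x hx y hy hxy]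
  exact hd.countable_of_isOpen (fun x _ => Metric.isOpen_ball)
    fun x _ => ⟨x, Metric.mem_ball_self (by norm_num)⟩

theorem reindex_basis {ι ι' : Type*} (b : HilbertBasis ι ℂ H) (e : ι' ≃ ι) :
    Nonempty (HilbertBasis ι' ℂ H) := by
  have hon : Orthonormal ℂ (fun n : ι' => b (e n)) := b.orthonormal.comp _ e.injective
  have hsp : ⊤ ≤ (Submodule.span ℂ (Set.range fun n : ι' => b (e n))).topologicalClosure := by
    have : (Set.range fun n : ι' => b (e n)) = Set.range b := e.surjective.range_comp b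
    rw [this, b.dense_span]
  exact ⟨HilbertBasis.mk hon hsp⟩

theorem exists_basis [TopologicalSpace.SeparableSpace H] (hH : ¬ FiniteDimensional ℂ H)
    (ι : Type*) [Denumerable ι] : Nonempty (HilbertBasis ι ℂ H) := by
  obtain ⟨w, b, hb⟩ := exists_hilbertBasis ℂ H
  have hon : Orthonormal ℂ ((↑) : w → H) := by rw [← hb]; exact b.orthonormal
  have hc : w.Countable := orthonormal_countable hon
  have hinf : Infinite w := by
    rw [← not_finite_iff_infinite]
    intro hfin
    have := Fintype.ofFinite w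
    exact hH (b.toOrthonormalBasis.toBasis.finiteDimensional_of_finite)
  have := hc.to_subtype
  obtain ⟨d⟩ := nonempty_denumerable w
  exact reindex_basis b ((Denumerable.eqv ι).trans (Denumerable.eqv w).symm)

/-! ### `p = 2` -/

theorem absPow_two (x : H →L[ℂ] H) : absPow 2 x = star x * x := by
  unfold absPow
  have : (fun t : ℝ => t ^ ((2 : ℝ) / 2)) = fun t => t := by
    funext t
    norm_num
  rw [this]
  exact cfc_id' ℝ (star x * x) (IsSelfAdjoint.star_mul_self x)

theorem inner_absPow_two (x : H →L[ℂ] H) (v : H) : (⟪v, absPow 2 x v⟫_ℂ).re = ‖x v‖ ^ 2 := by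
  rw [absPow_two, mul_apply_eq_comp, ContinuousLinearMap.star_eq_adjoint,
    ContinuousLinearMap.adjoint_inner_right, inner_self_eq_norm_sq_to_K]
  norm_cast

/-- An enumeration of `(ℕ × ℕ) × Bool`. -/
def enum3 : (ℕ × ℕ) × Bool ≃ ℕ :=
  ((Nat.pairEquiv.prodCongr (Equiv.refl Bool)).trans (Equiv.prodComm ℕ Bool)).trans
    Equiv.boolProdNatEquivNat

/-- The real and imaginary parts of the matrix coefficients. -/
noncomputable def coeffs (b : HilbertBasis ℕ ℂ H) (a : H →L[ℂ] H) (n : ℕ) : ℝ :=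
  let q := enum3.symm n
  if q.2 then (⟪a (b q.1.1), b q.1.2⟫_ℂ).re else (⟪a (b q.1.1), b q.1.2⟫_ℂ).im

omit [CompleteSpace H] in
theorem measurable_coeffs (b : HilbertBasis ℕ ℂ H) : Measurable[weakBorel H] (coeffs b) := by
  let _ : MeasurableSpace (H →L[ℂ] H) := weakBorel H
  have hm : ∀ ξ η : H, Measurable fun a : H →L[ℂ] H => ⟪a ξ, η⟫_ℂ := by
    intro ξ η
    have h1 : MeasurableSpace.comap (fun a : H →L[ℂ] H => ⟪a ξ, η⟫_ℂ) (borel ℂ) ≤ weakBorel H :=
      le_iSup₂_of_le ξ η le_rfl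
    have h2 : @Measurable _ _ (weakBorel H) (borel ℂ) (fun a : H →L[ℂ] H => ⟪a ξ, η⟫_ℂ) :=
      measurable_iff_comap_le.2 h1
    rwa [← BorelSpace.measurable_eq (α := ℂ)] at h2
  refine measurable_pi_lambda _ fun n => ?_
  unfold coeffs
  simp only
  split_ifs
  · exact Complex.measurable_re.comp (hm _ _)
  · exact Complex.measurable_im.comp (hm _ _)

theorem coeffs_iff (b : HilbertBasis ℕ ℂ H) (x y : H →L[ℂ] H) :
    IsSchatten 2 (x - y) ↔ Summable fun n => |coeffs b x n - coeffs b y n| ^ (2 : ℝ) := by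
  rw [isSchatten_iff (by norm_num) b]
  simp only [inner_absPow_two]
  -- the double sum of the squares of the matrix coefficients
  let z : ℕ × ℕ → ℂ := fun q => ⟪(x - y) (b q.1), b q.2⟫_ℂ
  have h1 : (Summable fun n => |coeffs b x n - coeffs b y n| ^ (2 : ℝ)) ↔
      Summable fun r : (ℕ × ℕ) × Bool => (if r.2 then (z r.1).re else (z r.1).im) ^ 2 := by
    rw [← enum3.summable_iff]
    refine summable_congr fun r => ?_
    simp only [Function.comp, coeffs, Equiv.symm_apply_apply, z, sub_apply, inner_sub_left]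
    rw [show (2 : ℝ) = ((2 : ℕ) : ℝ) by norm_num, Real.rpow_natCast, sq_abs]
    split_ifs <;> simp
  have h2 : (Summable fun r : (ℕ × ℕ) × Bool => (if r.2 then (z r.1).re else (z r.1).im) ^ 2) ↔
      Summable fun q : ℕ × ℕ => ‖z q‖ ^ 2 := by
    rw [summable_prod_of_nonneg (fun r => sq_nonneg _)]
    have e : ∀ q : ℕ × ℕ, ∑' β : Bool, (if β then (z q).re else (z q).im) ^ 2 = ‖z q‖ ^ 2 := by
      intro q
      rw [tsum_fintype, Fintype.sum_bool, ← Complex.normSq_eq_norm_sq, Complex.normSq_apply]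
      simp [pow_two]
    constructor
    · intro h
      exact h.2.congr fun q => e q
    · intro h
      exact ⟨fun q => (hasSum_fintype _).summable, h.congr fun q => (e q).symm⟩
  have h3 : (Summable fun q : ℕ × ℕ => ‖z q‖ ^ 2) ↔ Summable fun n => ‖(x - y) (b n)‖ ^ 2 := by
    rw [summable_prod_of_nonneg (fun r => by positivity)]
    have hs : ∀ n, HasSum (fun i => ‖z (n, i)‖ ^ 2) (‖(x - y) (b n)‖ ^ 2) := by
      intro n
      have := hasSum_norm_sq b ((x - y) (b n))
      refine this.congr_fun fun i => ?_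
      rw [← inner_conj_symm, RCLike.norm_conj]
    constructor
    · intro h
      exact h.2.congr fun n => (hs n).tsum_eq
    · intro h
      exact ⟨fun n => (hs n).summable, h.congr fun n => (hs n).tsum_eq.symm⟩
  rw [h1, h2, h3]

end Pool.Agent.Lib.MP_ec05f5_lc
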