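import Pool.Agent.Lib.MP_ec05f5_lc.Schatten

/-!
# Block diagonal operators
-/

set_option autoImplicit false

namespace Pool.Agent.Lib.MP_ec05f5_lc

open scoped InnerProductSpace ENNReal lp
open Filter Topology

variable {H : Type*} [NormedAddCommGroup H] [InnerProductSpace ℂ H]
variable {I : Type*} {κ : I → Type*} [∀ i, Fintype (κ i)]

/-- Two vectors with the same coordinates are equal. -/
theorem ext_basis {ι : Type*} (b : HilbertBasis ι ℂ H) {x y : H}
    (h : ∀ i, ⟪b i, x⟫_ℂ = ⟪b i, y⟫_ℂ) : x = y := by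
  apply b.repr.injective
  ext i
  rw [b.repr_apply_apply, b.repr_apply_apply, h]

/-- The coordinates of the image of a vector. -/
noncomputable def opCoord (e : HilbertBasis (Σ i, κ i) ℂ H) (w : ∀ i, Matrix (κ i) (κ i) ℝ)
    (ξ : H) (j : Σ i, κ i) : ℂ :=
  ∑ l, (w j.1 j.2 l : ℂ) * ⟪e ⟨j.1, l⟩, ξ⟫_ℂ

theorem norm_opCoord_sq_le (e : HilbertBasis (Σ i, κ i) ℂ H) {w : ∀ i, Matrix (κ i) (κ i) ℝ}
    (hw : ∀ i l l', (Fintype.card (κ i) : ℝ) * |w i l l'| ≤ 1) (ξ : H) (i : I) (l' : κ i) :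
    ‖opCoord e w ξ ⟨i, l'⟩‖ ^ 2 ≤
      (Fintype.card (κ i) : ℝ)⁻¹ * ∑ l, ‖⟪e ⟨i, l⟩, ξ⟫_ℂ‖ ^ 2 := by
  have hn : (0 : ℝ) < Fintype.card (κ i) := by
    have : 0 < Fintype.card (κ i) := Fintype.card_pos_iff.2 ⟨l'⟩
    exact_mod_cast this
  have h1 : ‖opCoord e w ξ ⟨i, l'⟩‖ ≤
      (Fintype.card (κ i) : ℝ)⁻¹ * ∑ l, ‖⟪e ⟨i, l⟩, ξ⟫_ℂ‖ := by
    unfold opCoord
    refine (norm_sum_le _ _).trans ?_
    rw [Finset.mul_sum]
    refine Finset.sum_le_sum fun l _ => ?_
    rw [norm_mul, Complex.norm_real, Real.norm_eq_abs]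
    gcongr
    rw [← one_div, le_div_iff₀ hn, mul_comm]
    exact hw i l' l
  calc ‖opCoord e w ξ ⟨i, l'⟩‖ ^ 2
      ≤ ((Fintype.card (κ i) : ℝ)⁻¹ * ∑ l, ‖⟪e ⟨i, l⟩, ξ⟫_ℂ‖) ^ 2 := by gcongr
    _ = (Fintype.card (κ i) : ℝ)⁻¹ ^ 2 * (∑ l, ‖⟪e ⟨i, l⟩, ξ⟫_ℂ‖) ^ 2 := mul_pow _ _ _
    _ ≤ (Fintype.card (κ i) : ℝ)⁻¹ ^ 2 *
        ((Fintype.card (κ i) : ℝ) * ∑ l, ‖⟪e ⟨i, l⟩, ξ⟫_ℂ‖ ^ 2) := by
        gcongr
        have := sq_sum_le_card_mul_sum_sq (s := Finset.univ) (f := fun l => ‖⟪e ⟨i, l⟩, ξ⟫_ℂ‖)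
        rwa [Finset.card_univ] at this
    _ = _ := by field_simp

theorem summable_opCoord (e : HilbertBasis (Σ i, κ i) ℂ H) {w : ∀ i, Matrix (κ i) (κ i) ℝ}
    (hw : ∀ i l l', (Fintype.card (κ i) : ℝ) * |w i l l'| ≤ 1) (ξ : H) :
    (Summable fun j => ‖opCoord e w ξ j‖ ^ 2) ∧ ∑' j, ‖opCoord e w ξ j‖ ^ 2 ≤ ‖ξ‖ ^ 2 := by
  have hs := hasSum_norm_sq e ξ
  have h1 := (summable_sigma_of_nonneg (fun j => by positivity)).1 hs.summable
  have h1' : Summable fun i => ∑ l, ‖⟪e ⟨i, l⟩, ξ⟫_ℂ‖ ^ 2 := by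
    simpa only [tsum_fintype] using h1.2
  have hle : ∀ i, ∑ l', ‖opCoord e w ξ ⟨i, l'⟩‖ ^ 2 ≤ ∑ l, ‖⟪e ⟨i, l⟩, ξ⟫_ℂ‖ ^ 2 := by
    intro i
    refine (Finset.sum_le_sum fun l' _ => norm_opCoord_sq_le e hw ξ i l').trans ?_
    rw [Finset.sum_const, nsmul_eq_mul, Finset.card_univ]
    rcases Nat.eq_zero_or_pos (Fintype.card (κ i)) with h0 | hpos
    · rw [h0]
      simp only [Nat.cast_zero, zero_mul]
      exact Finset.sum_nonneg fun l _ => by positivity
    · rw [← mul_assoc, mul_inv_cancel₀ (by exact_mod_cast hpos.ne'), one_mul]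
  have hsum : Summable fun i => ∑ l', ‖opCoord e w ξ ⟨i, l'⟩‖ ^ 2 :=
    Summable.of_nonneg_of_le (fun i => Finset.sum_nonneg fun l _ => by positivity) hle h1'
  have hS : Summable fun j => ‖opCoord e w ξ j‖ ^ 2 := by
    rw [summable_sigma_of_nonneg (fun j => by positivity)]
    refine ⟨fun i => (hasSum_fintype _).summable, ?_⟩
    simpa only [tsum_fintype] using hsum
  refine ⟨hS, ?_⟩
  rw [hS.tsum_sigma' (fun i => (hasSum_fintype _).summable), ← hs.tsum_eq,
    hs.summable.tsum_sigma' (fun i => (hasSum_fintype _).summable)]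
  simp only [tsum_fintype]
  exact hsum.tsum_le_tsum hle h1'

theorem memlp_opCoord (e : HilbertBasis (Σ i, κ i) ℂ H) {w : ∀ i, Matrix (κ i) (κ i) ℝ}
    (hw : ∀ i l l', (Fintype.card (κ i) : ℝ) * |w i l l'| ≤ 1) (ξ : H) :
    Memℓp (opCoord e w ξ) 2 := by
  refine memℓp_gen ?_
  have := (summable_opCoord e hw ξ).1
  simpa using this

/-- The block diagonal operator with real blocks `w i`. -/
noncomputable def blockOp (e : HilbertBasis (Σ i, κ i) ℂ H) (w : ∀ i, Matrix (κ i) (κ i) ℝ)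
    (hw : ∀ i l l', (Fintype.card (κ i) : ℝ) * |w i l l'| ≤ 1) : H →L[ℂ] H :=
  LinearMap.mkContinuous
    { toFun := fun ξ => e.repr.symm ⟨opCoord e w ξ, memlp_opCoord e hw ξ⟩
      map_add' := by
        intro x y
        rw [← map_add]
        congr 1
        ext j
        change opCoord e w (x + y) j = opCoord e w x j + opCoord e w y j
        simp only [opCoord, inner_add_right, mul_add, Finset.sum_add_distrib]
      map_smul' := by
        intro c x
        rw [RingHom.id_apply, ← map_smul]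
        congr 1
        ext j
        change opCoord e w (c • x) j = c * opCoord e w x j
        simp only [opCoord, inner_smul_right, Finset.mul_sum]
        exact Finset.sum_congr rfl fun l _ => by ring } 1 (by
    intro ξ
    rw [one_mul]
    refine le_of_sq_le_sq ?_ (norm_nonneg ξ)
    refine le_trans (le_of_eq ?_) (summable_opCoord e hw ξ).2
    rw [← (hasSum_norm_sq e _).tsum_eq]
    refine tsum_congr fun j => ?_
    rw [← e.repr_apply_apply]
    simp)

theorem inner_blockOp (e : HilbertBasis (Σ i, κ i) ℂ H) {w : ∀ i, Matrix (κ i) (κ i) ℝ}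
    (hw : ∀ i l l', (Fintype.card (κ i) : ℝ) * |w i l l'| ≤ 1) (ξ : H) (j : Σ i, κ i) :
    ⟪e j, blockOp e w hw ξ⟫_ℂ = opCoord e w ξ j := by
  rw [← e.repr_apply_apply]
  simp [blockOp]

variable [DecidableEq I] [∀ i, DecidableEq (κ i)]

omit [∀ i, Fintype (κ i)] in
theorem inner_basis (e : HilbertBasis (Σ i, κ i) ℂ H) (j j' : Σ i, κ i) :
    ⟪e j, e j'⟫_ℂ = if j = j' then 1 else 0 :=
  (orthonormal_iff_ite.1 e.orthonormal) j j'

theorem blockOp_basis (e : HilbertBasis (Σ i, κ i) ℂ H) {w : ∀ i, Matrix (κ i) (κ i) ℝ}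
    (hw : ∀ i l l', (Fintype.card (κ i) : ℝ) * |w i l l'| ≤ 1) (i : I) (l : κ i) :
    blockOp e w hw (e ⟨i, l⟩) = ∑ l', (w i l' l : ℂ) • e ⟨i, l'⟩ := by
  refine ext_basis e fun j => ?_
  obtain ⟨i', a⟩ := j
  rw [inner_blockOp, opCoord, inner_sum]
  simp only [inner_smul_right, inner_basis]
  by_cases h : i' = i
  · subst h
    rw [Finset.sum_eq_single l, Finset.sum_eq_single a]
    · simp
    · intro b _ hb
      rw [if_neg (by simpa using fun h => hb h.symm), mul_zero]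
    · intro h; exact absurd (Finset.mem_univ _) h
    · intro b _ hb
      rw [if_neg (by simpa using hb), mul_zero]
    · intro h; exact absurd (Finset.mem_univ _) h
  · rw [Finset.sum_eq_zero, Finset.sum_eq_zero]
    · intro b _
      rw [if_neg (fun hh => h (congrArg Sigma.fst hh)), mul_zero]
    · intro b _
      rw [if_neg (fun hh => h (congrArg Sigma.fst hh)), mul_zero]

section diff

variable [CompleteSpace H]

/-- `D` acts on the basis by the blocks `u i`. -/
def ActsBy (e : HilbertBasis (Σ i, κ i) ℂ H) (D : H →L[ℂ] H)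
    (u : ∀ i, Matrix (κ i) (κ i) ℝ) : Prop :=
  ∀ i l, D (e ⟨i, l⟩) = ∑ l', (u i l' l : ℂ) • e ⟨i, l'⟩

theorem inner_of_actsBy {e : HilbertBasis (Σ i, κ i) ℂ H} {D : H →L[ℂ] H}
    {u : ∀ i, Matrix (κ i) (κ i) ℝ} (hD : ActsBy e D u) (i : I) (l : κ i) :
    (star D * D) (e ⟨i, l⟩) = ∑ l', (((u i).transpose * u i) l' l : ℂ) • e ⟨i, l'⟩ := by
  refine ext_basis e fun j => ?_
  obtain ⟨i', a⟩ := j
  rw [mul_apply_eq_comp, ContinuousLinearMap.star_eq_adjoint,
    ContinuousLinearMap.adjoint_inner_right, hD, hD, inner_sum]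
  simp only [sum_inner, inner_smul_left, inner_smul_right, inner_basis, inner_sum,
    Complex.conj_ofReal]
  by_cases h : i' = i
  · subst h
    rw [Finset.sum_eq_single a (f := fun x => ((((u i').transpose * u i') x l : ℝ) : ℂ) *
      if (⟨i', a⟩ : Σ i, κ i) = ⟨i', x⟩ then 1 else 0)]
    · rw [if_pos rfl, mul_one, Matrix.mul_apply]
      push_cast
      refine Finset.sum_congr rfl fun b _ => ?_
      rw [Finset.sum_eq_single b]
      · rw [if_pos rfl, mul_one, Matrix.transpose_apply, mul_comm]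
      · intro c _ hc
        rw [if_neg (by simpa using hc), mul_zero]
      · intro h; exact absurd (Finset.mem_univ _) h
    · intro b _ hb
      rw [if_neg (by simpa using fun h => hb h.symm), mul_zero]
    · intro h; exact absurd (Finset.mem_univ _) h
  · rw [Finset.sum_eq_zero, Finset.sum_eq_zero]
    · intro b _
      rw [if_neg (fun hh => h (congrArg Sigma.fst hh)), mul_zero]
    · intro b _
      rw [Finset.sum_eq_zero, mul_zero]
      intro c _
      rw [if_neg (fun hh => h (congrArg Sigma.fst hh)), mul_zero]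

/-- The diagonal coefficients of `|D|^p` for blocks which are multiples of partial isometries. -/
theorem absPow_basis {e : HilbertBasis (Σ i, κ i) ℂ H} {D : H →L[ℂ] H}
    {u : ∀ i, Matrix (κ i) (κ i) ℝ} (hD : ActsBy e D u) {p : ℝ} (hp : 0 < p) (i : I)
    {s : ℝ} (hs : 0 < s) (hu : u i * (u i).transpose * u i = s • u i) (l : κ i) :
    (⟪e ⟨i, l⟩, absPow p D (e ⟨i, l⟩)⟫_ℂ).re =
      s ^ (p / 2 - 1) * ((u i).transpose * u i) l l := by
  set g : Matrix (κ i) (κ i) ℝ := (u i).transpose * u i with hg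
  have hgg : g * g = s • g := by
    calc g * g = (u i).transpose * (u i * (u i).transpose * u i) := by
          rw [hg]; simp only [Matrix.mul_assoc]
      _ = s • g := by rw [hu, Matrix.mul_smul]
  have hA := inner_of_actsBy hD
  have hAA : (star D * D) ((star D * D) (e ⟨i, l⟩)) = (s : ℂ) • (star D * D) (e ⟨i, l⟩) := by
    conv_lhs => rw [hA i l]
    rw [map_sum]
    simp only [map_smul, hA i, Finset.smul_sum, smul_smul]
    rw [Finset.sum_comm]
    refine Finset.sum_congr rfl fun a _ => ?_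
    rw [← Finset.sum_smul]
    congr 1
    have := congrFun (congrFun hgg a) l
    rw [Matrix.mul_apply, Matrix.smul_apply, smul_eq_mul] at this
    rw [← hg]
    rw [← Complex.ofReal_mul, ← this]
    push_cast
    exact Finset.sum_congr rfl fun b _ => mul_comm _ _
  have hsa : IsSelfAdjoint (star D * D) := IsSelfAdjoint.star_mul_self D
  have h1 := cfc_apply_of_sq hsa hs hAA (continuous_rpow_half hp.le)
    (Real.zero_rpow (by positivity))
  unfold absPow
  rw [h1, hA i l, inner_smul_right, inner_sum]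
  simp only [inner_smul_right, inner_basis]
  rw [Finset.sum_eq_single l]
  · rw [if_pos rfl, mul_one, ← Complex.ofReal_mul, Complex.ofReal_re, ← hg,
      Real.rpow_sub_one hs.ne']
  · intro b _ hb
    rw [if_neg (by simpa using fun h => hb h.symm), mul_zero]
  · intro h; exact absurd (Finset.mem_univ _) h

omit [∀ i, Fintype (κ i)] [DecidableEq I] [∀ i, DecidableEq (κ i)] in
theorem absPow_basis_zero {e : HilbertBasis (Σ i, κ i) ℂ H} {D : H →L[ℂ] H} {p : ℝ}
    (hp : 0 < p) {j : Σ i, κ i} (hj : D (e j) = 0) : absPow p D (e j) = 0 := by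
  have hsa : IsSelfAdjoint (star D * D) := IsSelfAdjoint.star_mul_self D
  have h0 : (star D * D) (e j) = ((0 : ℝ) : ℂ) • e j := by
    rw [mul_apply_eq_comp, hj]; simp
  unfold absPow
  rw [cfc_apply_eigenvector hsa h0 (continuous_rpow_half hp.le), Real.zero_rpow (by positivity)]
  simp

omit [DecidableEq I] [∀ i, DecidableEq (κ i)] in
theorem trace_eq {u : ∀ i, Matrix (κ i) (κ i) ℝ} (i : I) :
    ∑ l, ((u i).transpose * u i) l l = ∑ l, ∑ l', u i l' l ^ 2 := by
  refine Finset.sum_congr rfl fun l _ => ?_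
  rw [Matrix.mul_apply]
  exact Finset.sum_congr rfl fun l' _ => by rw [Matrix.transpose_apply, pow_two]

theorem isSchatten_iff_summable [Denumerable (Σ i, κ i)] {e : HilbertBasis (Σ i, κ i) ℂ H}
    {D : H →L[ℂ] H} {u : ∀ i, Matrix (κ i) (κ i) ℝ} (hD : ActsBy e D u) {p : ℝ} (hp : 0 < p)
    {s : I → ℝ} (hs : ∀ i, 0 < s i) (hu : ∀ i, u i * (u i).transpose * u i = s i • u i) :
    IsSchatten p D ↔ Summable fun i => s i ^ (p / 2 - 1) * ∑ l, ∑ l', u i l' l ^ 2 := by
  rw [isSchatten_iff hp e, summable_sigma_of_nonneg]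
  · constructor
    · intro h
      refine h.2.congr fun i => ?_
      rw [tsum_fintype, ← trace_eq, Finset.mul_sum]
      exact Finset.sum_congr rfl fun l _ => (absPow_basis hD hp i (hs i) (hu i) l)
    · intro h
      refine ⟨fun i => (hasSum_fintype _).summable, h.congr fun i => ?_⟩
      rw [tsum_fintype, ← trace_eq, Finset.mul_sum]
      exact Finset.sum_congr rfl fun l _ => (absPow_basis hD hp i (hs i) (hu i) l).symm
  · rintro ⟨i, l⟩
    rw [absPow_basis hD hp i (hs i) (hu i) l, Matrix.mul_apply]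
    refine mul_nonneg (Real.rpow_nonneg (hs i).le _) (Finset.sum_nonneg fun a _ => ?_)
    rw [Matrix.transpose_apply]
    exact mul_self_nonneg _

omit [∀ i, DecidableEq (κ i)] in
theorem isSchatten_of_finite [Denumerable (Σ i, κ i)] {e : HilbertBasis (Σ i, κ i) ℂ H}
    {D : H →L[ℂ] H} {p : ℝ} (hp : 0 < p) (S : Finset I)
    (h : ∀ i ∉ S, ∀ l, D (e ⟨i, l⟩) = 0) : IsSchatten p D := by
  rw [isSchatten_iff hp e]
  refine summable_of_hasFiniteSupport ((S.sigma fun i => (Finset.univ : Finset (κ i))).finite_toSet.subset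
    fun j hj => ?_)
  simp only [Finset.coe_sigma, Set.mem_sigma_iff, Finset.mem_coe, Finset.mem_univ, and_true]
  by_contra hS
  apply hj
  have : D (e j) = 0 := h j.1 hS j.2
  simp only [absPow_basis_zero hp this, inner_zero_right, Complex.zero_re]

end diff

omit [DecidableEq I] [∀ i, DecidableEq (κ i)] in
/-- Matrix coefficients of block operators depending on a point of a product of finite sets. -/
theorem measurable_blockOp [Countable I] {G : I → Type*} [∀ i, TopologicalSpace (G i)]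
    [∀ i, DiscreteTopology (G i)] [MeasurableSpace (∀ i, G i)] [BorelSpace (∀ i, G i)]
    (e : HilbertBasis (Σ i, κ i) ℂ H) {w : ∀ i, G i → Matrix (κ i) (κ i) ℝ}
    (hw : ∀ i g l l', (Fintype.card (κ i) : ℝ) * |w i g l l'| ≤ 1) (ξ η : H) :
    Measurable fun x : ∀ i, G i =>
      ⟪blockOp e (fun i => w i (x i)) (fun i => hw i (x i)) ξ, η⟫_ℂ := by
  have hs : ∀ x : ∀ i, G i, HasSum (fun j =>
      ⟪blockOp e (fun i => w i (x i)) (fun i => hw i (x i)) ξ, e j⟫_ℂ * ⟪e j, η⟫_ℂ)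
      ⟪blockOp e (fun i => w i (x i)) (fun i => hw i (x i)) ξ, η⟫_ℂ := fun x =>
    e.hasSum_inner_mul_inner _ _
  refine measurable_of_tendsto_metrizable' (f := fun (S : Finset (Σ i, κ i)) (x : ∀ i, G i) =>
    ∑ j ∈ S, ⟪blockOp e (fun i => w i (x i)) (fun i => hw i (x i)) ξ, e j⟫_ℂ * ⟪e j, η⟫_ℂ)
    atTop (fun S => ?_) (tendsto_pi_nhds.2 fun x => hs x)
  refine Finset.measurable_sum _ fun j _ => ?_
  refine Measurable.mul_const ?_ _
  have hcont : Continuous fun x : ∀ i, G i =>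
      ⟪blockOp e (fun i => w i (x i)) (fun i => hw i (x i)) ξ, e j⟫_ℂ := by
    have e1 : (fun x : ∀ i, G i =>
        ⟪blockOp e (fun i => w i (x i)) (fun i => hw i (x i)) ξ, e j⟫_ℂ) =
        (fun g : G j.1 => (starRingEnd ℂ) (∑ l, (w j.1 g j.2 l : ℂ) * ⟪e ⟨j.1, l⟩, ξ⟫_ℂ)) ∘
          fun x => x j.1 := by
      funext x
      rw [← inner_conj_symm, inner_blockOp]
      rfl
    rw [e1]
    exact continuous_of_discreteTopology.comp (continuous_apply _)
  exact hcont.measurable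

end Pool.Agent.Lib.MP_ec05f5_lc
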