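import Pool.Agent.Lib.MP_ec05f5_lc.GridObstruction

/-!
# Multiples of partial isometries and the values `tr |u|^p`
-/

set_option autoImplicit false

namespace Pool.Agent.Lib.MP_ec05f5_lc

variable {κ : Type} [Fintype κ] [DecidableEq κ]

/-- `tr |u|^p` for a real matrix `u` which is a multiple of a partial isometry. -/
noncomputable def blockVal (p : ℝ) (u : Matrix κ κ ℝ) : ℝ :=
  open Classical in
  if h : u ≠ 0 ∧ ∃ s : ℝ, 0 < s ∧ u * u.transpose * u = s • u then
    h.2.choose ^ (p / 2 - 1) * ∑ l, ∑ l', u l' l ^ 2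
  else 0

omit [DecidableEq κ] in
theorem blockVal_eq (p : ℝ) {u : Matrix κ κ ℝ} {s : ℝ} (hs : 0 < s)
    (hu : u * u.transpose * u = s • u) :
    blockVal p u = s ^ (p / 2 - 1) * ∑ l, ∑ l', u l' l ^ 2 := by
  classical
  by_cases h0 : u = 0
  · subst h0
    simp [blockVal]
  · have h : u ≠ 0 ∧ ∃ s : ℝ, 0 < s ∧ u * u.transpose * u = s • u := ⟨h0, s, hs, hu⟩
    have hc : s • u = h.2.choose • u := hu.symm.trans h.2.choose_spec.2
    have hs' : s = h.2.choose := by
      by_contra hne
      have : (s - h.2.choose) • u = 0 := by rw [sub_smul, hc, sub_self]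
      rcases smul_eq_zero.1 this with h1 | h1
      · exact hne (sub_eq_zero.1 h1)
      · exact h0 h1
    unfold blockVal
    rw [dif_pos h, ← hs']

omit [DecidableEq κ] in
theorem blockVal_zero (p : ℝ) : blockVal p (0 : Matrix κ κ ℝ) = 0 := by
  simp [blockVal]

/-- The real matrix of an integer vector. -/
def dirMat (d : κ × κ → ℤ) : Matrix κ κ ℝ := fun i j => (d (i, j) : ℝ)

omit [DecidableEq κ] in
theorem smul_identity {A : Matrix κ κ ℝ} {r c : ℝ} (hA : A * A.transpose * A = (r ^ 2) • A) :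
    (c • A) * (c • A).transpose * (c • A) = ((c * r) ^ 2) • (c • A) := by
  simp only [Matrix.transpose_smul, Matrix.smul_mul, Matrix.mul_smul, hA, smul_smul]
  congr 1
  ring

omit [DecidableEq κ] in
theorem blockVal_smul (p : ℝ) {A : Matrix κ κ ℝ} {r c q : ℝ} (hr : 0 < r) (hc : 0 < c)
    (hA : A * A.transpose * A = (r ^ 2) • A) (hq : ∑ l, ∑ l', A l' l ^ 2 = q * r ^ 2) :
    blockVal p (c • A) = (c * r) ^ p * q := by
  have hcr : 0 < c * r := by positivity
  rw [blockVal_eq p (s := (c * r) ^ 2) (by positivity) (smul_identity hA)]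
  have e : ∑ l, ∑ l', (c • A) l' l ^ 2 = q * (c * r) ^ 2 := by
    simp only [Matrix.smul_apply, smul_eq_mul, mul_pow, ← Finset.mul_sum, hq]
    ring
  have e2 : ((c * r) ^ 2) ^ (p / 2 - 1) = (c * r) ^ p * ((c * r) ^ 2)⁻¹ := by
    rw [Real.rpow_sub_one (by positivity), ← Real.rpow_natCast (c * r) 2, ← Real.rpow_mul hcr.le,
      div_eq_mul_inv]
    congr 2
    push_cast
    ring
  rw [e, e2]
  field_simp

theorem single_identity (c : κ × κ) :
    dirMat (Pi.single c 1) * (dirMat (Pi.single c 1)).transpose * dirMat (Pi.single c 1) =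
      ((1 : ℝ) ^ 2) • dirMat (Pi.single c 1) ∧
    ∑ l, ∑ l', dirMat (Pi.single c 1) l' l ^ 2 = 1 * (1 : ℝ) ^ 2 := by
  obtain ⟨a, b⟩ := c
  have e : dirMat (Pi.single (a, b) 1) = Matrix.single a b (1 : ℝ) := by
    ext i j
    simp only [dirMat, Matrix.single_apply, Pi.single_apply, Prod.mk.injEq]
    split_ifs with h1 h2 h2
    · simp
    · exact absurd ⟨h1.1.symm, h1.2.symm⟩ h2
    · exact absurd ⟨h2.1.symm, h2.2.symm⟩ h1
    · simp
  rw [e]
  constructor
  · rw [Matrix.transpose_single, Matrix.single_mul_single_same, Matrix.single_mul_single_same]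
    simp
  · rw [Finset.sum_eq_single b, Finset.sum_eq_single a]
    · simp
    · intro i _ hi
      simp [hi.symm]
    · intro h; exact absurd (Finset.mem_univ _) h
    · intro j _ hj
      refine Finset.sum_eq_zero fun i _ => ?_
      simp [hj.symm]
    · intro h; exact absurd (Finset.mem_univ _) h

theorem sg_mul_sg (b : Bool) : ((sg b : ℤ) : ℝ) * (sg b : ℝ) = 1 := by
  rw [← pow_two, sg_sq]

omit [DecidableEq κ] in
theorem rankOne_identity (ω : (κ → Bool) × (κ → Bool)) :
    dirMat (rankOne ω) * (dirMat (rankOne ω)).transpose * dirMat (rankOne ω) =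
      ((Fintype.card κ : ℝ) ^ 2) • dirMat (rankOne ω) ∧
    ∑ l, ∑ l', dirMat (rankOne ω) l' l ^ 2 = 1 * (Fintype.card κ : ℝ) ^ 2 := by
  have e : ∀ i j, dirMat (rankOne ω) i j = (sg (ω.1 i) : ℝ) * (sg (ω.2 j) : ℝ) := by
    intro i j
    simp [dirMat, rankOne]
  constructor
  · ext i j
    simp only [Matrix.mul_apply, Matrix.transpose_apply, e, Matrix.smul_apply, smul_eq_mul]
    have h1 : ∀ k, ∑ l, (sg (ω.1 i) : ℝ) * (sg (ω.2 l) : ℝ) * ((sg (ω.1 k) : ℝ) * (sg (ω.2 l) : ℝ)) =
        (sg (ω.1 i) : ℝ) * (sg (ω.1 k) : ℝ) * Fintype.card κ := by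
      intro k
      have : ∀ l, (sg (ω.1 i) : ℝ) * (sg (ω.2 l) : ℝ) * ((sg (ω.1 k) : ℝ) * (sg (ω.2 l) : ℝ)) =
          (sg (ω.1 i) : ℝ) * (sg (ω.1 k) : ℝ) := by
        intro l
        have := sg_mul_sg (ω.2 l)
        linear_combination (sg (ω.1 i) : ℝ) * (sg (ω.1 k) : ℝ) * this
      simp only [this, Finset.sum_const, nsmul_eq_mul, Finset.card_univ]
      ring
    simp only [h1]
    have h2 : ∀ k, (sg (ω.1 i) : ℝ) * (sg (ω.1 k) : ℝ) * Fintype.card κ *
        ((sg (ω.1 k) : ℝ) * (sg (ω.2 j) : ℝ)) =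
        Fintype.card κ * ((sg (ω.1 i) : ℝ) * (sg (ω.2 j) : ℝ)) := by
      intro k
      have := sg_mul_sg (ω.1 k)
      linear_combination (sg (ω.1 i) : ℝ) * (sg (ω.2 j) : ℝ) * (Fintype.card κ : ℝ) * this
    simp only [h2, Finset.sum_const, nsmul_eq_mul, Finset.card_univ]
    ring
  · have : ∀ l l', dirMat (rankOne ω) l' l ^ 2 = 1 := by
      intro l l'
      rw [e, mul_pow, sg_sq, sg_sq, one_mul]
    simp only [this, Finset.sum_const, nsmul_eq_mul, Finset.card_univ]
    ring

theorem flat_identity [AddGroup κ] (R : ℕ) (ω : κ × (κ → Bool)) :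
    dirMat (flat R ω) * (dirMat (flat R ω)).transpose * dirMat (flat R ω) =
      ((R : ℝ) ^ 2) • dirMat (flat R ω) ∧
    ∑ l, ∑ l', dirMat (flat R ω) l' l ^ 2 = (Fintype.card κ : ℝ) * (R : ℝ) ^ 2 := by
  have e : ∀ i j, dirMat (flat R ω) i j =
      if j = i + ω.1 then (R : ℝ) * (sg (ω.2 i) : ℝ) else 0 := by
    intro i j
    simp only [dirMat, flat]
    split_ifs <;> simp
  constructor
  · ext i j
    simp only [Matrix.mul_apply, Matrix.transpose_apply, Matrix.smul_apply, smul_eq_mul]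
    have h1 : ∀ k, ∑ l, dirMat (flat R ω) i l * dirMat (flat R ω) k l =
        if k = i then (R : ℝ) ^ 2 else 0 := by
      intro k
      simp only [e]
      rw [Finset.sum_eq_single (i + ω.1)]
      · by_cases hk : k = i
        · subst hk
          rw [if_pos rfl, if_pos rfl]
          have := sg_mul_sg (ω.2 k)
          linear_combination (R : ℝ) ^ 2 * this
        · rw [if_neg (fun h => hk (add_right_cancel h).symm), if_neg hk, mul_zero]
      · intro l _ hl
        rw [if_neg hl, zero_mul]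
      · intro h; exact absurd (Finset.mem_univ _) h
    simp only [h1]
    rw [Finset.sum_eq_single i]
    · rw [if_pos rfl]
    · intro k _ hk
      rw [if_neg hk, zero_mul]
    · intro h; exact absurd (Finset.mem_univ _) h
  · have h1 : ∀ l' : κ, ∑ l, dirMat (flat R ω) l' l ^ 2 = (R : ℝ) ^ 2 := by
      intro l'
      rw [Finset.sum_eq_single (l' + ω.1)]
      · rw [e, if_pos rfl, mul_pow, sg_sq, mul_one]
      · intro l _ hl
        rw [e, if_neg hl]
        ring
      · intro h; exact absurd (Finset.mem_univ _) h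
    rw [Finset.sum_comm]
    simp only [h1, Finset.sum_const, nsmul_eq_mul, Finset.card_univ]

/-- All used directions are multiples of partial isometries. -/
theorem exists_identity_of_isDir {m R L : ℕ} (hR : 0 < R) (hL : 0 < L)
    {d : Fin (m + 1) × Fin (m + 1) → ℤ} (hd : IsDir m R L d) {c : ℝ} (hc : 0 < c) :
    ∃ s : ℝ, 0 < s ∧
      (c • dirMat d) * (c • dirMat d).transpose * (c • dirMat d) = s • (c • dirMat d) := by
  have hR' : (0 : ℝ) < R := by exact_mod_cast hR
  have hL' : (0 : ℝ) < L := by exact_mod_cast hL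
  have hcard : (0 : ℝ) < Fintype.card (Fin (m + 1)) := by
    rw [Fintype.card_fin]; positivity
  have hsmul : ∀ d' : Fin (m + 1) × Fin (m + 1) → ℤ, dirMat (L • d') = (L : ℝ) • dirMat d' := by
    intro d'
    ext i j
    simp [dirMat]
  rcases hd with ⟨a, rfl⟩ | ⟨ω, rfl⟩ | ⟨ω, rfl⟩ | ⟨ω, rfl⟩ | ⟨ω, rfl⟩
  · exact ⟨_, by positivity, smul_identity (single_identity a).1⟩
  · exact ⟨_, by positivity, smul_identity (flat_identity R ω).1⟩
  · rw [hsmul, smul_smul]
    exact ⟨_, by positivity, smul_identity (flat_identity R ω).1⟩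
  · exact ⟨_, by positivity, smul_identity (rankOne_identity ω).1⟩
  · rw [hsmul, smul_smul]
    exact ⟨_, by positivity, smul_identity (rankOne_identity ω).1⟩

end Pool.Agent.Lib.MP_ec05f5_lc
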