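import Pool.Agent.Lib.MP_ec05f5_lc.Smoothing

/-!
# Comparison of displacements in two families of directions
-/

set_option autoImplicit false

namespace Pool.Agent.Lib.MP_ec05f5_lc

open Finset

variable {ι : Type*} [Fintype ι] [DecidableEq ι]
variable {E : Type*} [NormedAddCommGroup E] [NormedSpace ℝ E]

/-- The box of all points of `[0, M)^ι` at distance at least `m` from its boundary. -/
noncomputable def box (ι : Type*) [Fintype ι] [DecidableEq ι] (M m : ℕ) : Finset (ι → ℤ) :=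
  Fintype.piFinset fun _ => Finset.Ico (m : ℤ) ((M : ℤ) - m)

theorem mem_box {M m : ℕ} {x : ι → ℤ} : x ∈ box ι M m ↔ ∀ c, (m : ℤ) ≤ x c ∧ x c < M - m := by
  simp [box]

theorem add_mem_box {M m m' : ℕ} {x v : ι → ℤ} (hx : x ∈ box ι M (m + m'))
    (hv : ∀ c, |v c| ≤ m) : x + v ∈ box ι M m' := by
  rw [mem_box] at hx ⊢
  intro c
  have h1 := hx c
  have h2 := abs_le.1 (hv c)
  push_cast at h1
  simp only [Pi.add_apply]
  omega

theorem box_mono {M m m' : ℕ} (h : m ≤ m') : box ι M m' ⊆ box ι M m := by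
  intro x hx
  rw [mem_box] at hx ⊢
  intro c
  have h1 := hx c
  omega

omit [NormedSpace ℝ E] in
theorem norm_add_rpow_le {p : ℝ} (hp : 0 ≤ p) (u v : E) :
    ‖u + v‖ ^ p ≤ 2 ^ p * (‖u‖ ^ p + ‖v‖ ^ p) := by
  have h2 : ‖u + v‖ ≤ 2 * max ‖u‖ ‖v‖ := by
    have := norm_add_le u v
    have := le_max_left ‖u‖ ‖v‖
    have := le_max_right ‖u‖ ‖v‖
    linarith
  calc ‖u + v‖ ^ p ≤ (2 * max ‖u‖ ‖v‖) ^ p := Real.rpow_le_rpow (norm_nonneg _) h2 hp
    _ = 2 ^ p * (max ‖u‖ ‖v‖) ^ p :=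
        Real.mul_rpow (by norm_num) (le_max_of_le_left (norm_nonneg _))
    _ ≤ _ := by
        gcongr
        rcases le_total ‖u‖ ‖v‖ with h | h
        · rw [max_eq_right h]
          exact le_add_of_nonneg_left (by positivity)
        · rw [max_eq_left h]
          exact le_add_of_nonneg_right (by positivity)

omit [Fintype ι] [DecidableEq ι] [NormedSpace ℝ E] in
theorem norm_telescope_rpow_le {p : ℝ} (hp : 1 ≤ p) (f : (ι → ℤ) → E) (x b : ι → ℤ) (L : ℕ) :
    ‖f (x + L • b) - f x‖ ^ p ≤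
      (L : ℝ) ^ (p - 1) * ∑ l ∈ range L, ‖f (x + l • b + b) - f (x + l • b)‖ ^ p := by
  have h1 : f (x + L • b) - f x = ∑ l ∈ range L, (f (x + l • b + b) - f (x + l • b)) := by
    have := Finset.sum_range_sub (fun l => f (x + l • b)) L
    rw [zero_smul, add_zero] at this
    rw [← this]
    refine Finset.sum_congr rfl fun l _ => ?_
    rw [add_smul, one_smul, add_assoc]
  rw [h1]
  calc _ ≤ (∑ l ∈ range L, ‖f (x + l • b + b) - f (x + l • b)‖) ^ p :=
        Real.rpow_le_rpow (norm_nonneg _) (norm_sum_le _ _) (by linarith)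
    _ ≤ _ := by
        have := Real.rpow_sum_le_const_mul_sum_rpow_of_nonneg (range L)
          (f := fun l => ‖f (x + l • b + b) - f (x + l • b)‖) hp fun l _ => norm_nonneg _
        simpa using this

theorem sum_box_shift_le {M m m' : ℕ} {g : (ι → ℤ) → ℝ} (hg : ∀ x, 0 ≤ g x) {v : ι → ℤ}
    (hv : ∀ c, |v c| ≤ m) :
    ∑ x ∈ box ι M (m + m'), g (x + v) ≤ ∑ x ∈ box ι M m', g x := by
  have h1 : ∑ x ∈ box ι M (m + m'), g (x + v) =
      ∑ y ∈ (box ι M (m + m')).map (addRightEmbedding v), g y := by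
    rw [Finset.sum_map]
    rfl
  rw [h1]
  refine Finset.sum_le_sum_of_subset_of_nonneg ?_ fun x _ _ => hg x
  intro y hy
  obtain ⟨x, hx, rfl⟩ := Finset.mem_map.1 hy
  exact add_mem_box hx hv

/-- The main comparison. -/
theorem displacement_comparison {p : ℝ} (hp : 1 ≤ p) {𝒜 ℬ : Type*} [Fintype 𝒜] [Fintype ℬ]
    [Nonempty 𝒜] [Nonempty ℬ] {a : 𝒜 → ι → ℤ} {b : ℬ → ι → ℤ} {R s L M : ℕ} (hs0 : 0 < s)
    (hL0 : 0 < L) (ha : ∀ i c, |a i c| ≤ R) (hb : ∀ i c, |b i c| ≤ R) {C₀ : ℝ} (hC₀ : 0 ≤ C₀)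
    (hK : ∀ v : ι → E, (∑ i, ‖∑ c, (b i c : ℝ) • v c‖ ^ p) / Fintype.card ℬ ≤
      C₀ * ((∑ i, ‖∑ c, (a i c : ℝ) • v c‖ ^ p) / Fintype.card 𝒜))
    (hs : 2 * (Fintype.card ι * R) ^ 2 ≤ s) {F : (ι → ℤ) → E}
    (hF : ∀ x c, ‖F (x + Pi.single c 1) - F x‖ ≤ 1) {α β : ℝ} (hα : 1 ≤ α) (hβ : 0 ≤ β)
    (hA : ∀ i, ∀ x ∈ box ι M R, ‖F (x + a i) - F x‖ ^ p ≤ α)
    (hB : ∀ i, ∀ x ∈ box ι M (L * R), (L : ℝ) ^ p * β ≤ ‖F (x + L • b i) - F x‖ ^ p)
    (hL : 4 * Fintype.card ι * s ≤ L * β ^ (1 / p))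
    (hM : (box ι M (R + s)).card ≤ 2 * (box ι M (L * R + (R + s))).card)
    (hM0 : 0 < (box ι M (L * R + (R + s))).card) :
    β ≤ 2 ^ (2 * p + 1) * (2 ^ (p + 1) * C₀ + 1) * α := by
  have hp0 : 0 < p := by linarith
  have hsR : (0 : ℝ) < s := by exact_mod_cast hs0
  have hLR : (0 : ℝ) < L := by exact_mod_cast hL0
  set N : ℝ := ((Fintype.card ι : ℕ) : ℝ) with hN
  set f := smooth s F with hf
  have hcardB : (0 : ℝ) < Fintype.card ℬ := by exact_mod_cast Fintype.card_pos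
  have hcardA : (0 : ℝ) < Fintype.card 𝒜 := by exact_mod_cast Fintype.card_pos
  -- step 1: lower bound for large displacements of the smoothed map
  have step1 : ∀ i, ∀ x ∈ box ι M (L * R + (R + s)),
      (L : ℝ) ^ p * (β * 2⁻¹ ^ p) ≤ ‖f (x + L • b i) - f x‖ ^ p := by
    intro i x hx
    have hx' : x ∈ box ι M (L * R) := box_mono (by omega) hx
    have h1 := hB i x hx'
    have h2 : (L : ℝ) * β ^ (1 / p) ≤ ‖F (x + L • b i) - F x‖ := by
      rw [← Real.rpow_le_rpow_iff (by positivity) (norm_nonneg _) hp0]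
      refine le_trans (le_of_eq ?_) h1
      rw [Real.mul_rpow hLR.le (by positivity), ← Real.rpow_mul hβ, one_div_mul_cancel hp0.ne',
        Real.rpow_one]
    have h3 : ‖F (x + L • b i) - F x‖ ≤ ‖f (x + L • b i) - f x‖ + 2 * (N * s) := by
      have e : F (x + L • b i) - F x = (f (x + L • b i) - f x) -
          (f (x + L • b i) - F (x + L • b i)) + (f x - F x) := by abel
      rw [e]
      refine (norm_add_le _ _).trans ?_
      have h4 := norm_sub_le (f (x + L • b i) - f x) (f (x + L • b i) - F (x + L • b i))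
      have h5 := norm_smooth_sub_self_le hs0 hF (x + L • b i)
      have h6 := norm_smooth_sub_self_le hs0 hF x
      rw [← hf] at h5 h6
      linarith
    have h4 : (L : ℝ) * β ^ (1 / p) * 2⁻¹ ≤ ‖f (x + L • b i) - f x‖ := by
      have : 4 * N * s ≤ L * β ^ (1 / p) := hL
      linarith
    calc (L : ℝ) ^ p * (β * 2⁻¹ ^ p) = ((L : ℝ) * β ^ (1 / p) * 2⁻¹) ^ p := by
          rw [Real.mul_rpow (by positivity) (by norm_num), Real.mul_rpow hLR.le (by positivity),
            ← Real.rpow_mul hβ, one_div_mul_cancel hp0.ne', Real.rpow_one]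
          ring
      _ ≤ _ := Real.rpow_le_rpow (by positivity) h4 hp0.le
  -- step 2: passage to small displacements
  have step2 : ∀ i, (box ι M (L * R + (R + s))).card * (β * 2⁻¹ ^ p) ≤
      ∑ y ∈ box ι M (R + s), ‖f (y + b i) - f y‖ ^ p := by
    intro i
    have h1 : (box ι M (L * R + (R + s))).card * ((L : ℝ) ^ p * (β * 2⁻¹ ^ p)) ≤
        (L : ℝ) ^ p * ∑ y ∈ box ι M (R + s), ‖f (y + b i) - f y‖ ^ p := by
      calc (box ι M (L * R + (R + s))).card * ((L : ℝ) ^ p * (β * 2⁻¹ ^ p))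
          = ∑ x ∈ box ι M (L * R + (R + s)), (L : ℝ) ^ p * (β * 2⁻¹ ^ p) := by
            rw [Finset.sum_const, nsmul_eq_mul]
        _ ≤ ∑ x ∈ box ι M (L * R + (R + s)), (L : ℝ) ^ (p - 1) * ∑ l ∈ range L,
              ‖f (x + l • b i + b i) - f (x + l • b i)‖ ^ p :=
            Finset.sum_le_sum fun x hx =>
              (step1 i x hx).trans (norm_telescope_rpow_le hp f x (b i) L)
        _ = (L : ℝ) ^ (p - 1) * ∑ l ∈ range L, ∑ x ∈ box ι M (L * R + (R + s)),
              ‖f (x + l • b i + b i) - f (x + l • b i)‖ ^ p := by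
            rw [← Finset.mul_sum, Finset.sum_comm]
        _ ≤ (L : ℝ) ^ (p - 1) * ∑ l ∈ range L, ∑ y ∈ box ι M (R + s),
              ‖f (y + b i) - f y‖ ^ p := by
            gcongr with l hl
            refine sum_box_shift_le (g := fun y => ‖f (y + b i) - f y‖ ^ p)
              (fun y => by positivity) fun c => ?_
            simp only [Pi.smul_apply, nsmul_eq_mul, abs_mul, Nat.abs_cast]
            push_cast
            have hl' : (l : ℤ) ≤ L := by exact_mod_cast (Finset.mem_range.1 hl).le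
            exact mul_le_mul hl' (hb i c) (abs_nonneg _) (by positivity)
        _ = (L : ℝ) ^ p * ∑ y ∈ box ι M (R + s), ‖f (y + b i) - f y‖ ^ p := by
            rw [Finset.sum_const, Finset.card_range, nsmul_eq_mul, ← mul_assoc]
            congr 1
            rw [Real.rpow_sub hLR, Real.rpow_one]
            field_simp
    have hLp : (0 : ℝ) < (L : ℝ) ^ p := by positivity
    have h2 : (L : ℝ) ^ p * ((box ι M (L * R + (R + s))).card * (β * 2⁻¹ ^ p)) ≤
        (L : ℝ) ^ p * ∑ y ∈ box ι M (R + s), ‖f (y + b i) - f y‖ ^ p := by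
      refine le_trans (le_of_eq ?_) h1
      ring
    exact le_of_mul_le_mul_left h2 hLp
  -- step 3: linearization
  have hlin : ∀ (y w : ι → ℤ), (∀ c, |w c| ≤ R) →
      ‖f (y + w) - f y - ∑ c, (w c : ℝ) • (f (y + Pi.single c 1) - f y)‖ ≤ 1 := by
    intro y w hw
    have hsum : ∑ c, |(w c : ℝ)| ≤ N * R := by
      calc ∑ c, |(w c : ℝ)| ≤ ∑ _c : ι, (R : ℝ) := by
            refine Finset.sum_le_sum fun c _ => ?_
            have := hw c
            exact_mod_cast this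
        _ = N * R := by simp [hN]
    refine (norm_smooth_linear_le hs0 hF y w hsum).trans ?_
    have : (2 : ℝ) * (N * R) ^ 2 ≤ s := by
      rw [hN]
      exact_mod_cast hs
    rw [div_mul_eq_mul_div, div_le_one hsR]
    exact this
  have step3 : ∀ y ∈ box ι M (R + s),
      (∑ i, ‖f (y + b i) - f y‖ ^ p) / Fintype.card ℬ ≤ 2 ^ p * (2 ^ (p + 1) * C₀ + 1) * α := by
    intro y hy
    set v : ι → E := fun c => f (y + Pi.single c 1) - f y with hv
    have hone : ∀ u : E, ‖u‖ ≤ 1 → ‖u‖ ^ p ≤ 1 := fun u hu =>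
      Real.rpow_le_one (norm_nonneg _) hu hp0.le
    have hb1 : ∀ i, ‖f (y + b i) - f y‖ ^ p ≤ 2 ^ p * (‖∑ c, (b i c : ℝ) • v c‖ ^ p + 1) := by
      intro i
      have e : f (y + b i) - f y = (∑ c, (b i c : ℝ) • v c) +
          (f (y + b i) - f y - ∑ c, (b i c : ℝ) • v c) := by abel
      rw [e]
      refine (norm_add_rpow_le hp0.le _ _).trans ?_
      gcongr
      refine hone _ ?_
      exact hlin y (b i) (hb i)
    have ha1 : ∀ i, ‖∑ c, (a i c : ℝ) • v c‖ ^ p ≤ 2 ^ p * (α + 1) := by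
      intro i
      have e : ∑ c, (a i c : ℝ) • v c = (f (y + a i) - f y) +
          -(f (y + a i) - f y - ∑ c, (a i c : ℝ) • v c) := by abel
      rw [e]
      refine (norm_add_rpow_le hp0.le _ _).trans ?_
      gcongr
      · have h1 : ‖f (y + a i) - f y‖ ≤ α ^ (1 / p) := by
          rw [hf, smooth_sub]
          refine norm_average_le hs0 fun z hz => ?_
          rw [← Real.rpow_le_rpow_iff (norm_nonneg _) (by positivity) hp0,
            ← Real.rpow_mul (by linarith), one_div_mul_cancel hp0.ne', Real.rpow_one]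
          refine hA i (y + z) ?_
          have hy' : y ∈ box ι M (s + R) := by rwa [add_comm]
          refine add_mem_box hy' fun c => ?_
          obtain ⟨h1, h2⟩ := mem_cube.1 hz c
          rw [abs_of_nonneg h1]
          exact h2.le
        calc ‖f (y + a i) - f y‖ ^ p ≤ (α ^ (1 / p)) ^ p :=
              Real.rpow_le_rpow (norm_nonneg _) h1 hp0.le
          _ = α := by
              rw [← Real.rpow_mul (by linarith), one_div_mul_cancel hp0.ne', Real.rpow_one]
      · rw [norm_neg]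
        refine hone _ ?_
        exact hlin y (a i) (ha i)
    have hK' := hK v
    have hAvg : (∑ i, ‖∑ c, (a i c : ℝ) • v c‖ ^ p) / Fintype.card 𝒜 ≤ 2 ^ p * (α + 1) := by
      rw [div_le_iff₀ hcardA]
      refine (Finset.sum_le_sum fun i _ => ha1 i).trans ?_
      rw [Finset.sum_const, nsmul_eq_mul, Finset.card_univ, mul_comm]
    calc (∑ i, ‖f (y + b i) - f y‖ ^ p) / Fintype.card ℬ
        ≤ (∑ i, 2 ^ p * (‖∑ c, (b i c : ℝ) • v c‖ ^ p + 1)) / Fintype.card ℬ := by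
          gcongr with i _
          exact hb1 i
      _ = 2 ^ p * ((∑ i, ‖∑ c, (b i c : ℝ) • v c‖ ^ p) / Fintype.card ℬ + 1) := by
          rw [← Finset.mul_sum, Finset.sum_add_distrib, Finset.sum_const, nsmul_eq_mul,
            Finset.card_univ, mul_one, mul_div_assoc, add_div, div_self hcardB.ne']
      _ ≤ 2 ^ p * (C₀ * (2 ^ p * (α + 1)) + 1) := by
          gcongr
          exact hK'.trans (by gcongr)
      _ ≤ 2 ^ p * (C₀ * (2 ^ p * (α + α)) + α) := by gcongr
      _ = 2 ^ p * (2 ^ (p + 1) * C₀ + 1) * α := by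
          rw [Real.rpow_add (by norm_num), Real.rpow_one]
          ring
  -- step 4: conclusion
  set m1 : ℝ := (((box ι M (L * R + (R + s))).card : ℕ) : ℝ) with hm1
  have hm1pos : 0 < m1 := by rw [hm1]; exact_mod_cast hM0
  have h1 : m1 * (β * 2⁻¹ ^ p) ≤
      (∑ i, ∑ y ∈ box ι M (R + s), ‖f (y + b i) - f y‖ ^ p) / Fintype.card ℬ := by
    rw [le_div_iff₀ hcardB]
    calc m1 * (β * 2⁻¹ ^ p) * Fintype.card ℬ = ∑ _i : ℬ, m1 * (β * 2⁻¹ ^ p) := by
          rw [Finset.sum_const, nsmul_eq_mul, Finset.card_univ, mul_comm]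
      _ ≤ _ := Finset.sum_le_sum fun i _ => step2 i
  have h2 : (∑ i, ∑ y ∈ box ι M (R + s), ‖f (y + b i) - f y‖ ^ p) / Fintype.card ℬ ≤
      (box ι M (R + s)).card * (2 ^ p * (2 ^ (p + 1) * C₀ + 1) * α) := by
    rw [Finset.sum_comm, Finset.sum_div]
    refine (Finset.sum_le_sum step3).trans ?_
    rw [Finset.sum_const, nsmul_eq_mul]
  have h3 : ((box ι M (R + s)).card : ℝ) ≤ 2 * m1 := by rw [hm1]; exact_mod_cast hM
  have h4 : m1 * (β * 2⁻¹ ^ p) ≤ m1 * (2 * (2 ^ p * (2 ^ (p + 1) * C₀ + 1) * α)) := by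
    refine (h1.trans h2).trans ?_
    calc _ ≤ 2 * m1 * (2 ^ p * (2 ^ (p + 1) * C₀ + 1) * α) := by gcongr
      _ = _ := by ring
  have h5 := le_of_mul_le_mul_left h4 hm1pos
  have h6 : (2 : ℝ)⁻¹ ^ p * 2 ^ p = 1 := by
    rw [← Real.mul_rpow (by norm_num) (by norm_num)]
    norm_num
  calc β = β * 2⁻¹ ^ p * 2 ^ p := by rw [mul_assoc, h6, mul_one]
    _ ≤ 2 * (2 ^ p * (2 ^ (p + 1) * C₀ + 1) * α) * 2 ^ p := by gcongr
    _ = (2 ^ p * 2 ^ p * 2) * (2 ^ (p + 1) * C₀ + 1) * α := by ring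
    _ = 2 ^ (2 * p + 1) * (2 ^ (p + 1) * C₀ + 1) * α := by
        rw [← Real.rpow_add (by norm_num), ← two_mul, Real.rpow_add (by norm_num) (2 * p) 1,
          Real.rpow_one]

end Pool.Agent.Lib.MP_ec05f5_lc
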