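import Mathlib

/-!
# Generic sub-products

`Sub B z` is the set of all points of a product of finite sets which agree with `z` outside the
set of coordinates `B`. For generic `(B, z)`, the whole compact set `Sub B z` lies in a given
comeagre set.
-/

set_option autoImplicit false

namespace Pool.Agent.Lib.MP_ec05f5_lc

open Set Filter Topology

variable {I : Type*} {F : I → Type*}

/-- The points which agree with `z` outside the set of free coordinates `B`. -/
def Sub (B : I → Bool) (z : ∀ i, F i) : Set (∀ i, F i) := {x | ∀ i, B i = false → x i = z i}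

theorem self_mem_Sub (B : I → Bool) (z : ∀ i, F i) : z ∈ Sub B z := fun _ _ => rfl

/-- `splice S r z` is `r` on `S` and `z` elsewhere. -/
def splice [DecidableEq I] (S : Finset I) (r : ∀ i : S, F i) (z : ∀ i, F i) : ∀ i, F i :=
  fun i => if h : i ∈ S then r ⟨i, h⟩ else z i

variable [∀ i, TopologicalSpace (F i)]

theorem exists_finset_of_mem_open {U : Set (∀ i, F i)} (hU : IsOpen U) {x : ∀ i, F i}
    (hx : x ∈ U) : ∃ S : Finset I, ∀ y : ∀ i, F i, (∀ i ∈ S, y i = x i) → y ∈ U := by
  obtain ⟨S, u, h1, h2⟩ := isOpen_pi_iff.1 hU x hx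
  refine ⟨S, fun y hy => h2 ?_⟩
  intro i hi
  rw [hy i hi]
  exact (h1 i hi).2

variable [∀ i, DiscreteTopology (F i)]

theorem isOpen_cylinder (S : Finset I) (x : ∀ i, F i) :
    IsOpen {y : ∀ i, F i | ∀ i ∈ S, y i = x i} := by
  have : {y : ∀ i, F i | ∀ i ∈ S, y i = x i} = ⋂ i ∈ S, {y : ∀ i, F i | y i = x i} := by
    ext y; simp
  rw [this]
  refine isOpen_biInter_finset fun i _ => ?_
  exact (isOpen_discrete ({x i} : Set (F i))).preimage (continuous_apply i)

section

variable [DecidableEq I]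

omit [∀ i, DiscreteTopology (F i)] in
theorem continuous_splice (S : Finset I) (r : ∀ i : S, F i) :
    Continuous (fun z : ∀ i, F i => splice S r z) := by
  refine continuous_pi fun i => ?_
  by_cases h : i ∈ S
  · simp only [splice, h, dif_pos]
    exact continuous_const
  · simp only [splice, h, dif_neg, not_false_iff]
    exact continuous_apply i

theorem dense_splice {U : Set (∀ i, F i)} (hd : Dense U) (S : Finset I)
    (r : ∀ i : S, F i) : Dense {z : ∀ i, F i | splice S r z ∈ U} := by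
  rw [dense_iff_inter_open]
  rintro V hV ⟨z0, hz0⟩
  obtain ⟨S', hS'⟩ := exists_finset_of_mem_open hV hz0
  obtain ⟨w, hw1, hw2⟩ := hd.inter_open_nonempty _ (isOpen_cylinder (S ∪ S') (splice S r z0))
    ⟨splice S r z0, fun _ _ => rfl⟩
  refine ⟨fun i => if i ∈ S then z0 i else w i, hS' _ ?_, ?_⟩
  · intro i hi
    by_cases h : i ∈ S
    · simp [h]
    · have := hw1 i (Finset.mem_union_right _ hi)
      simpa [splice, h] using this
  · have : splice S r (fun i => if i ∈ S then z0 i else w i) = w := by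
      funext i
      by_cases h : i ∈ S
      · have := hw1 i (Finset.mem_union_left _ h)
        simp only [splice, h, dif_pos] at this ⊢
        exact this.symm
      · simp [splice, h]
    rw [mem_ofPred_eq, this]
    exact hw2

end

variable [∀ i, Finite (F i)]

theorem isOpen_sub_subset {U : Set (∀ i, F i)} (hU : IsOpen U) :
    IsOpen {p : (I → Bool) × (∀ i, F i) | Sub p.1 p.2 ⊆ U} := by
  have hc : IsClosed {q : ((I → Bool) × (∀ i, F i)) × (∀ i, F i) |
      q.2 ∈ Sub q.1.1 q.1.2 ∧ q.2 ∉ U} := by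
    have : {q : ((I → Bool) × (∀ i, F i)) × (∀ i, F i) | q.2 ∈ Sub q.1.1 q.1.2 ∧ q.2 ∉ U} =
        (⋂ i, ({q | q.1.1 i = true} ∪ {q | q.2 i = q.1.2 i})) ∩ {q | q.2 ∈ Uᶜ} := by
      ext q
      simp only [Sub, mem_ofPred_eq, mem_inter_iff, mem_iInter, mem_union, mem_compl_iff]
      refine and_congr (forall_congr' fun i => ?_) Iff.rfl
      cases q.1.1 i <;> simp
    rw [this]
    refine IsClosed.inter (isClosed_iInter fun i => IsClosed.union ?_ ?_) ?_
    · exact isClosed_eq (by fun_prop) continuous_const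
    · exact isClosed_eq (by fun_prop) (by fun_prop)
    · exact hU.isClosed_compl.preimage continuous_snd
  have himg := isClosedMap_fst_of_compactSpace (X := (I → Bool) × (∀ i, F i))
    (Y := ∀ i, F i) _ hc
  have : {p : (I → Bool) × (∀ i, F i) | Sub p.1 p.2 ⊆ U} = (Prod.fst ''
      {q : ((I → Bool) × (∀ i, F i)) × (∀ i, F i) | q.2 ∈ Sub q.1.1 q.1.2 ∧ q.2 ∉ U})ᶜ := by
    ext p
    simp only [mem_ofPred_eq, mem_compl_iff, mem_image, Prod.exists, exists_and_right,
      exists_eq_right, not_exists, not_and, not_not]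
    rfl
  rw [this]
  exact himg.isOpen_compl

theorem dense_sub_subset {U : Set (∀ i, F i)} (hU : IsOpen U) (hd : Dense U) :
    Dense {p : (I → Bool) × (∀ i, F i) | Sub p.1 p.2 ⊆ U} := by
  classical
  rw [dense_iff_inter_open]
  rintro V hV ⟨⟨B0, z0⟩, h0⟩
  obtain ⟨V1, V2, hV1, hV2, hB0, hz0, hsub⟩ := isOpen_prod_iff.1 hV B0 z0 h0
  obtain ⟨S1, hS1⟩ := exists_finset_of_mem_open hV1 hB0
  obtain ⟨S2, hS2⟩ := exists_finset_of_mem_open hV2 hz0
  have hdense : Dense (⋂ r : (∀ i : (S1 : Finset I), F i),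
      {z : ∀ i, F i | splice S1 r z ∈ U}) :=
    dense_iInter_of_isOpen (fun r => hU.preimage (continuous_splice S1 r))
      (fun r => dense_splice hd S1 r)
  obtain ⟨z, hz1, hz2⟩ := hdense.inter_open_nonempty _ (isOpen_cylinder S2 z0)
    ⟨z0, fun _ _ => rfl⟩
  refine ⟨⟨fun i => if i ∈ S1 then B0 i else false, z⟩, hsub ⟨hS1 _ ?_, hS2 _ hz1⟩, ?_⟩
  · intro i hi; simp [hi]
  · intro x hx
    rw [mem_iInter] at hz2
    have h := hz2 (fun i => x i)
    have e : splice S1 (fun i : S1 => x i) z = x := by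
      funext i
      by_cases h : i ∈ S1
      · simp [splice, h]
      · simp only [splice, h, dif_neg, not_false_iff]
        exact (hx i (by simp [h])).symm
    rw [mem_ofPred_eq, e] at h
    exact h

theorem residual_sub_subset {C : Set (∀ i, F i)} (hC : C ∈ residual (∀ i, F i)) :
    {p : (I → Bool) × (∀ i, F i) | Sub p.1 p.2 ⊆ C} ∈ residual ((I → Bool) × (∀ i, F i)) := by
  obtain ⟨S, h1, h2, h3, h4⟩ := mem_residual_iff.1 hC
  have : (⋂ U ∈ S, {p : (I → Bool) × (∀ i, F i) | Sub p.1 p.2 ⊆ U}) ∈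
      residual ((I → Bool) × (∀ i, F i)) := by
    refine (countable_bInter_mem h3).2 fun U hU => ?_
    exact residual_of_dense_open (isOpen_sub_subset (h1 U hU)) (dense_sub_subset (h1 U hU) (h2 U hU))
  refine mem_of_superset this fun p hp => ?_
  simp only [mem_iInter, mem_ofPred_eq] at hp
  exact fun x hx => h4 (mem_sInter.2 fun U hU => hp U hU hx)

theorem residual_exists_free [∀ i, Nonempty (F i)] {J : Set I} (hJ : J.Infinite)
    (S : Finset I) :
    {p : (I → Bool) × (∀ i, F i) | ∃ i ∈ J, i ∉ S ∧ p.1 i = true} ∈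
      residual ((I → Bool) × (∀ i, F i)) := by
  classical
  refine residual_of_dense_open ?_ ?_
  · have : {p : (I → Bool) × (∀ i, F i) | ∃ i ∈ J, i ∉ S ∧ p.1 i = true} =
        ⋃ i ∈ {i | i ∈ J ∧ i ∉ S}, {p | p.1 i = true} := by
      ext p; simp [and_assoc]
    rw [this]
    refine isOpen_biUnion fun i _ => ?_
    exact (isOpen_discrete ({true} : Set Bool)).preimage (by fun_prop)
  · rw [dense_iff_inter_open]
    rintro V hV ⟨⟨B0, z0⟩, h0⟩
    obtain ⟨V1, V2, hV1, hV2, hB0, hz0, hsub⟩ := isOpen_prod_iff.1 hV B0 z0 h0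
    obtain ⟨S1, hS1⟩ := exists_finset_of_mem_open hV1 hB0
    obtain ⟨i, hi, hiS⟩ := hJ.exists_notMem_finset (S ∪ S1)
    simp only [Finset.mem_union, not_or] at hiS
    refine ⟨⟨Function.update B0 i true, z0⟩, hsub ⟨hS1 _ ?_, hz0⟩, i, hi, hiS.1, by simp⟩
    intro j hj
    change Function.update B0 i true j = B0 j
    rw [Function.update_of_ne]
    rintro rfl
    exact hiS.2 hj

end Pool.Agent.Lib.MP_ec05f5_lc
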