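import Pool.Agent.Lib.MP_ec05f5_lc.Khinchine

/-!
# Rank one sign matrices against signed shifts, for linear functionals and for maps to `ℓ^p`
-/

set_option autoImplicit false

namespace Pool.Agent.Lib.MP_ec05f5_lc

open Finset

variable {κ : Type} [Fintype κ] [DecidableEq κ]

/-- The matrix `v v'ᵀ` for two sign vectors. -/
def rankOne (ω : (κ → Bool) × (κ → Bool)) (c : κ × κ) : ℤ := sg (ω.1 c.1) * sg (ω.2 c.2)

/-- `R` times a signed shift. -/
def flat [Add κ] (R : ℕ) (ω : κ × (κ → Bool)) (c : κ × κ) : ℤ :=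
  if c.2 = c.1 + ω.1 then R * sg (ω.2 c.1) else 0

omit [Fintype κ] [DecidableEq κ] in
theorem abs_rankOne_le (ω : (κ → Bool) × (κ → Bool)) (c : κ × κ) : |rankOne ω c| ≤ 1 := by
  simp [rankOne, abs_mul, abs_sg]

omit [Fintype κ] in
theorem abs_flat_le [Add κ] (R : ℕ) (ω : κ × (κ → Bool)) (c : κ × κ) : |flat R ω c| ≤ R := by
  unfold flat
  split_ifs
  · simp [abs_mul, abs_sg]
  · simp

theorem sum_flat [Add κ] (R : ℕ) (g : κ × κ → ℝ) (ω : κ × (κ → Bool)) :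
    ∑ c : κ × κ, (flat R ω c : ℝ) * g c = ∑ i, (sg (ω.2 i) : ℝ) * (R * g (i, i + ω.1)) := by
  rw [Fintype.sum_prod_type]
  refine Finset.sum_congr rfl fun i _ => ?_
  rw [Finset.sum_eq_single (i + ω.1)]
  · simp only [flat, if_true]
    push_cast
    ring
  · intro j _ hj
    simp [flat, hj]
  · intro h
    exact absurd (Finset.mem_univ _) h

theorem avg_flat_sq [AddGroup κ] {R : ℕ} (hR : Fintype.card κ = R ^ 2) (g : κ × κ → ℝ) :
    avg (fun ω : κ × (κ → Bool) => (∑ c : κ × κ, (flat R ω c : ℝ) * g c) ^ 2) =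
      ∑ c, g c ^ 2 := by
  rw [avg_prod]
  simp only [sum_flat]
  have h1 : ∀ τ : κ, avg (fun ε : κ → Bool => (∑ i, (sg (ε i) : ℝ) * (R * g (i, i + τ))) ^ 2) =
      ∑ i, (R * g (i, i + τ)) ^ 2 := fun τ => avg_sq _
  simp only [h1]
  unfold avg
  rw [Finset.sum_comm, Fintype.sum_prod_type, Finset.sum_div]
  refine Finset.sum_congr rfl fun i _ => ?_
  have h2 : ∑ τ : κ, ((R : ℝ) * g (i, i + τ)) ^ 2 = (R : ℝ) ^ 2 * ∑ j, g (i, j) ^ 2 := by
    rw [Finset.mul_sum]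
    refine Fintype.sum_equiv (Equiv.addLeft i) _ _ fun τ => ?_
    simp only [Equiv.coe_addLeft]
    ring
  rw [h2, hR]
  push_cast
  have hR0 : (R : ℝ) ^ 2 ≠ 0 := by
    have : 0 < Fintype.card κ := Fintype.card_pos_iff.2 ⟨i⟩
    rw [hR] at this
    exact_mod_cast this.ne'
  rw [mul_div_assoc, mul_div_cancel₀ _ hR0]

/-- For `p ≥ 2` rank one sign matrices are dominated by signed shifts. -/
theorem exists_rankOne_le_flat (p : ℝ) (hp : 2 ≤ p) : ∃ C : ℝ, 0 < C ∧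
    ∀ (κ : Type) [Fintype κ] [DecidableEq κ] [AddGroup κ] (R : ℕ), Fintype.card κ = R ^ 2 →
    ∀ g : κ × κ → ℝ,
    avg (fun ω : (κ → Bool) × (κ → Bool) => |∑ c, (rankOne ω c : ℝ) * g c| ^ p) ≤
      C * avg (fun ω : κ × (κ → Bool) => |∑ c, (flat R ω c : ℝ) * g c| ^ p) := by
  obtain ⟨C, hC, h⟩ := exists_chaos p hp
  refine ⟨C, hC, fun κ _ _ _ R hR g => (h κ g).trans ?_⟩
  gcongr
  rw [← avg_flat_sq hR g]
  have : Nonempty κ := ⟨0⟩
  refine (avg_rpow_le (fun ω => sq_nonneg _) (by linarith)).trans (le_of_eq ?_)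
  congr 1
  funext ω
  rw [← sq_abs, ← Real.rpow_natCast, ← Real.rpow_mul (abs_nonneg _)]
  congr 1
  push_cast
  ring

/-- For `p ≤ 2` signed shifts are dominated by rank one sign matrices. -/
theorem exists_flat_le_rankOne (p : ℝ) (hp : 0 < p) (hp2 : p ≤ 2) : ∃ C : ℝ, 0 < C ∧
    ∀ (κ : Type) [Fintype κ] [DecidableEq κ] [AddGroup κ] (R : ℕ), Fintype.card κ = R ^ 2 →
    ∀ g : κ × κ → ℝ,
    avg (fun ω : κ × (κ → Bool) => |∑ c, (flat R ω c : ℝ) * g c| ^ p) ≤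
      C * avg (fun ω : (κ → Bool) × (κ → Bool) => |∑ c, (rankOne ω c : ℝ) * g c| ^ p) := by
  obtain ⟨C, hC, h⟩ := exists_chaos_lower p hp hp2
  refine ⟨C, hC, fun κ _ _ _ R hR g => le_trans ?_ (h κ g)⟩
  have : Nonempty κ := ⟨0⟩
  rw [← avg_flat_sq hR g]
  set Y : κ × (κ → Bool) → ℝ := fun ω => ∑ c, (flat R ω c : ℝ) * g c with hY
  have h1 := avg_rpow_le (f := fun ω => |Y ω| ^ p) (fun ω => by positivity)
    (r := 2 / p) (by rw [le_div_iff₀ hp]; linarith)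
  have h2 : (fun ω => (|Y ω| ^ p) ^ (2 / p)) = fun ω => Y ω ^ 2 := by
    funext ω
    rw [← Real.rpow_mul (abs_nonneg _), mul_div_cancel₀ _ hp.ne', ← sq_abs, ← Real.rpow_natCast]
    norm_num
  rw [h2] at h1
  have h0 : 0 ≤ avg fun ω => |Y ω| ^ p := avg_nonneg fun ω => by positivity
  calc avg (fun ω => |Y ω| ^ p) = (avg (fun ω => |Y ω| ^ p) ^ (2 / p)) ^ (p / 2) := by
        rw [← Real.rpow_mul h0]
        have : 2 / p * (p / 2) = 1 := by field_simp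
        rw [this, Real.rpow_one]
    _ ≤ _ := Real.rpow_le_rpow (by positivity) h1 (by positivity)

/-- Inequalities between averages of `p`-th powers of linear functionals hold for linear maps
to `ℓ^p`. -/
theorem avg_PiLp_le {p : ℝ} (hp : 1 ≤ p) [Fact (1 ≤ ENNReal.ofReal p)] {ι Ω Ω' W : Type*}
    [Fintype ι] [Fintype Ω] [Fintype Ω'] [Fintype W] {b : Ω → ι → ℤ} {a : Ω' → ι → ℤ} {C : ℝ}
    (h : ∀ g : ι → ℝ, avg (fun ω => |∑ c, (b ω c : ℝ) * g c| ^ p) ≤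
      C * avg (fun ω => |∑ c, (a ω c : ℝ) * g c| ^ p))
    (v : ι → PiLp (ENNReal.ofReal p) (fun _ : W => ℝ)) :
    avg (fun ω => ‖∑ c, (b ω c : ℝ) • v c‖ ^ p) ≤
      C * avg (fun ω => ‖∑ c, (a ω c : ℝ) • v c‖ ^ p) := by
  have hpr : (ENNReal.ofReal p).toReal = p := ENNReal.toReal_ofReal (by linarith)
  have hn : ∀ w : PiLp (ENNReal.ofReal p) (fun _ : W => ℝ), ‖w‖ ^ p = ∑ j, |w j| ^ p := by
    intro w
    rw [PiLp.norm_eq_sum (by rw [hpr]; linarith), hpr, ← Real.rpow_mul, one_div_mul_cancel,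
      Real.rpow_one]
    · simp
    · linarith
    · exact Finset.sum_nonneg fun j _ => by positivity
  have e : ∀ (d : ι → ℤ) (j : W), (∑ c, (d c : ℝ) • v c) j = ∑ c, (d c : ℝ) * v c j := by
    intro d j
    simp
  simp only [hn, e]
  rw [avg_sum, avg_sum, Finset.mul_sum]
  exact Finset.sum_le_sum fun j _ => h fun c => v c j

end Pool.Agent.Lib.MP_ec05f5_lc
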