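import Pool.Agent.Lib.MP_ec05f5_lc.Displacement
import Pool.Agent.Lib.MP_ec05f5_lc.PropertyAlpha

/-!
# Maps from grids to `ℓ^p`
-/

set_option autoImplicit false

namespace Pool.Agent.Lib.MP_ec05f5_lc

open Finset

section

variable {ι : Type*} [Fintype ι] [DecidableEq ι]

theorem card_box {M m : ℕ} (h : 2 * m ≤ M) : (box ι M m).card = (M - 2 * m) ^ Fintype.card ι := by
  have : ((M : ℤ) - m - m).toNat = M - 2 * m := by omega
  simp [box, Fintype.card_piFinset, this]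

/-- Large boxes have small boundary layers. -/
theorem exists_box_card (m m' : ℕ) : ∃ M : ℕ,
    (box ι (M + 1) m).card ≤ 2 * (box ι (M + 1) (m' + m)).card ∧
    0 < (box ι (M + 1) (m' + m)).card := by
  set N := Fintype.card ι with hN
  set S := 4 * m' * (N + 1) + 1 with hS
  refine ⟨2 * m + S - 1, ?_⟩
  have hM : 2 * m + S - 1 + 1 = 2 * m + S := by omega
  have hS2 : 2 * m' < S := by
    rw [hS]
    nlinarith [Nat.zero_le m', Nat.zero_le N, Nat.zero_le (m' * N)]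
  rw [hM, card_box (by omega), card_box (by omega)]
  have e1 : 2 * m + S - 2 * m = S := by omega
  have e2 : 2 * m + S - 2 * (m' + m) = S - 2 * m' := by omega
  rw [e1, e2, ← hN]
  have hpos : 0 < (S - 2 * m') ^ N := pow_pos (by omega) _
  refine ⟨?_, hpos⟩
  have hSr : (0 : ℝ) < S := by rw [hS]; positivity
  have hcast : ((S - 2 * m' : ℕ) : ℝ) = S - 2 * m' := by
    rw [Nat.cast_sub hS2.le]; push_cast; ring
  have hb : (1 : ℝ) + N * (-(2 * m' / S)) ≤ (1 + -(2 * m' / S)) ^ N := by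
    refine one_add_mul_le_pow ?_ N
    have : (2 * m' / S : ℝ) ≤ 1 := by
      rw [div_le_one hSr]
      exact_mod_cast hS2.le
    linarith
  have h1 : (1 / 2 : ℝ) ≤ 1 + N * (-(2 * m' / S)) := by
    have : N * (2 * m' / S : ℝ) ≤ 1 / 2 := by
      rw [mul_div_assoc', div_le_iff₀ hSr, hS]
      push_cast
      nlinarith [(Nat.cast_nonneg m' : (0 : ℝ) ≤ m'), (Nat.cast_nonneg N : (0 : ℝ) ≤ N)]
    linarith
  have h2 : (1 / 2 : ℝ) * (S : ℝ) ^ N ≤ ((S - 2 * m' : ℕ) : ℝ) ^ N := by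
    calc (1 / 2 : ℝ) * (S : ℝ) ^ N ≤ (1 + -(2 * m' / S)) ^ N * (S : ℝ) ^ N := by
          gcongr
          exact h1.trans hb
      _ = ((S - 2 * m' : ℕ) : ℝ) ^ N := by
          rw [← mul_pow, hcast]
          congr 1
          field_simp
          ring
  have h3 : ((S ^ N : ℕ) : ℝ) ≤ ((2 * (S - 2 * m') ^ N : ℕ) : ℝ) := by
    push_cast
    linarith
  exact_mod_cast h3

/-- Clamping of an integer vector to the grid. -/
def clamp (M : ℕ) (x : ι → ℤ) : ι → Fin (M + 1) :=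
  fun c => ⟨(min (x c) M).toNat, by omega⟩

omit [Fintype ι] [DecidableEq ι] in
theorem clamp_val (M : ℕ) (x : ι → ℤ) (c : ι) :
    ((clamp M x c : ℕ) : ℤ) = max 0 (min (x c) M) := by
  simp only [clamp]
  omega

theorem clamp_of_mem_box {M m : ℕ} {x : ι → ℤ} (hx : x ∈ box ι (M + 1) m) (c : ι) :
    ((clamp M x c : ℕ) : ℤ) = x c := by
  rw [clamp_val]
  have := mem_box.1 hx c
  push_cast at this
  omega

omit [Fintype ι] in
theorem clamp_add_single (M : ℕ) (x : ι → ℤ) (c : ι) :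
    clamp M (x + Pi.single c 1) = clamp M x ∨
    ∀ c', ((clamp M (x + Pi.single c 1) c' : ℕ) : ℤ) =
      (clamp M x c' : ℕ) + (Pi.single c 1 : ι → ℤ) c' := by
  by_cases h : 0 ≤ x c ∧ x c < M
  · right
    intro c'
    rw [clamp_val, clamp_val, Pi.add_apply]
    by_cases hc : c' = c
    · subst hc
      rw [Pi.single_eq_same]
      omega
    · rw [Pi.single_eq_of_ne hc]
      omega
  · left
    funext c'
    apply Fin.ext
    have : ((clamp M (x + Pi.single c 1) c' : ℕ) : ℤ) = ((clamp M x c' : ℕ) : ℤ) := by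
      rw [clamp_val, clamp_val, Pi.add_apply]
      by_cases hc : c' = c
      · subst hc
        rw [Pi.single_eq_same]
        omega
      · rw [Pi.single_eq_of_ne hc]
        omega
    exact_mod_cast this

/-- The general obstruction. -/
theorem grid_obstruction {p : ℝ} (hp : 1 ≤ p) {𝒜 ℬ : Type*} [Fintype 𝒜] [Fintype ℬ]
    [Nonempty 𝒜] [Nonempty ℬ] {a : 𝒜 → ι → ℤ} {b : ℬ → ι → ℤ} {R s L M : ℕ} (hs0 : 0 < s)
    (hL0 : 0 < L) (ha : ∀ i c, |a i c| ≤ R) (hb : ∀ i c, |b i c| ≤ R) {C₀ : ℝ} (hC₀ : 0 ≤ C₀)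
    (hK : ∀ g : ι → ℝ, avg (fun i => |∑ c, (b i c : ℝ) * g c| ^ p) ≤
      C₀ * avg (fun i => |∑ c, (a i c : ℝ) * g c| ^ p))
    (hs : 2 * (Fintype.card ι * R) ^ 2 ≤ s)
    (hM : (box ι (M + 1) (R + s)).card ≤ 2 * (box ι (M + 1) (L * R + (R + s))).card)
    (hM0 : 0 < (box ι (M + 1) (L * R + (R + s))).card)
    {K : ℝ} (hK1 : 1 ≤ K) {α β : ℝ} (hα : 1 ≤ α) (hβ : 1 ≤ β)
    (hL : 4 * Fintype.card ι * s * K ^ 2 ≤ L) {δ : ℝ} (hδ : 0 < δ)
    {W : Finset ℕ} {Θ : (ι → Fin (M + 1)) → ℕ → ℝ}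
    (hE : ∀ u v c, (∀ c', ((v c' : ℕ) : ℤ) = (u c' : ℕ) + (Pi.single c 1 : ι → ℤ) c') →
      ∑ j ∈ W, |Θ u j - Θ v j| ^ p ≤ K * δ ^ p)
    (hA : ∀ u v i, (∀ c', ((v c' : ℕ) : ℤ) = (u c' : ℕ) + a i c') →
      ∑ j ∈ W, |Θ u j - Θ v j| ^ p ≤ K * (δ ^ p * α))
    (hB : ∀ u v i, (∀ c', ((v c' : ℕ) : ℤ) = (u c' : ℕ) + (L • b i) c') →
      δ ^ p * ((L : ℝ) ^ p * β) ≤ K * ∑ j ∈ W, |Θ u j - Θ v j| ^ p) :
    β ≤ 2 ^ (2 * p + 1) * (2 ^ (p + 1) * C₀ + 1) * (K ^ 2 * α) := by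
  have hp0 : 0 < p := by linarith
  have hK0 : 0 < K := by linarith
  have hpr : (ENNReal.ofReal p).toReal = p := ENNReal.toReal_ofReal hp0.le
  have hfact : Fact (1 ≤ ENNReal.ofReal p) := ⟨by
    rw [← ENNReal.ofReal_one]; exact ENNReal.ofReal_le_ofReal hp⟩
  let E := PiLp (ENNReal.ofReal p) (fun _ : W => ℝ)
  have hn : ∀ w : E, ‖w‖ ^ p = ∑ j, |w j| ^ p := by
    intro w
    rw [PiLp.norm_eq_sum (by rw [hpr]; linarith), hpr, ← Real.rpow_mul, one_div_mul_cancel,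
      Real.rpow_one]
    · simp
    · linarith
    · exact Finset.sum_nonneg fun j _ => by positivity
  set r : ℝ := K ^ (1 / p) * δ with hr
  have hr0 : 0 < r := by positivity
  have hrp : r ^ p = K * δ ^ p := by
    rw [hr, Real.mul_rpow (by positivity) hδ.le, ← Real.rpow_mul hK0.le,
      one_div_mul_cancel hp0.ne', Real.rpow_one]
  let F : (ι → ℤ) → E := fun x => r⁻¹ • WithLp.toLp _ (fun j : W => Θ (clamp M x) j)
  have hFn : ∀ x y, ‖F x - F y‖ ^ p =
      (K * δ ^ p)⁻¹ * ∑ j ∈ W, |Θ (clamp M x) j - Θ (clamp M y) j| ^ p := by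
    intro x y
    rw [hn]
    have e : ∀ j : W, (F x - F y) j = r⁻¹ * (Θ (clamp M x) j - Θ (clamp M y) j) := by
      intro j
      change r⁻¹ * Θ (clamp M x) j - r⁻¹ * Θ (clamp M y) j = _
      ring
    simp only [e, abs_mul]
    rw [← Finset.sum_coe_sort W, Finset.mul_sum]
    refine Finset.sum_congr rfl fun j _ => ?_
    rw [Real.mul_rpow (abs_nonneg _) (abs_nonneg _), abs_of_pos (inv_pos.2 hr0),
      Real.inv_rpow hr0.le, hrp]
  have hKδ : 0 < K * δ ^ p := by positivity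
  have hsymm : ∀ u v : ι → Fin (M + 1), ∑ j ∈ W, |Θ u j - Θ v j| ^ p =
      ∑ j ∈ W, |Θ v j - Θ u j| ^ p := fun u v =>
    Finset.sum_congr rfl fun j _ => by rw [abs_sub_comm]
  have hunit : ∀ x c, ‖F (x + Pi.single c 1) - F x‖ ≤ 1 := by
    intro x c
    rw [← Real.rpow_le_rpow_iff (norm_nonneg _) zero_le_one hp0, Real.one_rpow, hFn,
      inv_mul_le_iff₀ hKδ, mul_one, hsymm]
    rcases clamp_add_single M x c with h | h
    · rw [h]
      simp only [sub_self, abs_zero, Real.zero_rpow hp0.ne', Finset.sum_const_zero]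
      exact hKδ.le
    · exact hE _ _ c h
  have hmain := displacement_comparison (E := E) hp (a := a) (b := b) hs0 hL0 ha hb hC₀
    (fun v => by
      have := avg_PiLp_le hp (W := W) hK v
      unfold avg at this
      exact this) hs (F := F) hunit (α := α) (β := β / K ^ 2) hα (by positivity)
    (fun i x hx => by
      rw [hFn, inv_mul_le_iff₀ hKδ, hsymm]
      refine (hA _ _ i fun c' => ?_).trans (le_of_eq (by ring))
      have hx' : x + a i ∈ box ι (M + 1) 0 := add_mem_box (by simpa using hx) (ha i)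
      rw [clamp_of_mem_box hx', clamp_of_mem_box hx, Pi.add_apply])
    (fun i x hx => by
      rw [hFn, hsymm, ← div_eq_inv_mul, le_div_iff₀ hKδ]
      have hx' : x + L • b i ∈ box ι (M + 1) 0 := by
        refine add_mem_box (m := L * R) (by simpa using hx) fun c => ?_
        simp only [Pi.smul_apply, nsmul_eq_mul, abs_mul, Nat.abs_cast]
        push_cast
        exact mul_le_mul_of_nonneg_left (hb i c) (by positivity)
      have h1 := hB (clamp M x) (clamp M (x + L • b i)) i fun c' => by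
        rw [clamp_of_mem_box hx', clamp_of_mem_box hx, Pi.add_apply]
      rw [← div_le_iff₀' hK0] at h1
      refine le_trans (le_of_eq ?_) h1
      field_simp)
    (by
      have h1 : (K ^ 2)⁻¹ ≤ (β / K ^ 2) ^ (1 / p) := by
        have h2 : (K ^ 2)⁻¹ ≤ ((K ^ 2)⁻¹) ^ (1 / p) := by
          have h3 : (K ^ 2)⁻¹ ≤ 1 := inv_le_one_of_one_le₀ (one_le_pow₀ hK1)
          calc (K ^ 2)⁻¹ = ((K ^ 2)⁻¹) ^ (1 : ℝ) := (Real.rpow_one _).symm
            _ ≤ _ := Real.rpow_le_rpow_of_exponent_ge (by positivity) h3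
                (by rw [div_le_one hp0]; exact hp)
        refine h2.trans (Real.rpow_le_rpow (by positivity) ?_ (by positivity))
        rw [div_eq_mul_inv]
        exact le_mul_of_one_le_left (by positivity) hβ
      have h2 : (4 : ℝ) * Fintype.card ι * s ≤ L * (K ^ 2)⁻¹ := by
        rw [← div_eq_mul_inv, le_div_iff₀ (by positivity)]
        exact hL
      exact h2.trans (by gcongr))
    hM hM0
  rw [div_le_iff₀ (by positivity)] at hmain
  refine hmain.trans (le_of_eq ?_)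
  ring

end

/-- The directions that are used. -/
def IsDir (m R L : ℕ) (d : Fin (m + 1) × Fin (m + 1) → ℤ) : Prop :=
  (∃ c, d = Pi.single c 1) ∨ (∃ ω, d = flat R ω) ∨ (∃ ω, d = L • flat R ω) ∨
    (∃ ω, d = rankOne ω) ∨ ∃ ω, d = L • rankOne ω

/-- `v` is obtained from `u` by a displacement in one of the directions. -/
def Displaced (m R L M : ℕ) (u v : Fin (m + 1) × Fin (m + 1) → Fin (M + 1)) : Prop :=
  ∃ d, IsDir m R L d ∧ ∀ c, ((v c : ℕ) : ℤ) = (u c : ℕ) + d c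

/-- For `p ≠ 2` and every distortion `K` there are a matrix size and a grid which cannot be mapped
to `ℓ^p` with the given distortion in the directions that are used. -/
theorem exists_parameters {p : ℝ} (hp : 1 ≤ p) (hp2 : p ≠ 2) {K : ℝ} (hK : 1 ≤ K) :
    ∃ m R L M : ℕ, m + 1 = R ^ 2 ∧ 0 < L ∧
    ∀ (δ : ℝ) (D : (Fin (m + 1) × Fin (m + 1) → Fin (M + 1)) →
        (Fin (m + 1) × Fin (m + 1) → Fin (M + 1)) → ℝ) (W : Finset ℕ)
      (Θ : (Fin (m + 1) × Fin (m + 1) → Fin (M + 1)) → ℕ → ℝ), 0 < δ →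
      (∀ u v c, (∀ c', ((v c' : ℕ) : ℤ) = (u c' : ℕ) + (Pi.single c 1 : _ → ℤ) c') →
        D u v = δ ^ p) →
      (∀ u v ω, (∀ c', ((v c' : ℕ) : ℤ) = (u c' : ℕ) + flat R ω c') →
        D u v = δ ^ p * ((R : ℝ) ^ p * (m + 1))) →
      (∀ u v ω, (∀ c', ((v c' : ℕ) : ℤ) = (u c' : ℕ) + (L • flat R ω) c') →
        D u v = δ ^ p * ((L : ℝ) ^ p * ((R : ℝ) ^ p * (m + 1)))) →
      (∀ u v ω, (∀ c', ((v c' : ℕ) : ℤ) = (u c' : ℕ) + rankOne ω c') →
        D u v = δ ^ p * ((m : ℝ) + 1) ^ p) →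
      (∀ u v ω, (∀ c', ((v c' : ℕ) : ℤ) = (u c' : ℕ) + (L • rankOne ω) c') →
        D u v = δ ^ p * ((L : ℝ) ^ p * ((m : ℝ) + 1) ^ p)) →
      ¬ ∀ u v, Displaced m R L M u v →
        D u v ≤ K * ∑ j ∈ W, |Θ u j - Θ v j| ^ p ∧
        ∑ j ∈ W, |Θ u j - Θ v j| ^ p ≤ K * D u v := by
  have hp0 : 0 < p := by linarith
  rcases lt_or_gt_of_ne hp2 with hlt | hgt
  · -- `p < 2`: the upper family consists of the rank one matrices
    obtain ⟨C₀, hC₀, hC⟩ := exists_flat_le_rankOne p hp0 hlt.le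
    -- choice of `R`
    obtain ⟨R, hR⟩ : ∃ R : ℕ, 2 ^ (2 * p + 1) * (2 ^ (p + 1) * C₀ + 1) * K ^ 2 <
        ((R + 1 : ℕ) : ℝ) ^ (2 - p) := by
      have h1 : Filter.Tendsto (fun R : ℕ => ((R + 1 : ℕ) : ℝ) ^ (2 - p)) Filter.atTop
          Filter.atTop := (tendsto_rpow_atTop (by linarith)).comp
        (tendsto_natCast_atTop_atTop.comp (Filter.tendsto_add_atTop_nat 1))
      exact (h1.eventually_gt_atTop _).exists
    set m := (R + 1) ^ 2 - 1 with hm
    have hmR : m + 1 = (R + 1) ^ 2 := by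
      have : 0 < (R + 1) ^ 2 := by positivity
      omega
    set N := Fintype.card (Fin (m + 1) × Fin (m + 1)) with hN
    set s := 2 * (N * (R + 1)) ^ 2 + 1 with hs
    obtain ⟨L, hL⟩ := exists_nat_ge (4 * (N : ℝ) * s * K ^ 2 + 1)
    have hL0 : 0 < L := by
      have : (0 : ℝ) < L := lt_of_lt_of_le (by positivity) hL
      exact_mod_cast this
    obtain ⟨M, hM1, hM2⟩ := exists_box_card (ι := Fin (m + 1) × Fin (m + 1)) ((R + 1) + s)
      (L * (R + 1))
    refine ⟨m, R + 1, L, M, hmR, hL0, ?_⟩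
    intro δ D W Θ hδ hD1 hD2 hD3 hD4 hD5 hcon
    have hm1 : ((m : ℝ) + 1) = ((R + 1 : ℕ) : ℝ) ^ 2 := by exact_mod_cast hmR
    have hR0 : (0 : ℝ) < ((R + 1 : ℕ) : ℝ) := by positivity
    have hmain := grid_obstruction hp (a := fun ω => rankOne (κ := Fin (m + 1)) ω)
      (b := fun ω => flat (κ := Fin (m + 1)) (R + 1) ω) (R := R + 1) (s := s) (L := L) (M := M)
      (by omega) hL0
      (fun ω c => (abs_rankOne_le ω c).trans (by push_cast; linarith [Nat.zero_le R]))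
      (fun ω c => abs_flat_le _ ω c) hC₀.le
      (fun g => hC (Fin (m + 1)) (R + 1) (by rw [Fintype.card_fin, hmR]) g)
      (by rw [hs, hN]; exact Nat.le_succ _) hM1 hM2 hK
      (α := ((m : ℝ) + 1) ^ p) (β := ((R + 1 : ℕ) : ℝ) ^ p * (m + 1))
      (Real.one_le_rpow (by linarith [(Nat.cast_nonneg m : (0 : ℝ) ≤ m)]) hp0.le)
      (one_le_mul_of_one_le_of_one_le
        (Real.one_le_rpow (by push_cast; linarith [(Nat.cast_nonneg R : (0 : ℝ) ≤ R)]) hp0.le)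
        (by linarith [(Nat.cast_nonneg m : (0 : ℝ) ≤ m)]))
      (by linarith) hδ (W := W) (Θ := Θ)
      (fun u v c h => by
        rw [← hD1 u v c h]
        exact (hcon u v ⟨_, Or.inl ⟨c, rfl⟩, h⟩).2)
      (fun u v ω h => by
        rw [← hD4 u v ω h]
        exact (hcon u v ⟨_, Or.inr (Or.inr (Or.inr (Or.inl ⟨ω, rfl⟩))), h⟩).2)
      (fun u v ω h => by
        rw [← hD3 u v ω h]
        exact (hcon u v ⟨_, Or.inr (Or.inr (Or.inl ⟨ω, rfl⟩)), h⟩).1)
    rw [hm1] at hmain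
    have e1 : ((R + 1 : ℕ) : ℝ) ^ p * ((R + 1 : ℕ) : ℝ) ^ 2 =
        ((R + 1 : ℕ) : ℝ) ^ (2 - p) * (((R + 1 : ℕ) : ℝ) ^ 2) ^ p := by
      rw [← Real.rpow_natCast _ 2, ← Real.rpow_mul hR0.le, ← Real.rpow_add hR0,
        ← Real.rpow_add hR0]
      congr 1
      push_cast
      ring
    rw [e1] at hmain
    have h2 : (0 : ℝ) < (((R + 1 : ℕ) : ℝ) ^ 2) ^ p := by positivity
    have h3 : ((R + 1 : ℕ) : ℝ) ^ (2 - p) ≤
        2 ^ (2 * p + 1) * (2 ^ (p + 1) * C₀ + 1) * K ^ 2 := by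
      refine le_of_mul_le_mul_right (hmain.trans (le_of_eq ?_)) h2
      ring
    exact absurd hR (not_lt.2 h3)
  · -- `p > 2`: the upper family consists of the signed shifts
    obtain ⟨C₀, hC₀, hC⟩ := exists_rankOne_le_flat p hgt.le
    obtain ⟨R, hR⟩ : ∃ R : ℕ, 2 ^ (2 * p + 1) * (2 ^ (p + 1) * C₀ + 1) * K ^ 2 <
        ((R + 1 : ℕ) : ℝ) ^ (p - 2) := by
      have h1 : Filter.Tendsto (fun R : ℕ => ((R + 1 : ℕ) : ℝ) ^ (p - 2)) Filter.atTop
          Filter.atTop := (tendsto_rpow_atTop (by linarith)).comp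
        (tendsto_natCast_atTop_atTop.comp (Filter.tendsto_add_atTop_nat 1))
      exact (h1.eventually_gt_atTop _).exists
    set m := (R + 1) ^ 2 - 1 with hm
    have hmR : m + 1 = (R + 1) ^ 2 := by
      have : 0 < (R + 1) ^ 2 := by positivity
      omega
    set N := Fintype.card (Fin (m + 1) × Fin (m + 1)) with hN
    set s := 2 * (N * (R + 1)) ^ 2 + 1 with hs
    obtain ⟨L, hL⟩ := exists_nat_ge (4 * (N : ℝ) * s * K ^ 2 + 1)
    have hL0 : 0 < L := by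
      have : (0 : ℝ) < L := lt_of_lt_of_le (by positivity) hL
      exact_mod_cast this
    obtain ⟨M, hM1, hM2⟩ := exists_box_card (ι := Fin (m + 1) × Fin (m + 1)) ((R + 1) + s)
      (L * (R + 1))
    refine ⟨m, R + 1, L, M, hmR, hL0, ?_⟩
    intro δ D W Θ hδ hD1 hD2 hD3 hD4 hD5 hcon
    have hm1 : ((m : ℝ) + 1) = ((R + 1 : ℕ) : ℝ) ^ 2 := by exact_mod_cast hmR
    have hR0 : (0 : ℝ) < ((R + 1 : ℕ) : ℝ) := by positivity
    have hmain := grid_obstruction hp (b := fun ω => rankOne (κ := Fin (m + 1)) ω)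
      (a := fun ω => flat (κ := Fin (m + 1)) (R + 1) ω) (R := R + 1) (s := s) (L := L) (M := M)
      (by omega) hL0 (fun ω c => abs_flat_le _ ω c)
      (fun ω c => (abs_rankOne_le ω c).trans (by push_cast; linarith [Nat.zero_le R]))
      hC₀.le
      (fun g => hC (Fin (m + 1)) (R + 1) (by rw [Fintype.card_fin, hmR]) g)
      (by rw [hs, hN]; exact Nat.le_succ _) hM1 hM2 hK
      (β := ((m : ℝ) + 1) ^ p) (α := ((R + 1 : ℕ) : ℝ) ^ p * (m + 1))
      (one_le_mul_of_one_le_of_one_le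
        (Real.one_le_rpow (by push_cast; linarith [(Nat.cast_nonneg R : (0 : ℝ) ≤ R)]) hp0.le)
        (by linarith [(Nat.cast_nonneg m : (0 : ℝ) ≤ m)]))
      (Real.one_le_rpow (by linarith [(Nat.cast_nonneg m : (0 : ℝ) ≤ m)]) hp0.le)
      (by linarith) hδ (W := W) (Θ := Θ)
      (fun u v c h => by
        rw [← hD1 u v c h]
        exact (hcon u v ⟨_, Or.inl ⟨c, rfl⟩, h⟩).2)
      (fun u v ω h => by
        rw [← hD2 u v ω h]
        exact (hcon u v ⟨_, Or.inr (Or.inl ⟨ω, rfl⟩), h⟩).2)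
      (fun u v ω h => by
        rw [← hD5 u v ω h]
        exact (hcon u v ⟨_, Or.inr (Or.inr (Or.inr (Or.inr ⟨ω, rfl⟩))), h⟩).1)
    rw [hm1] at hmain
    have e1 : (((R + 1 : ℕ) : ℝ) ^ 2) ^ p =
        ((R + 1 : ℕ) : ℝ) ^ (p - 2) * (((R + 1 : ℕ) : ℝ) ^ p * ((R + 1 : ℕ) : ℝ) ^ 2) := by
      rw [← Real.rpow_natCast _ 2, ← Real.rpow_mul hR0.le, ← Real.rpow_add hR0,
        ← Real.rpow_add hR0]
      congr 1
      push_cast
      ring
    rw [e1] at hmain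
    have h2 : (0 : ℝ) < ((R + 1 : ℕ) : ℝ) ^ p * ((R + 1 : ℕ) : ℝ) ^ 2 := by positivity
    have h3 : ((R + 1 : ℕ) : ℝ) ^ (p - 2) ≤
        2 ^ (2 * p + 1) * (2 ^ (p + 1) * C₀ + 1) * K ^ 2 := by
      refine le_of_mul_le_mul_right (hmain.trans (le_of_eq ?_)) h2
      ring
    exact absurd hR (not_lt.2 h3)

end Pool.Agent.Lib.MP_ec05f5_lc
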