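import Mathlib

/-!
# Khinchine inequalities for signs, for products of signs and for signed permutations
-/

set_option autoImplicit false

namespace Pool.Agent.Lib.MP_ec05f5_lc

open Finset

/-- `±1` -/
def sg (b : Bool) : ℤ := if b then 1 else -1

theorem sg_sq (b : Bool) : ((sg b : ℤ) : ℝ) ^ 2 = 1 := by
  cases b <;> norm_num [sg]

theorem abs_sg (b : Bool) : |sg b| = 1 := by
  cases b <;> simp [sg]

theorem sg_not (b : Bool) : sg (!b) = -sg b := by
  cases b <;> simp [sg]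

/-- The average over a finite type. -/
noncomputable def avg {Ω : Type*} [Fintype Ω] (f : Ω → ℝ) : ℝ := (∑ ω, f ω) / Fintype.card Ω

section avg

variable {Ω Ω' : Type*} [Fintype Ω] [Fintype Ω']

theorem avg_mono {f g : Ω → ℝ} (h : ∀ ω, f ω ≤ g ω) : avg f ≤ avg g := by
  unfold avg
  gcongr with ω _
  exact h ω

theorem avg_nonneg {f : Ω → ℝ} (h : ∀ ω, 0 ≤ f ω) : 0 ≤ avg f :=
  div_nonneg (Finset.sum_nonneg fun ω _ => h ω) (Nat.cast_nonneg _)

theorem avg_const_mul (c : ℝ) (f : Ω → ℝ) : avg (fun ω => c * f ω) = c * avg f := by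
  unfold avg
  rw [← Finset.mul_sum, mul_div_assoc]

theorem avg_add (f g : Ω → ℝ) : avg (fun ω => f ω + g ω) = avg f + avg g := by
  unfold avg
  rw [Finset.sum_add_distrib, add_div]

theorem avg_sum {κ : Type*} (s : Finset κ) (f : κ → Ω → ℝ) :
    avg (fun ω => ∑ i ∈ s, f i ω) = ∑ i ∈ s, avg (f i) := by
  unfold avg
  rw [Finset.sum_comm, Finset.sum_div]

theorem avg_const [Nonempty Ω] (c : ℝ) : avg (fun _ : Ω => c) = c := by
  unfold avg
  rw [Finset.sum_const, nsmul_eq_mul, Finset.card_univ, mul_comm, mul_div_assoc, div_self, mul_one]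
  exact_mod_cast Fintype.card_ne_zero

theorem avg_prod (f : Ω × Ω' → ℝ) : avg f = avg fun ω => avg fun ω' => f (ω, ω') := by
  unfold avg
  rw [Fintype.sum_prod_type, Fintype.card_prod]
  rw [← Finset.sum_div, div_div]
  push_cast
  rw [mul_comm]

end avg

variable {κ : Type*} [Fintype κ] [DecidableEq κ]

theorem avg_exp (a : κ → ℝ) :
    avg (fun ε : κ → Bool => Real.exp (∑ i, (sg (ε i) : ℝ) * a i)) = ∏ i, Real.cosh (a i) := by
  have h := Finset.prod_univ_sum (fun _ : κ => (Finset.univ : Finset Bool))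
    (fun i b => Real.exp ((sg b : ℝ) * a i))
  rw [Fintype.piFinset_univ] at h
  unfold avg
  have e : ∀ ε : κ → Bool, Real.exp (∑ i, (sg (ε i) : ℝ) * a i) =
      ∏ i, Real.exp ((sg (ε i) : ℝ) * a i) := fun ε => Real.exp_sum _ _
  simp only [e]
  rw [← h, Fintype.card_fun, Fintype.card_bool]
  push_cast
  rw [← Finset.card_univ, ← Finset.prod_const, ← Finset.prod_div_distrib]
  refine Finset.prod_congr rfl fun i _ => ?_
  rw [Real.cosh_eq]
  congr 1
  simp [sg]

theorem avg_exp_le {a : κ → ℝ} (h : ∑ i, a i ^ 2 ≤ 1) :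
    avg (fun ε : κ → Bool => Real.exp (∑ i, (sg (ε i) : ℝ) * a i)) ≤ Real.exp (1 / 2) := by
  rw [avg_exp]
  calc ∏ i, Real.cosh (a i) ≤ ∏ i, Real.exp (a i ^ 2 / 2) :=
        Finset.prod_le_prod (fun i _ => (Real.cosh_pos _).le) fun i _ => Real.cosh_le_exp_half_sq _
    _ = Real.exp ((∑ i, a i ^ 2) / 2) := by rw [← Real.exp_sum, Finset.sum_div]
    _ ≤ Real.exp (1 / 2) := by gcongr

theorem exists_rpow_le_exp (q : ℝ) (hq : 0 < q) :
    ∃ C : ℝ, 0 < C ∧ ∀ x : ℝ, |x| ^ q ≤ C * (Real.exp x + Real.exp (-x)) := by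
  set m := ⌈q⌉₊ with hm
  refine ⟨1 + m.factorial, by positivity, fun x => ?_⟩
  have h1 : |x| ^ q ≤ 1 + |x| ^ m := by
    rcases le_total |x| 1 with h | h
    · have := Real.rpow_le_one (abs_nonneg x) h hq.le
      have : 0 ≤ |x| ^ m := by positivity
      linarith
    · have : |x| ^ q ≤ |x| ^ (m : ℝ) := Real.rpow_le_rpow_of_exponent_le h (Nat.le_ceil q)
      rw [Real.rpow_natCast] at this
      linarith
  have h2 : |x| ^ m ≤ m.factorial * Real.exp |x| := by
    have := Real.pow_div_factorial_le_exp |x| (abs_nonneg x) m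
    rwa [div_le_iff₀' (by positivity)] at this
  have h3 : Real.exp |x| ≤ Real.exp x + Real.exp (-x) := by
    rcases le_total 0 x with h | h
    · rw [abs_of_nonneg h]
      linarith [Real.exp_pos (-x)]
    · rw [abs_of_nonpos h]
      linarith [Real.exp_pos x]
  have h4 : 1 ≤ Real.exp |x| := Real.one_le_exp (abs_nonneg x)
  calc |x| ^ q ≤ 1 + |x| ^ m := h1
    _ ≤ Real.exp |x| + m.factorial * Real.exp |x| := add_le_add h4 h2
    _ = (1 + m.factorial) * Real.exp |x| := by ring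
    _ ≤ _ := by gcongr

/-- Khinchine's inequality, upper bound. -/
theorem exists_khinchine (q : ℝ) (hq : 0 < q) : ∃ C : ℝ, 0 < C ∧
    ∀ (κ : Type) [Fintype κ] [DecidableEq κ] (a : κ → ℝ),
    avg (fun ε : κ → Bool => |∑ i, (sg (ε i) : ℝ) * a i| ^ q) ≤ C * (∑ i, a i ^ 2) ^ (q / 2) := by
  obtain ⟨C, hC, h⟩ := exists_rpow_le_exp q hq
  refine ⟨C * (2 * Real.exp (1 / 2)), by positivity, fun κ _ _ a => ?_⟩
  set G := ∑ i, a i ^ 2 with hG
  have hG0 : 0 ≤ G := Finset.sum_nonneg fun i _ => sq_nonneg _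
  rcases hG0.eq_or_lt with hz | hpos
  · have ha : ∀ i, a i = 0 := by
      intro i
      have := (Finset.sum_eq_zero_iff_of_nonneg fun i _ => sq_nonneg (a i)).1 hz.symm i
        (Finset.mem_univ i)
      exact pow_eq_zero_iff (two_ne_zero) |>.1 this
    have : avg (fun ε : κ → Bool => |∑ i, (sg (ε i) : ℝ) * a i| ^ q) = 0 := by
      simp [ha, avg, Real.zero_rpow hq.ne']
    rw [this]
    positivity
  · set t := Real.sqrt G with ht
    have ht0 : 0 < t := Real.sqrt_pos.2 hpos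
    have htsq : t ^ 2 = G := Real.sq_sqrt hG0
    have hsum : ∑ i, (a i / t) ^ 2 ≤ 1 := by
      simp only [div_pow]
      rw [← Finset.sum_div, htsq, ← hG, div_self hpos.ne']
    have hsum' : ∑ i, (-(a i) / t) ^ 2 ≤ 1 := by
      simpa [neg_div] using hsum
    have e1 : ∀ ε : κ → Bool, |∑ i, (sg (ε i) : ℝ) * a i| ^ q =
        t ^ q * |∑ i, (sg (ε i) : ℝ) * (a i / t)| ^ q := by
      intro ε
      have : ∑ i, (sg (ε i) : ℝ) * (a i / t) = (∑ i, (sg (ε i) : ℝ) * a i) / t := by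
        rw [Finset.sum_div]
        exact Finset.sum_congr rfl fun i _ => by ring
      rw [this, abs_div, abs_of_pos ht0, ← Real.mul_rpow ht0.le (by positivity),
        mul_div_cancel₀ _ ht0.ne']
    have e2 : t ^ q = G ^ (q / 2) := by
      rw [← htsq, ← Real.rpow_natCast, ← Real.rpow_mul ht0.le]
      congr 1
      push_cast
      ring
    calc avg (fun ε : κ → Bool => |∑ i, (sg (ε i) : ℝ) * a i| ^ q)
        = t ^ q * avg (fun ε : κ → Bool => |∑ i, (sg (ε i) : ℝ) * (a i / t)| ^ q) := by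
          rw [← avg_const_mul]
          simp only [e1]
      _ ≤ t ^ q * (C * (avg (fun ε : κ → Bool => Real.exp (∑ i, (sg (ε i) : ℝ) * (a i / t))) +
            avg (fun ε : κ → Bool => Real.exp (∑ i, (sg (ε i) : ℝ) * (-(a i) / t))))) := by
          refine mul_le_mul_of_nonneg_left ?_ (by positivity)
          rw [← avg_add, ← avg_const_mul]
          refine avg_mono fun ε => (h _).trans (le_of_eq ?_)
          congr 3
          rw [← Finset.sum_neg_distrib]
          exact Finset.sum_congr rfl fun i _ => by ring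
      _ ≤ t ^ q * (C * (Real.exp (1 / 2) + Real.exp (1 / 2))) := by
          gcongr
          · exact avg_exp_le hsum
          · exact avg_exp_le hsum'
      _ = C * (2 * Real.exp (1 / 2)) * G ^ (q / 2) := by rw [e2]; ring

/-- Orthogonality of the signs. -/
theorem avg_sq (a : κ → ℝ) :
    avg (fun ε : κ → Bool => (∑ i, (sg (ε i) : ℝ) * a i) ^ 2) = ∑ i, a i ^ 2 := by
  have h1 : ∀ i j : κ, avg (fun ε : κ → Bool => (sg (ε i) : ℝ) * sg (ε j)) =
      if i = j then 1 else 0 := by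
    intro i j
    split_ifs with h
    · subst h
      have : (fun ε : κ → Bool => (sg (ε i) : ℝ) * sg (ε i)) = fun _ => 1 := by
        funext ε
        rw [← pow_two, sg_sq]
      rw [this, avg_const]
    · unfold avg
      rw [div_eq_zero_iff]
      left
      refine Finset.sum_involution (fun ε _ => Function.update ε i (!ε i)) ?_ ?_ ?_ ?_
      · intro ε _
        rw [Function.update_self, Function.update_of_ne (Ne.symm h), sg_not]
        push_cast
        ring
      · intro ε _ _ he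
        have := congrFun he i
        rw [Function.update_self] at this
        simp at this
      · intro ε _; exact Finset.mem_univ _
      · intro ε _
        simp
  have h2 : ∀ ε : κ → Bool, (∑ i, (sg (ε i) : ℝ) * a i) ^ 2 =
      ∑ i, ∑ j, (a i * a j) * ((sg (ε i) : ℝ) * sg (ε j)) := by
    intro ε
    rw [pow_two, Finset.sum_mul_sum]
    refine Finset.sum_congr rfl fun i _ => Finset.sum_congr rfl fun j _ => by ring
  simp only [h2]
  rw [avg_sum]
  refine Finset.sum_congr rfl fun i _ => ?_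
  rw [avg_sum]
  simp only [avg_const_mul, h1]
  simp [pow_two]

/-- Power mean inequality for averages. -/
theorem avg_rpow_le {Ω : Type*} [Fintype Ω] [Nonempty Ω] {f : Ω → ℝ} (hf : ∀ ω, 0 ≤ f ω) {r : ℝ}
    (hr : 1 ≤ r) : (avg f) ^ r ≤ avg fun ω => f ω ^ r := by
  have h := Real.rpow_arith_mean_le_arith_mean_rpow Finset.univ
    (fun _ : Ω => (Fintype.card Ω : ℝ)⁻¹) f (fun _ _ => by positivity) (by
      rw [Finset.sum_const, nsmul_eq_mul, Finset.card_univ, mul_inv_cancel₀]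
      exact_mod_cast Fintype.card_ne_zero) (fun ω _ => hf ω) hr
  rw [← Finset.mul_sum, ← Finset.mul_sum] at h
  unfold avg
  rw [div_eq_inv_mul, div_eq_inv_mul]
  exact h

omit [DecidableEq κ] in
/-- The value of the functional `g` on the matrix `v v'ᵀ`. -/
theorem sum_rankOne (g : κ × κ → ℝ) (v v' : κ → Bool) :
    ∑ c : κ × κ, ((sg (v c.1) * sg (v' c.2) : ℤ) : ℝ) * g c =
      ∑ j, (sg (v' j) : ℝ) * ∑ i, (sg (v i) : ℝ) * g (i, j) := by
  rw [Fintype.sum_prod_type, Finset.sum_comm]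
  refine Finset.sum_congr rfl fun j _ => ?_
  rw [Finset.mul_sum]
  refine Finset.sum_congr rfl fun i _ => ?_
  push_cast
  ring

/-- Khinchine's inequality for products of signs, upper bound. -/
theorem exists_chaos (q : ℝ) (hq : 2 ≤ q) : ∃ C : ℝ, 0 < C ∧
    ∀ (κ : Type) [Fintype κ] [DecidableEq κ] (g : κ × κ → ℝ),
    avg (fun ω : (κ → Bool) × (κ → Bool) =>
      |∑ c : κ × κ, ((sg (ω.1 c.1) * sg (ω.2 c.2) : ℤ) : ℝ) * g c| ^ q) ≤
        C * (∑ c, g c ^ 2) ^ (q / 2) := by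
  obtain ⟨C, hC, h⟩ := exists_khinchine q (by linarith)
  refine ⟨C * C, by positivity, fun κ _ _ g => ?_⟩
  set Gj : κ → ℝ := fun j => ∑ i, g (i, j) ^ 2 with hGj
  set G := ∑ c, g c ^ 2 with hG
  have hGsum : ∑ j, Gj j = G := by
    rw [hG, Fintype.sum_prod_type, Finset.sum_comm]
  have hGj0 : ∀ j, 0 ≤ Gj j := fun j => Finset.sum_nonneg fun i _ => sq_nonneg _
  have hG0 : 0 ≤ G := Finset.sum_nonneg fun i _ => sq_nonneg _
  rw [avg_prod]
  simp only [sum_rankOne]
  -- inner average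
  have h1 : ∀ v : κ → Bool, avg (fun v' : κ → Bool =>
      |∑ j, (sg (v' j) : ℝ) * ∑ i, (sg (v i) : ℝ) * g (i, j)| ^ q) ≤
      C * (∑ j, (∑ i, (sg (v i) : ℝ) * g (i, j)) ^ 2) ^ (q / 2) := fun v =>
    h κ fun j => ∑ i, (sg (v i) : ℝ) * g (i, j)
  rcases hG0.eq_or_lt with hz | hpos
  · have hg : ∀ c, g c = 0 := by
      intro c
      have := (Finset.sum_eq_zero_iff_of_nonneg fun i _ => sq_nonneg (g i)).1 hz.symm c
        (Finset.mem_univ c)
      exact pow_eq_zero_iff (two_ne_zero) |>.1 this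
    have : avg (fun v : κ → Bool => avg (fun v' : κ → Bool =>
      |∑ j, (sg (v' j) : ℝ) * ∑ i, (sg (v i) : ℝ) * g (i, j)| ^ q)) = 0 := by
      have hq0 : q ≠ 0 := by linarith
      simp [hg, avg, Real.zero_rpow hq0]
    rw [this]
    positivity
  -- convexity
  have h2 : ∀ v : κ → Bool, (∑ j, (∑ i, (sg (v i) : ℝ) * g (i, j)) ^ 2) ^ (q / 2) ≤
      ∑ j, Gj j / G * (((∑ i, (sg (v i) : ℝ) * g (i, j)) ^ 2) / (Gj j / G)) ^ (q / 2) := by
    intro v
    refine le_trans (le_of_eq ?_) (Real.rpow_arith_mean_le_arith_mean_rpow Finset.univ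
      (fun j => Gj j / G) (fun j => ((∑ i, (sg (v i) : ℝ) * g (i, j)) ^ 2) / (Gj j / G))
      (fun j _ => div_nonneg (hGj0 j) hG0) (by rw [← Finset.sum_div, hGsum, div_self hpos.ne'])
      (fun j _ => div_nonneg (sq_nonneg _) (div_nonneg (hGj0 j) hG0)) (by linarith))
    congr 1
    refine Finset.sum_congr rfl fun j _ => ?_
    rcases (hGj0 j).eq_or_lt with hz | hp
    · have hg : ∀ i, g (i, j) = 0 := by
        intro i
        have := (Finset.sum_eq_zero_iff_of_nonneg fun i _ => sq_nonneg (g (i, j))).1 hz.symm i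
          (Finset.mem_univ i)
        exact pow_eq_zero_iff (two_ne_zero) |>.1 this
      rw [← hz]
      simp [hg]
    · rw [mul_div_cancel₀]
      positivity
  have h3 : ∀ j, Gj j / G * avg (fun v : κ → Bool =>
      (((∑ i, (sg (v i) : ℝ) * g (i, j)) ^ 2) / (Gj j / G)) ^ (q / 2)) ≤
      Gj j / G * (C * G ^ (q / 2)) := by
    intro j
    rcases (hGj0 j).eq_or_lt with hz | hp
    · rw [← hz]; simp
    · gcongr
      have e : ∀ v : κ → Bool, (((∑ i, (sg (v i) : ℝ) * g (i, j)) ^ 2) / (Gj j / G)) ^ (q / 2) =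
          ((Gj j / G) ^ (q / 2))⁻¹ * |∑ i, (sg (v i) : ℝ) * g (i, j)| ^ q := by
        intro v
        rw [Real.div_rpow (sq_nonneg _) (by positivity), div_eq_inv_mul]
        congr 1
        rw [← sq_abs, ← Real.rpow_natCast, ← Real.rpow_mul (abs_nonneg _)]
        congr 1
        push_cast
        ring
      simp only [e]
      rw [avg_const_mul]
      calc ((Gj j / G) ^ (q / 2))⁻¹ * avg (fun v : κ → Bool =>
            |∑ i, (sg (v i) : ℝ) * g (i, j)| ^ q)
          ≤ ((Gj j / G) ^ (q / 2))⁻¹ * (C * (Gj j) ^ (q / 2)) := by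
            gcongr
            exact h κ fun i => g (i, j)
        _ = C * G ^ (q / 2) := by
            rw [Real.div_rpow hp.le hpos.le]
            have : (Gj j) ^ (q / 2) ≠ 0 := by positivity
            have : G ^ (q / 2) ≠ 0 := by positivity
            field_simp
  calc avg (fun v : κ → Bool => avg (fun v' : κ → Bool =>
      |∑ j, (sg (v' j) : ℝ) * ∑ i, (sg (v i) : ℝ) * g (i, j)| ^ q))
      ≤ avg (fun v : κ → Bool => C *
        ∑ j, Gj j / G * (((∑ i, (sg (v i) : ℝ) * g (i, j)) ^ 2) / (Gj j / G)) ^ (q / 2)) :=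
        avg_mono fun v => (h1 v).trans (by gcongr; exact h2 v)
    _ = C * ∑ j, Gj j / G * avg (fun v : κ → Bool =>
          (((∑ i, (sg (v i) : ℝ) * g (i, j)) ^ 2) / (Gj j / G)) ^ (q / 2)) := by
        rw [avg_const_mul, avg_sum]
        simp only [avg_const_mul]
    _ ≤ C * ∑ j, Gj j / G * (C * G ^ (q / 2)) :=
        mul_le_mul_of_nonneg_left (Finset.sum_le_sum fun j _ => h3 j) hC.le
    _ = C * C * G ^ (q / 2) := by
        rw [← Finset.sum_mul, ← Finset.sum_div, hGsum, div_self hpos.ne']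
        ring

theorem avg_chaos_sq (g : κ × κ → ℝ) :
    avg (fun ω : (κ → Bool) × (κ → Bool) =>
      (∑ c : κ × κ, ((sg (ω.1 c.1) * sg (ω.2 c.2) : ℤ) : ℝ) * g c) ^ 2) = ∑ c, g c ^ 2 := by
  rw [avg_prod]
  simp only [sum_rankOne]
  have h1 : ∀ v : κ → Bool, avg (fun v' : κ → Bool =>
      (∑ j, (sg (v' j) : ℝ) * ∑ i, (sg (v i) : ℝ) * g (i, j)) ^ 2) =
      ∑ j, (∑ i, (sg (v i) : ℝ) * g (i, j)) ^ 2 := fun v => avg_sq _
  simp only [h1]
  rw [avg_sum, Fintype.sum_prod_type, Finset.sum_comm]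
  refine Finset.sum_congr rfl fun j _ => ?_
  exact avg_sq fun i => g (i, j)

/-- Lower bound for products of signs. -/
theorem exists_chaos_lower (p : ℝ) (hp : 0 < p) (hp2 : p ≤ 2) : ∃ C : ℝ, 0 < C ∧
    ∀ (κ : Type) [Fintype κ] [DecidableEq κ] (g : κ × κ → ℝ),
    (∑ c, g c ^ 2) ^ (p / 2) ≤ C * avg (fun ω : (κ → Bool) × (κ → Bool) =>
      |∑ c : κ × κ, ((sg (ω.1 c.1) * sg (ω.2 c.2) : ℤ) : ℝ) * g c| ^ p) := by
  obtain ⟨C, hC, h⟩ := exists_chaos 4 (by norm_num)
  refine ⟨2 * (2 * C) ^ (1 - p / 2), by positivity, fun κ _ _ g => ?_⟩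
  set G := ∑ c, g c ^ 2 with hG
  have hG0 : 0 ≤ G := Finset.sum_nonneg fun i _ => sq_nonneg _
  set X : (κ → Bool) × (κ → Bool) → ℝ := fun ω =>
    ∑ c : κ × κ, ((sg (ω.1 c.1) * sg (ω.2 c.2) : ℤ) : ℝ) * g c with hX
  have h4 : avg (fun ω => |X ω| ^ (4 : ℝ)) ≤ C * G ^ 2 := by
    have := h κ g
    have e : ((4 : ℝ) / 2) = ((2 : ℕ) : ℝ) := by norm_num
    rw [e, Real.rpow_natCast] at this
    exact this
  have h2 : avg (fun ω => X ω ^ 2) = G := avg_chaos_sq g
  rcases hG0.eq_or_lt with hz | hpos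
  · rw [← hz, Real.zero_rpow (by positivity)]
    have : 0 ≤ avg (fun ω => |X ω| ^ p) := avg_nonneg fun ω => by positivity
    positivity
  -- pointwise inequality
  set m := 2 * C * G with hm
  have hm0 : 0 < m := by positivity
  have hpt : ∀ x : ℝ, x ^ 2 ≤ m ^ (1 - p / 2) * |x| ^ p + m⁻¹ * |x| ^ (4 : ℝ) := by
    intro x
    have e4 : |x| ^ (4 : ℝ) = x ^ 2 * x ^ 2 := by
      rw [show (4 : ℝ) = ((4 : ℕ) : ℝ) by norm_num, Real.rpow_natCast,
        show |x| ^ 4 = (|x| ^ 2) * (|x| ^ 2) by ring, sq_abs]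
    rcases le_total (x ^ 2) m with h | h
    · have h5 : x ^ 2 ≤ m ^ (1 - p / 2) * |x| ^ p := by
        rcases eq_or_ne x 0 with rfl | hx
        · simp [Real.zero_rpow hp.ne']
        · have hx' : 0 < x ^ 2 := by positivity
          calc x ^ 2 = (x ^ 2) ^ (1 - p / 2) * (x ^ 2) ^ (p / 2) := by
                rw [← Real.rpow_add hx']
                simp
            _ ≤ m ^ (1 - p / 2) * (x ^ 2) ^ (p / 2) := by
                gcongr
                linarith
            _ = m ^ (1 - p / 2) * |x| ^ p := by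
                congr 1
                rw [← sq_abs, ← Real.rpow_natCast, ← Real.rpow_mul (abs_nonneg _)]
                congr 1
                push_cast
                ring
      have : 0 ≤ m⁻¹ * |x| ^ (4 : ℝ) := by positivity
      linarith
    · have h5 : x ^ 2 ≤ m⁻¹ * |x| ^ (4 : ℝ) := by
        rw [e4, inv_mul_eq_div, le_div_iff₀ hm0]
        gcongr
      have : 0 ≤ m ^ (1 - p / 2) * |x| ^ p := by positivity
      linarith
  have h5 : G ≤ m ^ (1 - p / 2) * avg (fun ω => |X ω| ^ p) + m⁻¹ * (C * G ^ 2) := by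
    calc G = avg (fun ω => X ω ^ 2) := h2.symm
      _ ≤ avg (fun ω => m ^ (1 - p / 2) * |X ω| ^ p + m⁻¹ * |X ω| ^ (4 : ℝ)) :=
          avg_mono fun ω => hpt _
      _ = m ^ (1 - p / 2) * avg (fun ω => |X ω| ^ p) + m⁻¹ * avg (fun ω => |X ω| ^ (4 : ℝ)) := by
          rw [avg_add, avg_const_mul, avg_const_mul]
      _ ≤ _ := by gcongr
  have h6 : m⁻¹ * (C * G ^ 2) = G / 2 := by
    rw [hm]
    field_simp
  rw [h6] at h5
  have h7 : G / 2 ≤ m ^ (1 - p / 2) * avg (fun ω => |X ω| ^ p) := by linarith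
  have h8 : m ^ (1 - p / 2) = (2 * C) ^ (1 - p / 2) * (G * (G ^ (p / 2))⁻¹) := by
    rw [hm, Real.mul_rpow (by positivity) hG0, Real.rpow_sub hpos, Real.rpow_one]
    rfl
  rw [h8] at h7
  have hGp : 0 < G ^ (p / 2) := by positivity
  have h9 : G / 2 * (G ^ (p / 2) / G) * 2 ≤
      ((2 * C) ^ (1 - p / 2) * (G * (G ^ (p / 2))⁻¹) * avg (fun ω => |X ω| ^ p)) *
        (G ^ (p / 2) / G) * 2 := by gcongr
  calc G ^ (p / 2) = G / 2 * (G ^ (p / 2) / G) * 2 := by field_simp
    _ ≤ _ := h9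
    _ = 2 * (2 * C) ^ (1 - p / 2) * avg (fun ω => |X ω| ^ p) := by field_simp

end Pool.Agent.Lib.MP_ec05f5_lc
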