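import Pool.Agent.Lib.MP_ec05f5_lc.Pigeonhole
import Pool.Agent.Lib.MP_ec05f5_lc.Directions
import Pool.Agent.Lib.MP_ec05f5_lc.BlockOperator
import Pool.Agent.Lib.MP_ec05f5_lc.Bases

/-!
# Equivalence modulo a Schatten class is reducible to `ℝ^ℕ / ℓ^p` only for `p = 2`
-/

set_option autoImplicit false

namespace Pool.Agent.Lib.MP_ec05f5_lc

open scoped InnerProductSpace ENNReal
open Filter Topology MeasureTheory

/-- The grids. -/
abbrev Grid (m M : ℕ) : Type := Fin (m + 1) × Fin (m + 1) → Fin (M + 1)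

/-- The real matrix of a grid point. -/
def gridMat {m M : ℕ} (δ : ℝ) (g : Grid m M) : Matrix (Fin (m + 1)) (Fin (m + 1)) ℝ :=
  fun a b => δ * ((g (a, b) : ℕ) : ℝ)

theorem gridMat_sub {m M : ℕ} (δ : ℝ) {u v : Grid m M} {d : Fin (m + 1) × Fin (m + 1) → ℤ}
    (h : ∀ c, ((v c : ℕ) : ℤ) = (u c : ℕ) + d c) :
    gridMat δ v - gridMat δ u = δ • dirMat d := by
  ext a b
  have h1 : ((v (a, b) : ℕ) : ℝ) = ((u (a, b) : ℕ) : ℝ) + (d (a, b) : ℝ) := by
    exact_mod_cast h (a, b)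
  simp only [gridMat, dirMat, Matrix.sub_apply, Matrix.smul_apply, smul_eq_mul, h1]
  ring

theorem dirMat_smul {m : ℕ} (L : ℕ) (d : Fin (m + 1) × Fin (m + 1) → ℤ) :
    dirMat (L • d) = (L : ℝ) • dirMat d := by
  ext i j
  simp [dirMat]

section values

variable {p δ : ℝ} {m M R L : ℕ} {u v : Grid m M}

theorem val_single (hδ : 0 < δ) (c : Fin (m + 1) × Fin (m + 1))
    (h : ∀ c', ((v c' : ℕ) : ℤ) = (u c' : ℕ) + (Pi.single c 1 : _ → ℤ) c') :
    blockVal p (gridMat δ v - gridMat δ u) = δ ^ p := by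
  rw [gridMat_sub δ h, blockVal_smul p one_pos hδ (single_identity c).1 (single_identity c).2,
    mul_one, mul_one]

theorem val_flat (hδ : 0 < δ) (hR : 0 < R) (ω : Fin (m + 1) × (Fin (m + 1) → Bool))
    (h : ∀ c', ((v c' : ℕ) : ℤ) = (u c' : ℕ) + flat R ω c') :
    blockVal p (gridMat δ v - gridMat δ u) = δ ^ p * ((R : ℝ) ^ p * (m + 1)) := by
  have hR' : (0 : ℝ) < R := by exact_mod_cast hR
  rw [gridMat_sub δ h, blockVal_smul p hR' hδ (flat_identity R ω).1 (flat_identity R ω).2,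
    Real.mul_rpow hδ.le hR'.le, Fintype.card_fin]
  push_cast
  ring

theorem val_flat' (hδ : 0 < δ) (hR : 0 < R) (hL : 0 < L)
    (ω : Fin (m + 1) × (Fin (m + 1) → Bool))
    (h : ∀ c', ((v c' : ℕ) : ℤ) = (u c' : ℕ) + (L • flat R ω) c') :
    blockVal p (gridMat δ v - gridMat δ u) =
      δ ^ p * ((L : ℝ) ^ p * ((R : ℝ) ^ p * (m + 1))) := by
  have hR' : (0 : ℝ) < R := by exact_mod_cast hR
  have hL' : (0 : ℝ) < L := by exact_mod_cast hL
  rw [gridMat_sub δ h, dirMat_smul, smul_smul,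
    blockVal_smul p hR' (by positivity) (flat_identity R ω).1 (flat_identity R ω).2,
    Real.mul_rpow (by positivity) hR'.le, Real.mul_rpow hδ.le hL'.le, Fintype.card_fin]
  push_cast
  ring

theorem val_rankOne (hδ : 0 < δ) (ω : (Fin (m + 1) → Bool) × (Fin (m + 1) → Bool))
    (h : ∀ c', ((v c' : ℕ) : ℤ) = (u c' : ℕ) + rankOne ω c') :
    blockVal p (gridMat δ v - gridMat δ u) = δ ^ p * ((m : ℝ) + 1) ^ p := by
  have hc : (0 : ℝ) < Fintype.card (Fin (m + 1)) := by rw [Fintype.card_fin]; positivity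
  rw [gridMat_sub δ h, blockVal_smul p hc hδ (rankOne_identity ω).1 (rankOne_identity ω).2,
    Real.mul_rpow hδ.le hc.le, Fintype.card_fin]
  push_cast
  ring

theorem val_rankOne' (hδ : 0 < δ) (hL : 0 < L)
    (ω : (Fin (m + 1) → Bool) × (Fin (m + 1) → Bool))
    (h : ∀ c', ((v c' : ℕ) : ℤ) = (u c' : ℕ) + (L • rankOne ω) c') :
    blockVal p (gridMat δ v - gridMat δ u) = δ ^ p * ((L : ℝ) ^ p * ((m : ℝ) + 1) ^ p) := by
  have hc : (0 : ℝ) < Fintype.card (Fin (m + 1)) := by rw [Fintype.card_fin]; positivity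
  have hL' : (0 : ℝ) < L := by exact_mod_cast hL
  rw [gridMat_sub δ h, dirMat_smul, smul_smul,
    blockVal_smul p hc (by positivity) (rankOne_identity ω).1 (rankOne_identity ω).2,
    Real.mul_rpow (by positivity) hc.le, Real.mul_rpow hδ.le hL'.le, Fintype.card_fin]
  push_cast
  ring

/-- The bound for all values. -/
noncomputable def valBound (p : ℝ) (m R L : ℕ) : ℝ :=
  1 + (R : ℝ) ^ p * (m + 1) + (L : ℝ) ^ p * ((R : ℝ) ^ p * (m + 1)) + ((m : ℝ) + 1) ^ p +
    (L : ℝ) ^ p * ((m : ℝ) + 1) ^ p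

theorem val_displaced (hδ : 0 < δ) (hR : 0 < R) (hL : 0 < L) (h : Displaced m R L M u v) :
    ∃ c : ℝ, 0 < c ∧ c ≤ valBound p m R L ∧
      blockVal p (gridMat δ v - gridMat δ u) = δ ^ p * c := by
  have hR' : (0 : ℝ) < R := by exact_mod_cast hR
  have hL' : (0 : ℝ) < L := by exact_mod_cast hL
  have h1 : 0 < (R : ℝ) ^ p * (m + 1) := by positivity
  have h2 : 0 < (L : ℝ) ^ p * ((R : ℝ) ^ p * (m + 1)) := by positivity
  have h3 : 0 < ((m : ℝ) + 1) ^ p := by positivity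
  have h4 : 0 < (L : ℝ) ^ p * ((m : ℝ) + 1) ^ p := by positivity
  obtain ⟨d, hd, h⟩ := h
  unfold valBound
  rcases hd with ⟨a, rfl⟩ | ⟨ω, rfl⟩ | ⟨ω, rfl⟩ | ⟨ω, rfl⟩ | ⟨ω, rfl⟩
  · exact ⟨1, one_pos, by linarith, by rw [val_single hδ a h, mul_one]⟩
  · exact ⟨_, h1, by linarith, val_flat hδ hR ω h⟩
  · exact ⟨_, h2, by linarith, val_flat' hδ hR hL ω h⟩
  · exact ⟨_, h3, by linarith, val_rankOne hδ ω h⟩
  · exact ⟨_, h4, by linarith, val_rankOne' hδ hL ω h⟩

end values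

theorem exists_scale {p : ℝ} (hp : 0 < p) (m M : ℕ) {Q ε : ℝ} (hQ : 0 < Q) (hε : 0 < ε) :
    ∃ δ : ℝ, 0 < δ ∧ ((m : ℝ) + 1) * (δ * M) ≤ 1 ∧ δ ^ p * Q ≤ ε := by
  refine ⟨min (1 / (((m : ℝ) + 1) * (M + 1))) ((ε / Q) ^ (1 / p)), by positivity, ?_, ?_⟩
  · calc ((m : ℝ) + 1) * (min (1 / (((m : ℝ) + 1) * (M + 1))) ((ε / Q) ^ (1 / p)) * M)
        ≤ ((m : ℝ) + 1) * (1 / (((m : ℝ) + 1) * (M + 1)) * (M + 1)) := by
          gcongr
          · exact min_le_left _ _
          · linarith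
      _ = 1 := by field_simp
  · calc (min (1 / (((m : ℝ) + 1) * (M + 1))) ((ε / Q) ^ (1 / p))) ^ p * Q
        ≤ ((ε / Q) ^ (1 / p)) ^ p * Q := by
          gcongr
          exact min_le_right _ _
      _ = ε := by
          rw [← Real.rpow_mul (by positivity), one_div_mul_cancel hp.ne', Real.rpow_one,
            div_mul_cancel₀ _ hQ.ne']

/-- No Borel reduction for `p ≠ 2`. -/
theorem not_reducible {p : ℝ} (hp : 1 ≤ p) (hp2 : p ≠ 2) {H : Type*} [NormedAddCommGroup H]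
    [InnerProductSpace ℂ H] [CompleteSpace H] [TopologicalSpace.SeparableSpace H]
    (hH : ¬ FiniteDimensional ℂ H) {F : (H →L[ℂ] H) → ℕ → ℝ}
    (hF : Measurable[weakBorel H] F)
    (hred : ∀ a b, IsSchatten p (a - b) ↔ Summable fun n => |F a n - F b n| ^ p) : False := by
  classical
  have hp0 : 0 < p := by linarith
  -- parameters
  have hpar := fun k : ℕ => exists_parameters hp hp2 (K := 2 ^ k) (one_le_pow₀ one_le_two)
  choose m R L M hmR hL hobs using hpar
  have hR : ∀ k, 0 < R k := by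
    intro k
    rcases Nat.eq_zero_or_pos (R k) with h | h
    · have := hmR k
      rw [h] at this
      simp at this
    · exact h
  have hQ : ∀ k, 0 < valBound p (m k) (R k) (L k) := by
    intro k
    unfold valBound
    positivity
  choose δ hδ0 hδ1 hδ2 using fun k : ℕ =>
    exists_scale hp0 (m k) (M k) (hQ k) (ε := (1 / 2) ^ k) (by positivity)
  -- the basis
  have hinf : Infinite (Σ i : ℕ × ℕ, Fin (m i.1 + 1)) :=
    Infinite.of_injective (fun i : ℕ × ℕ => (⟨i, 0⟩ : Σ i : ℕ × ℕ, Fin (m i.1 + 1)))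
      fun i j h => congrArg Sigma.fst h
  let hden : Denumerable (Σ i : ℕ × ℕ, Fin (m i.1 + 1)) := Denumerable.ofEncodableOfInfinite _
  obtain ⟨e⟩ := exists_basis hH (Σ i : ℕ × ℕ, Fin (m i.1 + 1))
  -- the operators
  have hw : ∀ (i : ℕ × ℕ) (g : Grid (m i.1) (M i.1)) (l l' : Fin (m i.1 + 1)),
      (Fintype.card (Fin (m i.1 + 1)) : ℝ) * |gridMat (δ i.1) g l l'| ≤ 1 := by
    intro i g l l'
    have hg : ((g (l, l') : ℕ) : ℝ) ≤ M i.1 := by
      exact_mod_cast Nat.lt_succ_iff.1 (g (l, l')).2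
    have hδ := hδ0 i.1
    rw [Fintype.card_fin, gridMat, abs_of_nonneg (by positivity)]
    push_cast
    exact le_trans (by gcongr) (hδ1 i.1)
  let T : (∀ i : ℕ × ℕ, Grid (m i.1) (M i.1)) → (H →L[ℂ] H) := fun x =>
    blockOp e (fun i => gridMat (δ i.1) (x i)) (fun i => hw i (x i))
  let _ : MeasurableSpace (∀ i : ℕ × ℕ, Grid (m i.1) (M i.1)) := borel _
  have hborel : BorelSpace (∀ i : ℕ × ℕ, Grid (m i.1) (M i.1)) := ⟨rfl⟩
  have hT : @Measurable _ _ _ (weakBorel H) T := by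
    rw [measurable_iff_comap_le]
    simp only [weakBorel, MeasurableSpace.comap_iSup, MeasurableSpace.comap_comp]
    refine iSup₂_le fun ξ η => ?_
    have h1 := measurable_blockOp (G := fun i : ℕ × ℕ => Grid (m i.1) (M i.1)) e
      (w := fun i g => gridMat (δ i.1) g) hw ξ η
    rw [BorelSpace.measurable_eq (α := ℂ)] at h1
    exact measurable_iff_comap_le.1 h1
  have hθ : ∀ n, Measurable fun x => F (T x) n := by
    intro n
    have h1 : @Measurable _ _ (weakBorel H) _ (fun a => F a n) :=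
      (@measurable_pi_iff _ _ _ (weakBorel H) _ _).1 hF n
    exact h1.comp hT
  -- action on the basis
  have hact : ∀ x y : ∀ i : ℕ × ℕ, Grid (m i.1) (M i.1),
      ActsBy e (T y - T x) (fun i => gridMat (δ i.1) (y i) - gridMat (δ i.1) (x i)) := by
    intro x y i l
    change (T y - T x) (e ⟨i, l⟩) =
      ∑ l', (((gridMat (δ i.1) (y i) - gridMat (δ i.1) (x i)) l' l : ℝ) : ℂ) • e ⟨i, l'⟩
    rw [sub_apply, blockOp_basis, blockOp_basis, ← Finset.sum_sub_distrib]
    refine Finset.sum_congr rfl fun l' _ => ?_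
    rw [Matrix.sub_apply, Complex.ofReal_sub, sub_smul]
  have hfin : ∀ x y : ∀ i : ℕ × ℕ, Grid (m i.1) (M i.1),
      (∃ S : Finset (ℕ × ℕ), ∀ i ∉ S, x i = y i) →
      Summable fun n => |F (T x) n - F (T y) n| ^ p := by
    rintro x y ⟨S, hS⟩
    rw [← hred]
    refine isSchatten_of_finite (e := e) hp0 S fun i hi l => ?_
    have h0 : gridMat (δ i.1) (x i) - gridMat (δ i.1) (y i) = 0 := by rw [hS i hi, sub_self]
    have h1 : (T x - T y) (e ⟨i, l⟩) =
      ∑ l', (((gridMat (δ i.1) (x i) - gridMat (δ i.1) (y i)) l' l : ℝ) : ℂ) • e ⟨i, l'⟩ :=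
      hact y x i l
    rw [h1, h0]
    simp
  have hiff : ∀ x y : ∀ i : ℕ × ℕ, Grid (m i.1) (M i.1),
      (∀ i, x i = y i ∨ Displaced (m i.1) (R i.1) (L i.1) (M i.1) (x i) (y i)) →
      ((Summable fun i : ℕ × ℕ =>
        blockVal p (gridMat (δ i.1) (y i) - gridMat (δ i.1) (x i))) ↔
        Summable fun n => |F (T x) n - F (T y) n| ^ p) := by
    intro x y hxy
    have hs : ∀ i : ℕ × ℕ, ∃ s : ℝ, 0 < s ∧
        (gridMat (δ i.1) (y i) - gridMat (δ i.1) (x i)) *
          (gridMat (δ i.1) (y i) - gridMat (δ i.1) (x i)).transpose *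
          (gridMat (δ i.1) (y i) - gridMat (δ i.1) (x i)) =
          s • (gridMat (δ i.1) (y i) - gridMat (δ i.1) (x i)) := by
      intro i
      rcases hxy i with h | ⟨d, hd, h⟩
      · refine ⟨1, one_pos, ?_⟩
        rw [h, sub_self]
        simp
      · rw [gridMat_sub _ h]
        exact exists_identity_of_isDir (hR i.1) (hL i.1) hd (hδ0 i.1)
    choose s hs0 hs1 using hs
    have h1 := isSchatten_iff_summable (hact x y) hp0 hs0 hs1
    have h2 : (fun n => |F (T x) n - F (T y) n| ^ p) = fun n => |F (T y) n - F (T x) n| ^ p := by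
      funext n
      rw [abs_sub_comm]
    rw [h2, ← hred, h1]
    refine summable_congr fun i => ?_
    exact blockVal_eq p (hs0 i) (hs1 i)
  have hD0 : ∀ k (u v : Grid (m k) (M k)), Displaced (m k) (R k) (L k) (M k) u v →
      0 < blockVal p (gridMat (δ k) v - gridMat (δ k) u) := by
    intro k u v h
    obtain ⟨c, hc, -, h⟩ := val_displaced (p := p) (hδ0 k) (hR k) (hL k) h
    have := hδ0 k
    rw [h]
    positivity
  have hD1 : ∀ k (u v : Grid (m k) (M k)), Displaced (m k) (R k) (L k) (M k) u v →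
      blockVal p (gridMat (δ k) v - gridMat (δ k) u) ≤ (1 / 2) ^ k := by
    intro k u v h
    obtain ⟨c, hc, hc', h⟩ := val_displaced (p := p) (hδ0 k) (hR k) (hL k) h
    have := hδ0 k
    rw [h]
    refine le_trans ?_ (hδ2 k)
    gcongr
  obtain ⟨k, W, Θ, h⟩ := exists_block (G := fun k => Grid (m k) (M k)) hp0
    (θ := fun x => F (T x)) hθ hfin
    (P := fun k u v => Displaced (m k) (R k) (L k) (M k) u v)
    (D := fun k u v => blockVal p (gridMat (δ k) v - gridMat (δ k) u))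
    hD0 hD1 (fun k u => by rw [sub_self, blockVal_zero]) hiff
  exact hobs k (δ k) (fun u v => blockVal p (gridMat (δ k) v - gridMat (δ k) u)) W Θ (hδ0 k)
    (fun u v c h => val_single (hδ0 k) c h)
    (fun u v ω h => val_flat (hδ0 k) (hR k) ω h)
    (fun u v ω h => val_flat' (hδ0 k) (hR k) (hL k) ω h)
    (fun u v ω h => val_rankOne (hδ0 k) ω h)
    (fun u v ω h => val_rankOne' (hδ0 k) (hL k) ω h) h

/-- The complete answer. -/
theorem reducible_iff {H : Type*} [NormedAddCommGroup H] [InnerProductSpace ℂ H]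
    [CompleteSpace H] [TopologicalSpace.SeparableSpace H] (hH : ¬ FiniteDimensional ℂ H)
    {p : ℝ} (hp : 1 ≤ p) :
    (∃ F : (H →L[ℂ] H) → ℕ → ℝ, Measurable[weakBorel H] F ∧
      ∀ a b, IsSchatten p (a - b) ↔ Summable fun n => |F a n - F b n| ^ p) ↔ p = 2 := by
  constructor
  · rintro ⟨F, hF, hred⟩
    by_contra hp2
    exact not_reducible hp hp2 hH hF hred
  · rintro rfl
    obtain ⟨b⟩ := exists_basis hH ℕ
    exact ⟨coeffs b, measurable_coeffs b, coeffs_iff b⟩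

end Pool.Agent.Lib.MP_ec05f5_lc
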