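import Pool.Agent.Lib.MP_ec05f5_lc.Additive

/-!
# Single blocks with two-sided estimates
-/

set_option autoImplicit false

namespace Pool.Agent.Lib.MP_ec05f5_lc

open Set Filter Topology
open scoped ENNReal

/-- A double series supported on finite sets `{k} × S k`, `k ∈ K`. -/
theorem summable_blocks {K : Set ℕ} {S : ℕ → Finset ℕ} {d : ℕ → ℕ → ℝ}
    (hd : ∀ k m, 0 ≤ d k m) :
    (Summable fun q : ℕ × ℕ => open Classical in if q.1 ∈ K ∧ q.2 ∈ S q.1 then d q.1 q.2 else 0) ↔
    Summable fun k => open Classical in if k ∈ K then ∑ m ∈ S k, d k m else 0 := by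
  classical
  have h0 : ∀ k, ∀ m ∉ S k, (if k ∈ K ∧ m ∈ S k then d k m else 0) = 0 := by
    intro k m hm
    rw [if_neg (fun h => hm h.2)]
  have h1 : ∀ k, Summable fun m => if k ∈ K ∧ m ∈ S k then d k m else 0 := fun k =>
    summable_of_ne_finset_zero (s := S k) (h0 k)
  have h2 : ∀ k, ∑' m, (if k ∈ K ∧ m ∈ S k then d k m else 0) =
      if k ∈ K then ∑ m ∈ S k, d k m else 0 := by
    intro k
    rw [tsum_eq_sum (s := S k) (h0 k)]
    by_cases hk : k ∈ K
    · rw [if_pos hk]
      exact Finset.sum_congr rfl fun m hm => by rw [if_pos ⟨hk, hm⟩]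
    · rw [if_neg hk]
      exact Finset.sum_eq_zero fun m _ => by rw [if_neg (fun h => hk h.1)]
  rw [summable_prod_of_nonneg]
  · constructor
    · intro h
      refine (summable_congr fun k => ?_).1 h.2
      exact h2 k
    · intro h
      refine ⟨h1, (summable_congr fun k => ?_).2 h⟩
      exact h2 k
  · intro q
    simp only [Pi.zero_apply]
    split_ifs
    · exact hd _ _
    · exact le_rfl

theorem not_summable_of_one_le {K : Set ℕ} (hK : K.Infinite) {a : ℕ → ℝ}
    (h : ∀ k ∈ K, 1 ≤ a k) : ¬ Summable a := by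
  intro hs
  have h1 := hs.tendsto_cofinite_zero
  have h2 : ∀ᶠ k in cofinite, a k < 1 := h1.eventually_lt_const (by norm_num)
  rw [eventually_cofinite] at h2
  exact hK (h2.subset fun k hk => not_lt.2 (h k hk))

/-- The pigeonhole argument. -/
theorem exists_block {G : ℕ → Type*} [∀ k, Finite (G k)] [∀ k, Nonempty (G k)]
    [∀ k, TopologicalSpace (G k)] [∀ k, DiscreteTopology (G k)]
    [MeasurableSpace (∀ i : ℕ × ℕ, G i.1)] [BorelSpace (∀ i : ℕ × ℕ, G i.1)]
    {p : ℝ} (hp : 0 < p) {θ : (∀ i : ℕ × ℕ, G i.1) → ℕ → ℝ}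
    (hθ : ∀ n, Measurable fun x => θ x n)
    (hfin : ∀ x y : ∀ i : ℕ × ℕ, G i.1, (∃ S : Finset (ℕ × ℕ), ∀ i ∉ S, x i = y i) →
      Summable fun n => |θ x n - θ y n| ^ p)
    {P : ∀ k, G k → G k → Prop} {D : ∀ k, G k → G k → ℝ}
    (hD0 : ∀ k u v, P k u v → 0 < D k u v) (hD1 : ∀ k u v, P k u v → D k u v ≤ (1 / 2) ^ k)
    (hDd : ∀ k u, D k u u = 0)
    (hiff : ∀ x y : ∀ i : ℕ × ℕ, G i.1, (∀ i, x i = y i ∨ P i.1 (x i) (y i)) →
      ((Summable fun i : ℕ × ℕ => D i.1 (x i) (y i)) ↔
        Summable fun n => |θ x n - θ y n| ^ p)) :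
    ∃ (k : ℕ) (W : Finset ℕ) (Θ : G k → ℕ → ℝ), ∀ u v, P k u v →
      D k u v ≤ 2 ^ k * ∑ j ∈ W, |Θ u j - Θ v j| ^ p ∧
      ∑ j ∈ W, |Θ u j - Θ v j| ^ p ≤ 2 ^ k * D k u v := by
  classical
  obtain ⟨z, c, W, hc, hadd⟩ := exists_additive hp hθ hfin
  by_contra hcon
  push Not at hcon
  -- the contribution of the coordinate `(k, c k m)`
  let D' : ∀ k, ℕ → G k → G k → ℝ := fun k m u v => ∑ j ∈ W (k, m),
    |θ (Function.update z (k, c k m) u) j - θ (Function.update z (k, c k m) v) j| ^ p
  have hD'0 : ∀ k m u v, 0 ≤ D' k m u v := fun k m u v =>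
    Finset.sum_nonneg fun j _ => by positivity
  have hD'd : ∀ k m u, D' k m u u = 0 := by
    intro k m u
    refine Finset.sum_eq_zero fun j _ => ?_
    rw [sub_self, abs_zero, Real.zero_rpow hp.ne']
  have hviol : ∀ k m, ∃ q : G k × G k × Bool, P k q.1 q.2.1 ∧
      (q.2.2 = true → 2 ^ k * D k q.1 q.2.1 < D' k m q.1 q.2.1) ∧
      (q.2.2 = false → 2 ^ k * D' k m q.1 q.2.1 < D k q.1 q.2.1) := by
    intro k m
    obtain ⟨u, v, huv, h⟩ := hcon k (W (k, m)) (fun u => θ (Function.update z (k, c k m) u))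
    by_cases h1 : D k u v ≤ 2 ^ k * D' k m u v
    · exact ⟨(u, v, true), huv, fun _ => h h1, fun h' => by simp at h'⟩
    · exact ⟨(u, v, false), huv, fun h' => by simp at h', fun _ => not_le.1 h1⟩
  choose Q hQ1 hQ2 hQ3 using hviol
  have hpig : ∀ k, ∃ q : G k × G k × Bool, (Q k ⁻¹' {q}).Infinite := by
    intro k
    obtain ⟨q, hq⟩ := Finite.exists_infinite_fiber (Q k)
    exact ⟨q, Set.infinite_coe_iff.1 hq⟩
  choose q hq using hpig
  have hqP : ∀ k, P k (q k).1 (q k).2.1 := by
    intro k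
    obtain ⟨m, hm⟩ := (hq k).nonempty
    have : Q k m = q k := hm
    rw [← this]
    exact hQ1 k m
  -- for every choice of finite sets of copies
  have key : ∀ (K : Set ℕ) (S : ℕ → Finset ℕ),
      (Summable fun k => if k ∈ K then ∑ m ∈ S k, D k (q k).1 (q k).2.1 else 0) ↔
      (Summable fun k => if k ∈ K then ∑ m ∈ S k, D' k m (q k).1 (q k).2.1 else 0) := by
    intro K S
    let x : ∀ i : ℕ × ℕ, G i.1 := fun i =>
      if i.1 ∈ K ∧ i.2 ∈ S i.1 then (q i.1).1 else z (i.1, 0)
    let y : ∀ i : ℕ × ℕ, G i.1 := fun i =>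
      if i.1 ∈ K ∧ i.2 ∈ S i.1 then (q i.1).2.1 else z (i.1, 0)
    have hxy : ∀ i, emb c z x i = emb c z y i ∨ P i.1 (emb c z x i) (emb c z y i) := by
      intro i
      by_cases h : ∃ m, c i.1 m = i.2
      · obtain ⟨k, a⟩ := i
        obtain ⟨m, hm⟩ := h
        replace hm : c k m = a := hm
        subst hm
        rw [emb_apply hc, emb_apply hc]
        by_cases h' : k ∈ K ∧ m ∈ S k
        · right
          simp only [x, y, if_pos h']
          exact hqP k
        · left
          simp only [x, y, if_neg h']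
      · left
        push Not at h
        rw [emb_apply_of_not _ _ _ h, emb_apply_of_not _ _ _ h]
    have h1 := hiff _ _ hxy
    rw [hadd x y] at h1
    have h2 : (Summable fun i : ℕ × ℕ => D i.1 (emb c z x i) (emb c z y i)) ↔
        Summable fun k => if k ∈ K then ∑ m ∈ S k, D k (q k).1 (q k).2.1 else 0 := by
      rw [← summable_blocks (fun k m => (hD0 _ _ _ (hqP k)).le)]
      have hinj : Function.Injective fun r : ℕ × ℕ => (r.1, c r.1 r.2) := by
        rintro ⟨k, m⟩ ⟨k', m'⟩ h
        simp only [Prod.mk.injEq] at h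
        obtain ⟨rfl, h⟩ := h
        rw [hc k h]
      rw [← hinj.summable_iff]
      · refine summable_congr fun r => ?_
        obtain ⟨k, m⟩ := r
        simp only [Function.comp]
        rw [emb_apply hc, emb_apply hc]
        by_cases h' : k ∈ K ∧ m ∈ S k
        · simp only [x, y, if_pos h']
        · simp only [x, y, if_neg h', hDd]
      · rintro ⟨k, a⟩ ha
        have : ∀ m, c k m ≠ a := fun m e => ha ⟨(k, m), by simp [e]⟩
        rw [emb_apply_of_not z x (k, a) this, emb_apply_of_not z y (k, a) this, hDd]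
    have h3 : (Summable fun r : ℕ × ℕ => ∑ j ∈ W r,
          |θ (Function.update z (r.1, c r.1 r.2) (x r)) j -
            θ (Function.update z (r.1, c r.1 r.2) (y r)) j| ^ p) ↔
        Summable fun k => if k ∈ K then ∑ m ∈ S k, D' k m (q k).1 (q k).2.1 else 0 := by
      rw [← summable_blocks (fun k m => hD'0 k m _ _)]
      refine summable_congr fun r => ?_
      obtain ⟨k, m⟩ := r
      change D' k m (x (k, m)) (y (k, m)) = _
      by_cases h' : k ∈ K ∧ m ∈ S k
      · simp only [x, y, if_pos h']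
      · simp only [x, y, if_neg h', hD'd]
    rw [← h2, ← h3]
    exact h1
  have hgeom : Summable fun k : ℕ => 2 * (1 / 2 : ℝ) ^ k :=
    (summable_geometric_of_lt_one (by norm_num) (by norm_num)).mul_left 2
  -- one of the two kinds of violation occurs infinitely often
  have hkind : {k | (q k).2.2 = true}.Infinite ∨ {k | (q k).2.2 = false}.Infinite := by
    by_contra h
    rw [not_or, Set.not_infinite, Set.not_infinite] at h
    have : (Set.univ : Set ℕ) ⊆ {k | (q k).2.2 = true} ∪ {k | (q k).2.2 = false} := by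
      intro k _
      cases hk : (q k).2.2
      · right; exact hk
      · left; exact hk
    exact Set.infinite_univ ((h.1.union h.2).subset this)
  rcases hkind with hK | hK
  · -- upper violations
    obtain ⟨K, hK, hKq⟩ : ∃ K : Set ℕ, K.Infinite ∧ ∀ k ∈ K, (q k).2.2 = true :=
      ⟨_, hK, fun k hk => hk⟩
    have hS : ∀ k, ∃ S : Finset ℕ, (S : Set ℕ) ⊆ Q k ⁻¹' {q k} ∧
        S.card = ⌈(1 / 2) ^ k / D k (q k).1 (q k).2.1⌉₊ := fun k =>
      (hq k).exists_subset_card_eq _
    choose S hS1 hS2 using hS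
    have hsum : Summable fun k => if k ∈ K then ∑ m ∈ S k, D k (q k).1 (q k).2.1 else 0 := by
      refine Summable.of_nonneg_of_le (fun k => ?_) (fun k => ?_) hgeom
      · split_ifs
        · exact Finset.sum_nonneg fun m _ => (hD0 _ _ _ (hqP k)).le
        · exact le_rfl
      · split_ifs
        · rw [Finset.sum_const, hS2, nsmul_eq_mul]
          have h1 := hD0 _ _ _ (hqP k)
          have h2 := hD1 _ _ _ (hqP k)
          have h3 : (⌈(1 / 2) ^ k / D k (q k).1 (q k).2.1⌉₊ : ℝ) ≤
              (1 / 2) ^ k / D k (q k).1 (q k).2.1 + 1 := (Nat.ceil_lt_add_one (by positivity)).le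
          calc _ ≤ ((1 / 2) ^ k / D k (q k).1 (q k).2.1 + 1) * D k (q k).1 (q k).2.1 := by gcongr
            _ = (1 / 2) ^ k + D k (q k).1 (q k).2.1 := by field_simp
            _ ≤ 2 * (1 / 2) ^ k := by linarith
        · positivity
    refine not_summable_of_one_le hK (fun k hk => ?_) ((key K S).1 hsum)
    rw [if_pos hk]
    have h1 := hD0 _ _ _ (hqP k)
    calc (1 : ℝ) = 2 ^ k * (1 / 2) ^ k := by rw [← mul_pow]; norm_num
      _ = 2 ^ k * ((1 / 2) ^ k / D k (q k).1 (q k).2.1 * D k (q k).1 (q k).2.1) := by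
          rw [div_mul_cancel₀ _ h1.ne']
      _ ≤ 2 ^ k * ((S k).card * D k (q k).1 (q k).2.1) := by
          gcongr
          rw [hS2]
          exact Nat.le_ceil _
      _ = ∑ m ∈ S k, 2 ^ k * D k (q k).1 (q k).2.1 := by
          rw [Finset.sum_const, nsmul_eq_mul]; ring
      _ ≤ ∑ m ∈ S k, D' k m (q k).1 (q k).2.1 := by
          refine Finset.sum_le_sum fun m hm => ?_
          have hm' : Q k m = q k := hS1 k hm
          have := hQ2 k m
          rw [hm'] at this
          exact (this (hKq k hk)).le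
  · -- lower violations
    obtain ⟨K, hK, hKq⟩ : ∃ K : Set ℕ, K.Infinite ∧ ∀ k ∈ K, (q k).2.2 = false :=
      ⟨_, hK, fun k hk => hk⟩
    have hS : ∀ k, ∃ S : Finset ℕ, (S : Set ℕ) ⊆ Q k ⁻¹' {q k} ∧
        S.card = ⌈1 / D k (q k).1 (q k).2.1⌉₊ := fun k =>
      (hq k).exists_subset_card_eq _
    choose S hS1 hS2 using hS
    have hsum : Summable fun k => if k ∈ K then ∑ m ∈ S k, D' k m (q k).1 (q k).2.1 else 0 := by
      refine Summable.of_nonneg_of_le (fun k => ?_) (fun k => ?_) hgeom
      · split_ifs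
        · exact Finset.sum_nonneg fun m _ => hD'0 _ _ _ _
        · exact le_rfl
      · split_ifs with hk
        · have h1 := hD0 _ _ _ (hqP k)
          have h2 : D k (q k).1 (q k).2.1 ≤ 1 :=
            (hD1 _ _ _ (hqP k)).trans (pow_le_one₀ (by norm_num) (by norm_num))
          have h3 : (⌈1 / D k (q k).1 (q k).2.1⌉₊ : ℝ) ≤
              1 / D k (q k).1 (q k).2.1 + 1 := (Nat.ceil_lt_add_one (by positivity)).le
          calc ∑ m ∈ S k, D' k m (q k).1 (q k).2.1
              ≤ ∑ m ∈ S k, (1 / 2) ^ k * D k (q k).1 (q k).2.1 := by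
                refine Finset.sum_le_sum fun m hm => ?_
                have hm' : Q k m = q k := hS1 k hm
                have := hQ3 k m
                rw [hm'] at this
                have h4 := (this (hKq k hk)).le
                calc D' k m (q k).1 (q k).2.1
                    = (1 / 2) ^ k * (2 ^ k * D' k m (q k).1 (q k).2.1) := by
                      rw [← mul_assoc, ← mul_pow]; norm_num
                  _ ≤ _ := by gcongr
            _ = (1 / 2) ^ k * ((⌈1 / D k (q k).1 (q k).2.1⌉₊ : ℝ) * D k (q k).1 (q k).2.1) := by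
                rw [Finset.sum_const, hS2, nsmul_eq_mul]; ring
            _ ≤ (1 / 2) ^ k * ((1 / D k (q k).1 (q k).2.1 + 1) * D k (q k).1 (q k).2.1) := by
                gcongr
            _ = (1 / 2) ^ k * (1 + D k (q k).1 (q k).2.1) := by field_simp
            _ ≤ (1 / 2) ^ k * (1 + 1) := by gcongr
            _ = 2 * (1 / 2) ^ k := by ring
        · positivity
    refine not_summable_of_one_le hK (fun k hk => ?_) ((key K S).2 hsum)
    rw [if_pos hk, Finset.sum_const, hS2, nsmul_eq_mul]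
    have h1 := hD0 _ _ _ (hqP k)
    calc (1 : ℝ) = 1 / D k (q k).1 (q k).2.1 * D k (q k).1 (q k).2.1 := by
          rw [one_div_mul_cancel h1.ne']
      _ ≤ _ := by
          gcongr
          exact Nat.le_ceil _

end Pool.Agent.Lib.MP_ec05f5_lc
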