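import Mathlib

/-!
# Schatten classes and the Borel structure of `B(H)`
-/

set_option autoImplicit false

namespace Pool.Agent.Lib.MP_ec05f5_lc

open scoped InnerProductSpace ENNReal

variable {H : Type*} [NormedAddCommGroup H] [InnerProductSpace ℂ H]

/-- The Borel structure of `B(H)` generated by the maps `a ↦ ⟪a ξ, η⟫`. -/
@[reducible] noncomputable def weakBorel (H : Type*) [NormedAddCommGroup H] [InnerProductSpace ℂ H] :
    MeasurableSpace (H →L[ℂ] H) :=
  ⨆ (ξ : H) (η : H), MeasurableSpace.comap (fun a : H →L[ℂ] H => ⟪a ξ, η⟫_ℂ) (borel ℂ)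

variable [CompleteSpace H]

/-- `|x|^p = (x^* x)^{p/2}` -/
noncomputable def absPow (p : ℝ) (x : H →L[ℂ] H) : H →L[ℂ] H :=
  cfc (fun t : ℝ => t ^ (p / 2)) (star x * x)

/-- `x` belongs to the Schatten `p`-class: the trace of `|x|^p`, computed in an orthonormal basis,
is finite. -/
def IsSchatten (p : ℝ) (x : H →L[ℂ] H) : Prop :=
  ∃ b : HilbertBasis ℕ ℂ H, Summable fun n => (⟪b n, absPow p x (b n)⟫_ℂ).re

/-! ### Parseval and the independence of the basis -/

omit [CompleteSpace H] in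
theorem hasSum_norm_sq {ι : Type*} (b : HilbertBasis ι ℂ H) (x : H) :
    HasSum (fun i => ‖⟪b i, x⟫_ℂ‖ ^ 2) (‖x‖ ^ 2) := by
  have h := b.hasSum_inner_mul_inner x x
  have h2 := (Complex.hasSum_re h)
  have e : ∀ i, (⟪x, b i⟫_ℂ * ⟪b i, x⟫_ℂ).re = ‖⟪b i, x⟫_ℂ‖ ^ 2 := by
    intro i
    rw [← inner_conj_symm x (b i), ← Complex.normSq_eq_conj_mul_self, Complex.ofReal_re,
      Complex.normSq_eq_norm_sq]
  simp only [e] at h2
  have e2 : (⟪x, x⟫_ℂ).re = ‖x‖ ^ 2 := by
    rw [inner_self_eq_norm_sq_to_K]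
    norm_cast
  rwa [e2] at h2

/-- The sum of the `‖S b_i‖²` in `[0, ∞]`. -/
noncomputable def hsSum {ι : Type*} (b : ι → H) (S : H →L[ℂ] H) : ℝ≥0∞ :=
  ∑' i, ENNReal.ofReal (‖S (b i)‖ ^ 2)

omit [CompleteSpace H] in
theorem ofReal_norm_sq_eq {ι : Type*} (d : HilbertBasis ι ℂ H) (x : H) :
    ENNReal.ofReal (‖x‖ ^ 2) = ∑' i, ENNReal.ofReal (‖⟪d i, x⟫_ℂ‖ ^ 2) := by
  rw [← (hasSum_norm_sq d x).tsum_eq,
    ENNReal.ofReal_tsum_of_nonneg (fun i => by positivity) (hasSum_norm_sq d x).summable]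

theorem hsSum_eq {ι ι' : Type*} (b : HilbertBasis ι ℂ H) (c : HilbertBasis ι' ℂ H)
    (S : H →L[ℂ] H) : hsSum b S = hsSum c (star S) := by
  unfold hsSum
  calc ∑' i, ENNReal.ofReal (‖S (b i)‖ ^ 2)
      = ∑' i, ∑' j, ENNReal.ofReal (‖⟪c j, S (b i)⟫_ℂ‖ ^ 2) :=
        tsum_congr fun i => ofReal_norm_sq_eq c _
    _ = ∑' j, ∑' i, ENNReal.ofReal (‖⟪c j, S (b i)⟫_ℂ‖ ^ 2) := ENNReal.tsum_comm
    _ = ∑' j, ∑' i, ENNReal.ofReal (‖⟪b i, (star S) (c j)⟫_ℂ‖ ^ 2) := by
        refine tsum_congr fun j => tsum_congr fun i => ?_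
        congr 2
        rw [ContinuousLinearMap.star_eq_adjoint, ContinuousLinearMap.adjoint_inner_right,
          ← inner_conj_symm, RCLike.norm_conj]
    _ = ∑' j, ENNReal.ofReal (‖(star S) (c j)‖ ^ 2) :=
        tsum_congr fun j => (ofReal_norm_sq_eq b _).symm

omit [CompleteSpace H] in
theorem summable_iff_hsSum {ι : Type*} (b : ι → H) (S : H →L[ℂ] H) :
    (Summable fun i => ‖S (b i)‖ ^ 2) ↔ hsSum b S ≠ ∞ := by
  unfold hsSum
  constructor
  · intro h
    rw [← ENNReal.ofReal_tsum_of_nonneg (fun i => by positivity) h]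
    exact ENNReal.ofReal_ne_top
  · intro h
    have := ENNReal.summable_toReal h
    refine this.congr fun i => ?_
    rw [ENNReal.toReal_ofReal (by positivity)]

/-- For `T = S^* S` with `S` self-adjoint the trace does not depend on the basis. -/
theorem summable_basis_iff {ι ι' : Type*} (b : HilbertBasis ι ℂ H) (c : HilbertBasis ι' ℂ H)
    {T S : H →L[ℂ] H} (hS : star S = S) (hT : T = S * S) :
    (Summable fun i => (⟪b i, T (b i)⟫_ℂ).re) ↔ Summable fun i => (⟪c i, T (c i)⟫_ℂ).re := by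
  have e : ∀ x : H, (⟪x, T x⟫_ℂ).re = ‖S x‖ ^ 2 := by
    intro x
    rw [hT, mul_apply_eq_comp]
    nth_rewrite 1 [← hS]
    rw [ContinuousLinearMap.star_eq_adjoint, ContinuousLinearMap.adjoint_inner_right,
      inner_self_eq_norm_sq_to_K]
    norm_cast
  simp only [e]
  rw [summable_iff_hsSum, summable_iff_hsSum, hsSum_eq b c, hS]

/-! ### The continuous functional calculus on eigenvectors -/

theorem cfc_apply_eigenvector {a : H →L[ℂ] H} (ha : IsSelfAdjoint a) {v : H} {l : ℝ}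
    (hv : a v = (l : ℂ) • v) {f : ℝ → ℝ} (hf : Continuous f) :
    cfc f a v = ((f l : ℝ) : ℂ) • v := by
  rcases eq_or_ne v 0 with rfl | hv0
  · simp
  have hvn : 0 < ‖v‖ := norm_pos_iff.2 hv0
  have hl : |l| ≤ ‖a‖ := by
    have h1 : ‖a v‖ ≤ ‖a‖ * ‖v‖ := a.le_opNorm v
    rw [hv, norm_smul, Complex.norm_real, Real.norm_eq_abs] at h1
    exact le_of_mul_le_mul_right h1 hvn
  have hspec : ∀ x ∈ spectrum ℝ a, |x| ≤ ‖a‖ := by
    intro x hx
    have : Nontrivial H := ⟨v, 0, hv0⟩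
    have := spectrum.norm_le_norm_of_mem hx
    simpa using this
  have hpoly : ∀ q : Polynomial ℝ, cfc q.eval a v = ((q.eval l : ℝ) : ℂ) • v := by
    intro q
    rw [cfc_polynomial q a]
    induction q using Polynomial.induction_on' with
    | add p q hp hq =>
      rw [map_add, add_apply, hp, hq, Polynomial.eval_add]
      push_cast
      rw [add_smul]
    | monomial n c =>
      have hpow : ∀ n : ℕ, (a ^ n) v = ((l : ℂ) ^ n) • v := by
        intro n
        induction n with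
        | zero => simp
        | succ n ih =>
          rw [pow_succ', mul_apply_eq_comp, ih, map_smul, hv, smul_smul, pow_succ]
      rw [Polynomial.aeval_monomial, Polynomial.eval_monomial, Algebra.algebraMap_eq_smul_one,
        smul_mul_assoc, one_mul, smul_apply, hpow]
      push_cast
      rw [← smul_smul]
      rfl
  -- approximation by polynomials
  have key : ∀ ε : ℝ, 0 < ε → ‖cfc f a v - ((f l : ℝ) : ℂ) • v‖ ≤ 2 * ε * ‖v‖ := by
    intro ε hε
    obtain ⟨q, hq⟩ := exists_polynomial_near_of_continuousOn (-‖a‖) ‖a‖ f hf.continuousOn ε hε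
    have h1 : ‖cfc f a - cfc q.eval a‖ ≤ ε := by
      rw [← cfc_sub (fun x => f x) (fun x => q.eval x) a hf.continuousOn
        q.continuous.continuousOn]
      refine norm_cfc_le hε.le fun x hx => ?_
      have h2 := hspec x hx
      rw [abs_le] at h2
      have h3 := hq x ⟨h2.1, h2.2⟩
      rw [Real.norm_eq_abs, abs_sub_comm]
      exact h3.le
    have h2 : ‖(cfc f a - cfc q.eval a) v‖ ≤ ε * ‖v‖ :=
      (ContinuousLinearMap.le_opNorm _ _).trans (by gcongr)
    have h3 : ‖(((q.eval l : ℝ) : ℂ) - ((f l : ℝ) : ℂ)) • v‖ ≤ ε * ‖v‖ := by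
      rw [norm_smul]
      gcongr
      rw [← Complex.ofReal_sub, Complex.norm_real, Real.norm_eq_abs]
      rw [abs_le] at hl
      exact (hq l ⟨hl.1, hl.2⟩).le
    have e : cfc f a v - ((f l : ℝ) : ℂ) • v = (cfc f a - cfc q.eval a) v +
        (((q.eval l : ℝ) : ℂ) - ((f l : ℝ) : ℂ)) • v := by
      rw [sub_apply, hpoly q, sub_smul]
      abel
    rw [e]
    calc _ ≤ ε * ‖v‖ + ε * ‖v‖ := (norm_add_le _ _).trans (add_le_add h2 h3)
      _ = _ := by ring
  have h0 : ‖cfc f a v - ((f l : ℝ) : ℂ) • v‖ ≤ 0 := by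
    refine le_of_forall_pos_le_add fun ε hε => ?_
    have := key (ε / (2 * ‖v‖)) (by positivity)
    rw [zero_add]
    refine this.trans (le_of_eq ?_)
    field_simp
  exact sub_eq_zero.1 (norm_le_zero_iff.1 h0)

/-- If `a (a v) = s a v` with `s > 0` then `f(a) v = f(0) v + s⁻¹ (f(s) - f(0)) a v`; here for
`f(0) = 0`. -/
theorem cfc_apply_of_sq {a : H →L[ℂ] H} (ha : IsSelfAdjoint a) {v : H} {s : ℝ} (hs : 0 < s)
    (hv : a (a v) = (s : ℂ) • a v) {f : ℝ → ℝ} (hf : Continuous f) (hf0 : f 0 = 0) :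
    cfc f a v = ((f s / s : ℝ) : ℂ) • a v := by
  have hs' : (s : ℂ) ≠ 0 := by exact_mod_cast hs.ne'
  set e1 : H := (s : ℂ)⁻¹ • a v with he1
  set e0 : H := v - e1 with he0
  have h1 : a e1 = (s : ℂ) • e1 := by
    rw [he1, map_smul, hv, smul_smul, smul_smul, mul_comm]
  have h0 : a e0 = ((0 : ℝ) : ℂ) • e0 := by
    rw [Complex.ofReal_zero, zero_smul, he0, map_sub, h1, he1, smul_smul, mul_inv_cancel₀ hs',
      one_smul, sub_self]
  have hv' : v = e0 + e1 := by rw [he0]; abel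
  have h3 : cfc f a v = cfc f a e0 + cfc f a e1 := by
    rw [← map_add, ← hv']
  rw [h3, cfc_apply_eigenvector ha h0 hf, cfc_apply_eigenvector ha h1 hf, hf0]
  rw [Complex.ofReal_zero, zero_smul, zero_add, he1, smul_smul]
  push_cast
  rw [div_eq_mul_inv]

theorem continuous_rpow_half {p : ℝ} (hp : 0 ≤ p) : Continuous fun t : ℝ => t ^ (p / 2) :=
  Real.continuous_rpow_const (by positivity)

/-- `|x|^p` has a self-adjoint square root. -/
theorem exists_sqrt_absPow {p : ℝ} (hp : 0 < p) (x : H →L[ℂ] H) :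
    ∃ S : H →L[ℂ] H, star S = S ∧ absPow p x = S * S := by
  have hsa : IsSelfAdjoint (star x * x) := IsSelfAdjoint.star_mul_self x
  refine ⟨cfc (fun t : ℝ => t ^ (p / 2 / 2)) (star x * x), ?_, ?_⟩
  · exact (cfc_predicate (R := ℝ) (p := IsSelfAdjoint) _ _).star_eq
  · unfold absPow
    rw [← cfc_mul (fun t : ℝ => t ^ (p / 2 / 2)) (fun t : ℝ => t ^ (p / 2 / 2)) (star x * x)
      (Real.continuous_rpow_const (by positivity)).continuousOn
      (Real.continuous_rpow_const (by positivity)).continuousOn]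
    refine cfc_congr fun t ht => ?_
    have ht0 : 0 ≤ t := spectrum_nonneg_of_nonneg (star_mul_self_nonneg x) ht
    rw [← Real.rpow_add_of_nonneg ht0 (by positivity) (by positivity)]
    congr 1
    ring

theorem isSchatten_iff {p : ℝ} (hp : 0 < p) {ι : Type*} [Denumerable ι]
    (c : HilbertBasis ι ℂ H) (x : H →L[ℂ] H) :
    IsSchatten p x ↔ Summable fun i => (⟪c i, absPow p x (c i)⟫_ℂ).re := by
  obtain ⟨S, hS, hT⟩ := exists_sqrt_absPow hp x
  constructor
  · rintro ⟨b, hb⟩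
    exact (summable_basis_iff b c hS hT).1 hb
  · intro h
    let e : ℕ ≃ ι := (Denumerable.eqv ι).symm
    have hon : Orthonormal ℂ (fun n : ℕ => c (e n)) := c.orthonormal.comp _ e.injective
    have hsp : ⊤ ≤ (Submodule.span ℂ (Set.range fun n : ℕ => c (e n))).topologicalClosure := by
      have : (Set.range fun n : ℕ => c (e n)) = Set.range c := e.surjective.range_comp c
      rw [this, c.dense_span]
    refine ⟨HilbertBasis.mk hon hsp, ?_⟩
    exact (summable_basis_iff (HilbertBasis.mk hon hsp) c hS hT).2 h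

end Pool.Agent.Lib.MP_ec05f5_lc
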