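import Pool.Agent.Lib.MP_ec05f5_lc.Uniform

/-!
# Choice of sparse coordinates and of windows
-/

set_option autoImplicit false

namespace Pool.Agent.Lib.MP_ec05f5_lc

open Set Filter Topology
open scoped ENNReal

/-- `|a - b|^p ≤ 2^p (|a - c|^p + |c - b|^p)` -/
theorem abs_sub_rpow_le {p : ℝ} (hp : 0 ≤ p) (a b c : ℝ) :
    |a - b| ^ p ≤ 2 ^ p * (|a - c| ^ p + |c - b| ^ p) := by
  have h1 : |a - b| ≤ |a - c| + |c - b| := abs_sub_le a c b
  have h2 : |a - c| + |c - b| ≤ 2 * max |a - c| |c - b| := by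
    have := le_max_left |a - c| |c - b|
    have := le_max_right |a - c| |c - b|
    linarith
  calc |a - b| ^ p ≤ (2 * max |a - c| |c - b|) ^ p :=
        Real.rpow_le_rpow (abs_nonneg _) (h1.trans h2) hp
    _ = 2 ^ p * (max |a - c| |c - b|) ^ p :=
        Real.mul_rpow (by norm_num) (le_max_of_le_left (abs_nonneg _))
    _ ≤ 2 ^ p * (|a - c| ^ p + |c - b| ^ p) := by
        gcongr
        rcases le_total |a - c| |c - b| with h | h
        · rw [max_eq_right h]
          exact le_add_of_nonneg_left (by positivity)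
        · rw [max_eq_left h]
          exact le_add_of_nonneg_right (by positivity)

/-- Grouping a series with nonnegative terms into windows. -/
theorem summable_windows {a : ℕ → ℝ} (ha : ∀ j, 0 ≤ a j) {l : ℕ → ℕ} (hl : StrictMono l) :
    Summable a ↔ Summable fun n => ∑ j ∈ Finset.Ico (l n) (l (n + 1)), a j := by
  have hsum : ∀ N, ∑ n ∈ Finset.range N, ∑ j ∈ Finset.Ico (l n) (l (n + 1)), a j =
      ∑ j ∈ Finset.Ico (l 0) (l N), a j := by
    intro N
    induction N with
    | zero => simp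
    | succ N ih =>
      rw [Finset.sum_range_succ, ih, Finset.sum_Ico_consecutive _ (hl.monotone (Nat.zero_le _))
        (hl.monotone (Nat.le_succ _))]
  constructor
  · intro h
    refine summable_of_sum_range_le (c := ∑' j, a j) (fun n => Finset.sum_nonneg fun j _ => ha j)
      fun N => ?_
    rw [hsum]
    exact h.sum_le_tsum _ fun j _ => ha j
  · intro h
    refine summable_of_sum_range_le
      (c := ∑ j ∈ Finset.range (l 0), a j +
        ∑' n, ∑ j ∈ Finset.Ico (l n) (l (n + 1)), a j) ha fun N => ?_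
    have h1 : ∑ j ∈ Finset.range N, a j ≤ ∑ j ∈ Finset.range (l N), a j :=
      Finset.sum_le_sum_of_subset_of_nonneg (Finset.range_mono (hl.le_apply))
        fun j _ _ => ha j
    have h2 : ∑ j ∈ Finset.range (l N), a j =
        ∑ j ∈ Finset.range (l 0), a j + ∑ j ∈ Finset.Ico (l 0) (l N), a j := by
      rw [Finset.sum_range_add_sum_Ico _ (hl.monotone (Nat.zero_le _))]
    rw [h2, ← hsum] at h1
    refine h1.trans ?_
    gcongr
    exact h.sum_le_tsum _ fun n _ => Finset.sum_nonneg fun j _ => ha j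

/-- The recursive choice of coordinates, forbidden sets and windows. -/
theorem exists_selection (B : ℕ × ℕ → Bool)
    (h1 : ∀ k, ∀ S : Finset (ℕ × ℕ), ∃ i : ℕ × ℕ, i.1 = k ∧ i ∉ S ∧ B i = true)
    (L : Finset (ℕ × ℕ) → ℕ → ℕ) (Sf : ℕ → ℕ → Finset (ℕ × ℕ)) :
    ∃ (i : ℕ → ℕ × ℕ) (l : ℕ → ℕ), StrictMono l ∧ Function.Injective i ∧
      (∀ n, (i n).1 = (Nat.unpair n).1) ∧ (∀ n, B (i n) = true) ∧
      (∀ n, L ((Finset.range n).image i) n ≤ l n) ∧
      (∀ n m, n ≤ m → i m ∉ Sf (l n) n) := by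
  classical
  have h1' : ∀ k, ∀ S : Finset (ℕ × ℕ), ∃ c : ℕ, (k, c) ∉ S ∧ B (k, c) = true := by
    intro k S
    obtain ⟨⟨a, c⟩, rfl, h2, h3⟩ := h1 k S
    exact ⟨c, h2, h3⟩
  choose pick hp1 hp2 using h1'
  -- state: chosen coordinates, forbidden coordinates, window bound
  let step : ℕ → Finset (ℕ × ℕ) × Finset (ℕ × ℕ) × ℕ → Finset (ℕ × ℕ) × Finset (ℕ × ℕ) × ℕ :=
    fun n s =>
      let l' := max (s.2.2 + 1) (L s.1 n)
      let F' := s.2.1 ∪ Sf l' n
      (insert ((Nat.unpair n).1, pick (Nat.unpair n).1 (F' ∪ s.1)) s.1, F', l')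
  let st : ℕ → Finset (ℕ × ℕ) × Finset (ℕ × ℕ) × ℕ := fun n => Nat.rec (∅, ∅, 0) step n
  have hst : ∀ n, st (n + 1) = step n (st n) := fun n => rfl
  let i : ℕ → ℕ × ℕ := fun n =>
    ((Nat.unpair n).1, pick (Nat.unpair n).1 ((st (n + 1)).2.1 ∪ (st n).1))
  let l : ℕ → ℕ := fun n => (st (n + 1)).2.2
  have hP : ∀ n, (st (n + 1)).1 = insert (i n) (st n).1 := fun n => rfl
  have hP' : ∀ n, (st n).1 = (Finset.range n).image i := by
    intro n
    induction n with
    | zero => rfl
    | succ n ih => rw [hP, ih, Finset.range_add_one, Finset.image_insert]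
  have hl : ∀ n, l n = max ((st n).2.2 + 1) (L (st n).1 n) := fun n => rfl
  have hF : ∀ n, (st (n + 1)).2.1 = (st n).2.1 ∪ Sf (l n) n := fun n => rfl
  have hFm : ∀ n m, n ≤ m → (st n).2.1 ⊆ (st m).2.1 := by
    intro n m h
    induction h with
    | refl => exact subset_rfl
    | step h ih => exact ih.trans (by rw [Nat.succ_eq_add_one, hF]; exact Finset.subset_union_left)
  have hi1 : ∀ n, i n ∉ (st (n + 1)).2.1 ∪ (st n).1 := fun n => hp1 _ _
  have hinj : ∀ n m, n < m → i n ≠ i m := by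
    intro n m h e
    apply hi1 m
    rw [← e]
    refine Finset.mem_union_right _ ?_
    rw [hP']
    exact Finset.mem_image_of_mem _ (Finset.mem_range.2 h)
  refine ⟨i, l, ?_, ?_, fun n => rfl, fun n => hp2 _ _, ?_, ?_⟩
  · refine strictMono_nat_of_lt_succ fun n => ?_
    have : l (n + 1) = max (l n + 1) (L (st (n + 1)).1 (n + 1)) := rfl
    rw [this]
    exact (Nat.lt_succ_self _).trans_le (le_max_left _ _)
  · intro n m h
    rcases lt_trichotomy n m with h' | h' | h'
    · exact absurd h (hinj n m h')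
    · exact h'
    · exact absurd h.symm (hinj m n h')
  · intro n
    rw [← hP', hl]
    exact le_max_right _ _
  · intro n m h hmem
    apply hi1 m
    refine Finset.mem_union_left _ ?_
    apply hFm (n + 1) (m + 1) (by omega)
    rw [hF]
    exact Finset.mem_union_right _ hmem

end Pool.Agent.Lib.MP_ec05f5_lc
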