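import Mathlib

/-!
# Smoothing Lipschitz maps on grids

A map `F : ℤ^ι → E` which is Lipschitz for unit steps becomes nearly affine at small scales after
averaging over a large cube. This allows one to compare the displacements of `F` in two families
of directions which are comparable for linear maps.
-/

set_option autoImplicit false

namespace Pool.Agent.Lib.MP_ec05f5_lc

open Finset

variable {ι : Type*} [Fintype ι] [DecidableEq ι]
variable {E : Type*} [NormedAddCommGroup E] [NormedSpace ℝ E]

omit [NormedSpace ℝ E] in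
theorem norm_sub_le_of_steps_nat {g : ℕ → E} {η : ℝ} (n : ℕ)
    (h : ∀ t < n, ‖g (t + 1) - g t‖ ≤ η) : ‖g n - g 0‖ ≤ η * n := by
  induction n with
  | zero => simp
  | succ n ih =>
    have h1 := ih fun t ht => h t (by omega)
    have h2 := h n (by omega)
    calc ‖g (n + 1) - g 0‖ = ‖(g (n + 1) - g n) + (g n - g 0)‖ := by congr 1; abel
      _ ≤ η + η * n := (norm_add_le _ _).trans (add_le_add h2 h1)
      _ = η * ((n + 1 : ℕ) : ℝ) := by push_cast; ring

omit [NormedSpace ℝ E] in
theorem norm_sub_le_of_steps_int {g : ℤ → E} {η : ℝ} (T : ℤ)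
    (h : ∀ t : ℤ, |t| ≤ |T| → |t + 1| ≤ |T| → ‖g (t + 1) - g t‖ ≤ η) :
    ‖g T - g 0‖ ≤ η * |(T : ℝ)| := by
  rcases le_total 0 T with hT | hT
  · obtain ⟨n, rfl⟩ := Int.eq_ofNat_of_zero_le hT
    have := norm_sub_le_of_steps_nat (g := fun t : ℕ => g t) n fun t ht => by
      have := h t (by simp; omega) (by rw [abs_of_nonneg (by positivity)]; simp; omega)
      simpa using this
    simpa using this
  · obtain ⟨n, hn⟩ := Int.eq_ofNat_of_zero_le (neg_nonneg.2 hT)
    have hT' : T = -(n : ℤ) := by omega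
    subst hT'
    have := norm_sub_le_of_steps_nat (g := fun t : ℕ => g (-(t : ℤ))) n fun t ht => by
      have h1 := h (-((t : ℤ) + 1)) (by rw [abs_neg, abs_neg, abs_of_nonneg (by positivity)]; simp; omega)
        (by
          have : -((t : ℤ) + 1) + 1 = -(t : ℤ) := by ring
          rw [this, abs_neg, abs_neg]; simp; omega)
      have e : -((t : ℤ) + 1) + 1 = -(t : ℤ) := by ring
      rw [e, norm_sub_rev] at h1
      simpa using h1
    simpa using this

omit [NormedSpace ℝ E] in
/-- A map with unit steps bounded by `η` is `η`-Lipschitz for the `ℓ¹` distance. -/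
theorem norm_sub_le_of_unit_steps {F : (ι → ℤ) → E} {η : ℝ}
    (h : ∀ x c, ‖F (x + Pi.single c 1) - F x‖ ≤ η) (x y : ι → ℤ) :
    ‖F (x + y) - F x‖ ≤ η * ∑ c, |(y c : ℝ)| := by
  have key : ∀ s : Finset ι, ‖F (x + ∑ c ∈ s, Pi.single c (y c)) - F x‖ ≤
      η * ∑ c ∈ s, |(y c : ℝ)| := by
    intro s
    induction s using Finset.induction_on with
    | empty => simp
    | insert c s hc ih =>
      rw [Finset.sum_insert hc, Finset.sum_insert hc]
      have h1 : ‖F (x + (Pi.single c (y c) + ∑ c ∈ s, Pi.single c (y c))) -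
          F (x + ∑ c ∈ s, Pi.single c (y c))‖ ≤ η * |(y c : ℝ)| := by
        have := norm_sub_le_of_steps_int
          (g := fun t : ℤ => F (x + ∑ c ∈ s, Pi.single c (y c) + Pi.single c t)) (η := η) (y c)
          fun t _ _ => by
            rw [Pi.single_add, ← add_assoc]
            exact h _ _
        simp only [Pi.single_zero, add_zero] at this
        convert this using 4
        abel
      calc _ = ‖(F (x + (Pi.single c (y c) + ∑ c ∈ s, Pi.single c (y c))) -
            F (x + ∑ c ∈ s, Pi.single c (y c))) + (F (x + ∑ c ∈ s, Pi.single c (y c)) - F x)‖ := by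
              congr 1; abel
        _ ≤ η * |(y c : ℝ)| + η * ∑ c ∈ s, |(y c : ℝ)| :=
            (norm_add_le _ _).trans (add_le_add h1 ih)
        _ = _ := by ring
  have := key Finset.univ
  rwa [Finset.univ_sum_single] at this

/-- The cube `[0, s)^ι`. -/
noncomputable def cube (ι : Type*) [Fintype ι] [DecidableEq ι] (s : ℕ) : Finset (ι → ℤ) :=
  Fintype.piFinset fun _ => Finset.Ico (0 : ℤ) s

theorem mem_cube {s : ℕ} {z : ι → ℤ} : z ∈ cube ι s ↔ ∀ c, 0 ≤ z c ∧ z c < s := by
  simp [cube]

theorem card_cube (s : ℕ) : (cube ι s).card = s ^ Fintype.card ι := by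
  simp [cube, Fintype.card_piFinset]

theorem card_cube_ne_zero {s : ℕ} (hs : 0 < s) : ((cube ι s).card : ℝ) ≠ 0 := by
  rw [card_cube]
  positivity

/-- Averaging over translates by a cube. -/
noncomputable def smooth (s : ℕ) (F : (ι → ℤ) → E) (x : ι → ℤ) : E :=
  ((cube ι s).card : ℝ)⁻¹ • ∑ z ∈ cube ι s, F (x + z)

theorem norm_average_le {s : ℕ} (hs : 0 < s) {f : (ι → ℤ) → E} {C : ℝ}
    (h : ∀ z ∈ cube ι s, ‖f z‖ ≤ C) :
    ‖((cube ι s).card : ℝ)⁻¹ • ∑ z ∈ cube ι s, f z‖ ≤ C := by
  have h0 : (0 : ℝ) < (cube ι s).card :=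
    lt_of_le_of_ne (Nat.cast_nonneg _) (card_cube_ne_zero hs).symm
  rw [norm_smul, norm_inv, Real.norm_of_nonneg h0.le, inv_mul_le_iff₀ h0]
  refine (norm_sum_le _ _).trans ?_
  refine (Finset.sum_le_sum h).trans ?_
  rw [Finset.sum_const, nsmul_eq_mul]

theorem smooth_sub (s : ℕ) (F : (ι → ℤ) → E) (x y : ι → ℤ) :
    smooth s F (x + y) - smooth s F x =
      ((cube ι s).card : ℝ)⁻¹ • ∑ z ∈ cube ι s, (F (x + z + y) - F (x + z)) := by
  simp only [smooth]
  rw [← smul_sub, ← Finset.sum_sub_distrib]
  congr 1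
  refine Finset.sum_congr rfl fun z _ => ?_
  congr 2
  abel

theorem norm_smooth_sub_self_le {s : ℕ} (hs : 0 < s) {F : (ι → ℤ) → E}
    (h : ∀ x c, ‖F (x + Pi.single c 1) - F x‖ ≤ 1) (x : ι → ℤ) :
    ‖smooth s F x - F x‖ ≤ Fintype.card ι * s := by
  have e : smooth s F x - F x =
      ((cube ι s).card : ℝ)⁻¹ • ∑ z ∈ cube ι s, (F (x + z) - F x) := by
    rw [Finset.sum_sub_distrib, smul_sub, Finset.sum_const, ← Nat.cast_smul_eq_nsmul ℝ, smul_smul,
      inv_mul_cancel₀ (card_cube_ne_zero hs), one_smul]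
    rfl
  rw [e]
  refine norm_average_le hs fun z hz => ?_
  refine (norm_sub_le_of_unit_steps h x z).trans ?_
  rw [one_mul]
  calc ∑ c, |(z c : ℝ)| ≤ ∑ _c : ι, (s : ℝ) := by
        refine Finset.sum_le_sum fun c _ => ?_
        obtain ⟨h1, h2⟩ := mem_cube.1 hz c
        rw [abs_of_nonneg (by exact_mod_cast h1)]
        exact_mod_cast h2.le
    _ = _ := by simp

/-- Differences of averages over shifted cubes. -/
theorem norm_smooth_step_le {s : ℕ} (hs : 0 < s) {G : (ι → ℤ) → E} {C : ℝ} (hC : 0 ≤ C)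
    (h : ∀ x, ‖G x‖ ≤ C) (x : ι → ℤ) (c : ι) :
    ‖smooth s G (x + Pi.single c 1) - smooth s G x‖ ≤ 2 / s * C := by
  classical
  set S := cube ι s with hS
  set S' : Finset (ι → ℤ) := S.map (addRightEmbedding (Pi.single c (1 : ℤ))) with hS'
  set T : Finset (ι → ℤ) := Fintype.piFinset fun c' =>
    if c' = c then Finset.Ico (1 : ℤ) s else Finset.Ico (0 : ℤ) s with hT
  set P : ℕ := ∏ _c' ∈ Finset.univ.erase c, s with hP
  have hcardS : S.card = s * P := by
    rw [hS, card_cube, hP, Finset.prod_const, Finset.card_erase_of_mem (Finset.mem_univ _),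
      ← pow_succ', Finset.card_univ]
    congr 1
    have : 0 < Fintype.card ι := Fintype.card_pos_iff.2 ⟨c⟩
    omega
  have hcardT : T.card = (s - 1) * P := by
    rw [hT, Fintype.card_piFinset, ← Finset.mul_prod_erase _ _ (Finset.mem_univ c)]
    congr 1
    · simp
    · refine Finset.prod_congr rfl fun c' hc' => ?_
      rw [if_neg (Finset.ne_of_mem_erase hc')]
      simp
  have hcardS' : S'.card = s * P := by rw [hS', Finset.card_map, hcardS]
  have hTS : T ⊆ S := by
    intro z hz
    rw [hT, Fintype.mem_piFinset] at hz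
    rw [hS, mem_cube]
    intro c'
    have := hz c'
    split_ifs at this <;> simp only [Finset.mem_Ico] at this <;> omega
  have hTS' : T ⊆ S' := by
    intro z hz
    rw [hT, Fintype.mem_piFinset] at hz
    rw [hS', Finset.mem_map]
    refine ⟨z - Pi.single c 1, ?_, by simp⟩
    rw [hS, mem_cube]
    intro c'
    have := hz c'
    by_cases h' : c' = c
    · subst h'
      simp only [if_true, Finset.mem_Ico] at this
      simp only [Pi.sub_apply, Pi.single_eq_same]
      omega
    · simp only [h', if_false, Finset.mem_Ico] at this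
      simp only [Pi.sub_apply, Pi.single_apply, h', if_false, sub_zero]
      exact this
  have hc1 : (S \ S').card ≤ P := by
    have h1 : (S \ S') ⊆ S \ T := Finset.sdiff_subset_sdiff subset_rfl hTS'
    refine (Finset.card_le_card h1).trans ?_
    rw [Finset.card_sdiff_of_subset hTS, hcardS, hcardT, Nat.sub_one_mul]
    omega
  have hc2 : (S' \ S).card ≤ P := by
    have h1 : (S' \ S) ⊆ S' \ T := Finset.sdiff_subset_sdiff subset_rfl hTS
    refine (Finset.card_le_card h1).trans ?_
    rw [Finset.card_sdiff_of_subset hTS', hcardS', hcardT, Nat.sub_one_mul]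
    omega
  have e : smooth s G (x + Pi.single c 1) - smooth s G x =
      (S.card : ℝ)⁻¹ • (∑ z ∈ S' \ S, G (x + z) - ∑ z ∈ S \ S', G (x + z)) := by
    rw [Finset.sum_sdiff_sub_sum_sdiff]
    simp only [smooth]
    rw [← smul_sub]
    congr 2
    rw [hS', Finset.sum_map]
    refine Finset.sum_congr rfl fun z _ => ?_
    congr 1
    simp only [addRightEmbedding_apply]
    abel
  have hn : ∀ A : Finset (ι → ℤ), A.card ≤ P → ‖∑ z ∈ A, G (x + z)‖ ≤ P * C := by
    intro A hA
    refine (norm_sum_le _ _).trans ?_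
    refine (Finset.sum_le_sum fun z _ => h (x + z)).trans ?_
    rw [Finset.sum_const, nsmul_eq_mul]
    gcongr
  have hs' : (0 : ℝ) < s := by exact_mod_cast hs
  have hP0 : (0 : ℝ) < P := by
    rw [hP]; push_cast; exact Finset.prod_pos fun _ _ => hs'
  rw [e, norm_smul, norm_inv, Real.norm_of_nonneg (Nat.cast_nonneg _), hcardS]
  calc _ ≤ ((s * P : ℕ) : ℝ)⁻¹ * (P * C + P * C) := by
        gcongr
        exact (norm_sub_le _ _).trans (add_le_add (hn _ hc2) (hn _ hc1))
    _ = 2 / s * C := by push_cast; field_simp; ring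

omit [Fintype ι] in
theorem step_identity (f : (ι → ℤ) → E) (v x : ι → ℤ) (c : ι) (r : ℤ) :
    (f (v + Pi.single c (r + 1)) - ((r + 1 : ℤ) : ℝ) • (f (x + Pi.single c 1) - f x)) -
      (f (v + Pi.single c r) - (r : ℝ) • (f (x + Pi.single c 1) - f x)) =
      (f (v + Pi.single c r + Pi.single c 1) - f (v + Pi.single c r)) -
      (f (x + Pi.single c 1) - f x) := by
  have e1 : v + Pi.single (M := fun _ => ℤ) c (r + 1) = v + Pi.single c r + Pi.single c 1 := by
    rw [Pi.single_add, add_assoc]
  rw [e1]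
  push_cast
  rw [add_smul, one_smul]
  generalize f (v + Pi.single c r + Pi.single c 1) = u1
  generalize f (v + Pi.single c r) = u2
  generalize f (x + Pi.single c 1) - f x = u3
  generalize (r : ℝ) • u3 = u4
  abel

/-- Maps with Lipschitz first differences are nearly affine at small scales. -/
theorem norm_linear_le {f : (ι → ℤ) → E} {η : ℝ} (hη : 0 ≤ η) (x : ι → ℤ)
    (hlip : ∀ c (w : ι → ℤ), ‖(f (x + w + Pi.single c 1) - f (x + w)) -
      (f (x + Pi.single c 1) - f x)‖ ≤ η * ∑ c, |(w c : ℝ)|) (y : ι → ℤ) {A : ℝ}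
    (hA : ∑ c, |(y c : ℝ)| ≤ A) :
    ‖f (x + y) - f x - ∑ c, (y c : ℝ) • (f (x + Pi.single c 1) - f x)‖ ≤ η * A ^ 2 := by
  have hA0 : 0 ≤ A := (Finset.sum_nonneg fun c _ => abs_nonneg _).trans hA
  -- induction over the coordinates
  have key : ∀ t : Finset ι, ‖f (x + ∑ c ∈ t, Pi.single c (y c)) - f x -
      ∑ c ∈ t, (y c : ℝ) • (f (x + Pi.single c 1) - f x)‖ ≤ η * A * ∑ c ∈ t, |(y c : ℝ)| := by
    intro t
    induction t using Finset.induction_on with
    | empty => simp
    | insert c t hc ih =>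
      rw [Finset.sum_insert hc, Finset.sum_insert hc, Finset.sum_insert hc]
      have hwc : ∀ c', (∑ c ∈ t, Pi.single (M := fun _ => ℤ) c (y c)) c' =
          if c' ∈ t then y c' else 0 := by
        intro c'
        rw [Finset.sum_apply]
        simp only [Pi.single_apply]
        rw [Finset.sum_ite_eq]
      generalize (∑ c ∈ t, Pi.single (M := fun _ => ℤ) c (y c)) = w at hwc ih ⊢
      have hstep : ‖(f (x + w + Pi.single c (y c)) -
            ((y c : ℤ) : ℝ) • (f (x + Pi.single c 1) - f x))
          - (f (x + w + Pi.single c 0) - ((0 : ℤ) : ℝ) • (f (x + Pi.single c 1) - f x))‖ ≤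
          η * A * |(y c : ℝ)| := by
        refine norm_sub_le_of_steps_int
          (g := fun t : ℤ => f (x + w + Pi.single c t) - (t : ℝ) • (f (x + Pi.single c 1) - f x))
          (y c) fun r hr hr1 => ?_
        rw [step_identity]
        have e2 : x + w + Pi.single c r = x + (w + Pi.single c r) := add_assoc _ _ _
        rw [e2]
        refine (hlip c _).trans ?_
        gcongr
        refine le_trans ?_ hA
        refine Finset.sum_le_sum fun c' _ => ?_
        rw [Pi.add_apply, hwc]
        by_cases h1 : c' = c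
        · subst h1
          rw [if_neg hc, Pi.single_eq_same, zero_add]
          exact_mod_cast hr
        · rw [Pi.single_eq_of_ne h1, add_zero]
          split_ifs
          · exact le_rfl
          · simp
      simp only [Pi.single_zero, add_zero, Int.cast_zero, zero_smul, sub_zero] at hstep
      have e : f (x + (Pi.single c (y c) + w)) - f x -
          ((y c : ℝ) • (f (x + Pi.single c 1) - f x) +
            ∑ c ∈ t, (y c : ℝ) • (f (x + Pi.single c 1) - f x)) =
          (f (x + w + Pi.single c (y c)) - (y c : ℝ) • (f (x + Pi.single c 1) - f x) - f (x + w)) +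
          (f (x + w) - f x - ∑ c ∈ t, (y c : ℝ) • (f (x + Pi.single c 1) - f x)) := by
        have e1 : x + (Pi.single c (y c) + w) = x + w + Pi.single c (y c) := by
          rw [add_comm (Pi.single c (y c)) w, add_assoc]
        rw [e1]
        generalize f (x + w + Pi.single c (y c)) = u1
        generalize f (x + w) = u2
        generalize (y c : ℝ) • (f (x + Pi.single c 1) - f x) = u3
        generalize (∑ c ∈ t, (y c : ℝ) • (f (x + Pi.single c 1) - f x)) = u4
        generalize f x = u5
        abel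
      rw [e]
      calc _ ≤ η * A * |(y c : ℝ)| + η * A * ∑ c ∈ t, |(y c : ℝ)| :=
            (norm_add_le _ _).trans (add_le_add hstep ih)
        _ = _ := by ring
  have := key Finset.univ
  rw [Finset.univ_sum_single] at this
  refine this.trans ?_
  rw [pow_two, ← mul_assoc]
  gcongr

/-- Smoothed maps are nearly affine at small scales. -/
theorem norm_smooth_linear_le {s : ℕ} (hs : 0 < s) {F : (ι → ℤ) → E}
    (h : ∀ x c, ‖F (x + Pi.single c 1) - F x‖ ≤ 1) (x y : ι → ℤ) {A : ℝ}
    (hA : ∑ c, |(y c : ℝ)| ≤ A) :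
    ‖smooth s F (x + y) - smooth s F x -
      ∑ c, (y c : ℝ) • (smooth s F (x + Pi.single c 1) - smooth s F x)‖ ≤ 2 / s * A ^ 2 := by
  have hs' : (0 : ℝ) < s := by exact_mod_cast hs
  refine norm_linear_le (by positivity) x (fun c w => ?_) y hA
  have := norm_sub_le_of_unit_steps (F := smooth s fun x => F (x + Pi.single c 1) - F x)
    (η := 2 / s) (fun x c' => by
      simpa using norm_smooth_step_le hs zero_le_one (fun x => h x c) x c') x w
  have e : ∀ v, smooth s (fun x => F (x + Pi.single c 1) - F x) v =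
      smooth s F (v + Pi.single c 1) - smooth s F v := by
    intro v
    rw [smooth_sub]
    rfl
  rwa [e, e] at this

end Pool.Agent.Lib.MP_ec05f5_lc
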