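import Pool.Agent.Lib.MP_ec05f5_lc.GenericProduct

/-!
# Uniform estimates on a generic sub-product
-/

set_option autoImplicit false

namespace Pool.Agent.Lib.MP_ec05f5_lc

open Set Filter Topology
open scoped ENNReal

/-- The sum of the `p`-th powers of the coordinates of `a - b` from the `l`-th on. -/
noncomputable def tailSum (p : ℝ) (l : ℕ) (a b : ℕ → ℝ) : ℝ≥0∞ :=
  ∑' i, ENNReal.ofReal (|a (i + l) - b (i + l)| ^ p)

theorem tailSum_anti {p : ℝ} {a b : ℕ → ℝ} {l m : ℕ} (h : l ≤ m) :
    tailSum p m a b ≤ tailSum p l a b := by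
  obtain ⟨k, rfl⟩ := Nat.exists_eq_add_of_le h
  unfold tailSum
  have hinj : Function.Injective (fun i : ℕ => i + k) := add_left_injective k
  have := ENNReal.tsum_comp_le_tsum_of_injective hinj
    (fun i => ENNReal.ofReal (|a (i + l) - b (i + l)| ^ p))
  refine le_trans (le_of_eq ?_) this
  refine tsum_congr fun i => ?_
  have e : i + (l + k) = i + k + l := by omega
  rw [e]

theorem tendsto_tailSum {p : ℝ} {a b : ℕ → ℝ} (h : Summable fun i => |a i - b i| ^ p) :
    Tendsto (fun l => tailSum p l a b) atTop (𝓝 0) := by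
  have h1 : ∑' i, ENNReal.ofReal (|a i - b i| ^ p) ≠ ∞ := by
    rw [← ENNReal.ofReal_tsum_of_nonneg (fun i => by positivity) h]
    exact ENNReal.ofReal_ne_top
  exact ENNReal.tendsto_sum_nat_add _ h1

variable {I : Type*} {F : I → Type*}
variable [∀ i, TopologicalSpace (F i)] [∀ i, DiscreteTopology (F i)] [∀ i, Finite (F i)]

omit [∀ i, Finite (F i)] in
theorem isClosed_Sub (B : I → Bool) (z : ∀ i, F i) : IsClosed (Sub B z) := by
  have : Sub B z = ⋂ i, ⋂ (_ : B i = false), {x | x i = z i} := by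
    ext x; simp [Sub]
  rw [this]
  refine isClosed_iInter fun i => isClosed_iInter fun _ => ?_
  exact isClosed_eq (continuous_apply i) continuous_const

theorem isCompact_Sub (B : I → Bool) (z : ∀ i, F i) : IsCompact (Sub B z) :=
  (isClosed_Sub B z).isCompact

omit [∀ i, Finite (F i)] in
theorem exists_finset_uniform {K : Set (∀ i, F i)} (hK : IsCompact K) {f : (∀ i, F i) → ℝ}
    (hf : ContinuousOn f K) {ε : ℝ} (hε : 0 < ε) :
    ∃ S : Finset I, ∀ x ∈ K, ∀ y ∈ K, (∀ i ∈ S, x i = y i) → |f x - f y| ≤ ε := by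
  classical
  have h1 : ∀ x ∈ K, ∃ S : Finset I, ∀ y ∈ K, (∀ i ∈ S, y i = x i) → |f y - f x| < ε / 2 := by
    intro x hx
    have := Metric.continuousWithinAt_iff'.1 (hf x hx) (ε / 2) (by positivity)
    rw [eventually_nhdsWithin_iff] at this
    obtain ⟨U, hU, hUo, hxU⟩ := eventually_nhds_iff.1 this
    obtain ⟨S, hS⟩ := exists_finset_of_mem_open hUo hxU
    exact ⟨S, fun y hy h => by simpa [Real.dist_eq] using hU y (hS y h) hy⟩
  choose! S hS using h1
  obtain ⟨t, ht1, ht2⟩ := hK.elim_nhds_subcover (fun x => {y | ∀ i ∈ S x, y i = x i})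
    (fun x _ => (isOpen_cylinder (S x) x).mem_nhds fun _ _ => rfl)
  refine ⟨t.biUnion S, fun x hx y hy hxy => ?_⟩
  obtain ⟨w, hw, hwx⟩ := mem_iUnion₂.1 (ht2 hx)
  have hwK : w ∈ K := ht1 w hw
  have h2 := hS w hwK x hx hwx
  have h3 := hS w hwK y hy fun i hi => by
    rw [← hxy i (Finset.mem_biUnion.2 ⟨w, hw, hi⟩)]
    exact hwx i hi
  calc |f x - f y| = |(f x - f w) - (f y - f w)| := by ring_nf
    _ ≤ |f x - f w| + |f y - f w| := abs_sub _ _
    _ ≤ ε / 2 + ε / 2 := by gcongr
    _ = ε := by ring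

variable [Countable I] [MeasurableSpace (∀ i, F i)] [BorelSpace (∀ i, F i)]

omit [∀ i, DiscreteTopology (F i)] [∀ i, Finite (F i)] [Countable I] in
/-- A Borel real function is continuous on generic sub-products. -/
theorem residual_continuous {f : (∀ i, F i) → ℝ} (hf : Measurable f) :
    ∃ C ∈ residual (∀ i, F i), ContinuousOn f C := by
  have h1 : ∀ q : ℚ, ∃ U : Set (∀ i, F i), IsOpen U ∧ {x | f x < q} =ᵇ U := fun q =>
    (measurableSet_lt hf measurable_const).residualEq_isOpen
  have h2 : ∀ q : ℚ, ∃ U : Set (∀ i, F i), IsOpen U ∧ {x | (q : ℝ) < f x} =ᵇ U := fun q =>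
    (measurableSet_lt measurable_const hf).residualEq_isOpen
  choose U hUo hU using h1
  choose V hVo hV using h2
  refine ⟨{x | ∀ q : ℚ, (x ∈ {x | f x < q} ↔ x ∈ U q) ∧ (x ∈ {x | (q : ℝ) < f x} ↔ x ∈ V q)},
    ?_, ?_⟩
  · have : ∀ᶠ x in residual (∀ i, F i), ∀ q : ℚ,
        (x ∈ {x | f x < q} ↔ x ∈ U q) ∧ (x ∈ {x | (q : ℝ) < f x} ↔ x ∈ V q) := by
      rw [eventually_countable_forall]
      intro q
      filter_upwards [(hU q).mem_iff, (hV q).mem_iff] with x h1 h2 using ⟨h1, h2⟩
    exact this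
  · rw [continuousOn_iff_continuous_domRestrict, OrderTopology.continuous_iff]
    intro a
    constructor
    · have : (Set.domRestrict {x | ∀ q : ℚ, (x ∈ {x | f x < q} ↔ x ∈ U q) ∧
          (x ∈ {x | (q : ℝ) < f x} ↔ x ∈ V q)} f) ⁻¹' Ioi a =
          ⋃ (q : ℚ) (_ : a < q), Subtype.val ⁻¹' V q := by
        ext ⟨x, hx⟩
        simp only [mem_preimage, mem_Ioi, mem_iUnion, exists_prop]
        constructor
        · intro h
          obtain ⟨q, hq1, hq2⟩ := exists_rat_btwn h
          exact ⟨q, hq1, (hx q).2.1 hq2⟩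
        · rintro ⟨q, hq1, hq2⟩
          exact hq1.trans ((hx q).2.2 hq2)
      rw [this]
      exact isOpen_iUnion fun q => isOpen_iUnion fun _ => (hVo q).preimage continuous_subtype_val
    · have : (Set.domRestrict {x | ∀ q : ℚ, (x ∈ {x | f x < q} ↔ x ∈ U q) ∧
          (x ∈ {x | (q : ℝ) < f x} ↔ x ∈ V q)} f) ⁻¹' Iio a =
          ⋃ (q : ℚ) (_ : (q : ℝ) < a), Subtype.val ⁻¹' U q := by
        ext ⟨x, hx⟩
        simp only [mem_preimage, mem_Iio, mem_iUnion, exists_prop]
        constructor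
        · intro h
          obtain ⟨q, hq1, hq2⟩ := exists_rat_btwn h
          exact ⟨q, hq2, (hx q).1.1 hq1⟩
        · rintro ⟨q, hq1, hq2⟩
          exact ((hx q).1.2 hq2).trans hq1
      rw [this]
      exact isOpen_iUnion fun q => isOpen_iUnion fun _ => (hUo q).preimage continuous_subtype_val

omit [∀ i, DiscreteTopology (F i)] [∀ i, Finite (F i)] [Countable I] in
/-- Countably many Borel sets which increase to the whole space: generic sub-products lie in one
of them. -/
theorem residual_increasing {A : ℕ → Set (∀ i, F i)} (hA : ∀ l, MeasurableSet (A l))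
    (hmono : Monotone A) (hcov : ⋃ l, A l = univ) :
    ∃ C ∈ residual (∀ i, F i), ∀ K, IsCompact K → K ⊆ C → ∃ l, K ⊆ A l := by
  have h1 : ∀ l, ∃ U : Set (∀ i, F i), IsOpen U ∧ A l =ᵇ U := fun l => (hA l).residualEq_isOpen
  choose U hUo hU using h1
  refine ⟨{x | (∀ l, x ∈ A l ↔ x ∈ U l)}, ?_, ?_⟩
  · have : ∀ᶠ x in residual (∀ i, F i), ∀ l, x ∈ A l ↔ x ∈ U l := by
      rw [eventually_countable_forall]
      exact fun l => (hU l).mem_iff
    exact this
  · intro K hK hKC
    have hcovU : K ⊆ ⋃ l, U l := by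
      intro x hx
      have : x ∈ ⋃ l, A l := by rw [hcov]; trivial
      obtain ⟨l, hl⟩ := mem_iUnion.1 this
      exact mem_iUnion.2 ⟨l, (hKC hx l).1 hl⟩
    obtain ⟨t, ht⟩ := hK.elim_finite_subcover U hUo hcovU
    refine ⟨t.sup id, fun x hx => ?_⟩
    obtain ⟨l, hl, hxl⟩ := mem_iUnion₂.1 (ht hx)
    exact hmono (Finset.le_sup (f := id) hl) ((hKC hx l).2 hxl)

/-- On a generic sub-product, Borel functions are continuous and the tails of the differences of
points which differ only in a given finite set of coordinates are uniformly small. -/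
theorem exists_good_sub [∀ i, Nonempty (F i)] {p : ℝ} {θ : (∀ i, F i) → ℕ → ℝ}
    (hθ : ∀ n, Measurable fun x => θ x n)
    (hfin : ∀ x y : ∀ i, F i, (∃ S : Finset I, ∀ i ∉ S, x i = y i) →
      Summable fun n => |θ x n - θ y n| ^ p)
    {K : Type*} [Countable K] {J : K → Set I} (hJ : ∀ k, (J k).Infinite) :
    ∃ (B : I → Bool) (z : ∀ i, F i),
      (∀ k, ∀ S : Finset I, ∃ i ∈ J k, i ∉ S ∧ B i = true) ∧
      (∀ n, ContinuousOn (fun x => θ x n) (Sub B z)) ∧
      (∀ S : Finset I, ∀ ε : ℝ≥0∞, 0 < ε → ∃ l, ∀ x ∈ Sub B z, ∀ y ∈ Sub B z,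
        (∀ i ∉ S, x i = y i) → tailSum p l (θ x) (θ y) ≤ ε) := by
  classical
  -- the sets
  choose C1 hC1 hC1' using fun n => residual_continuous (hθ n)
  have hA : ∀ (S : Finset I) (r r' : ∀ i : (S : Finset I), F i) (m : ℕ),
      ∃ C ∈ residual (∀ i, F i), ∀ K, IsCompact K → K ⊆ C → ∃ l,
        K ⊆ {x | tailSum p l (θ (splice S r x)) (θ (splice S r' x)) ≤ ((m : ℝ≥0∞) + 1)⁻¹} := by
    intro S r r' m
    refine residual_increasing (fun l => ?_) (fun l l' hl x hx => ?_) ?_
    · refine measurableSet_le ?_ measurable_const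
      unfold tailSum
      refine Measurable.tsum fun i => ?_
      have h1 := (hθ (i + l)).comp (continuous_splice S r).measurable
      have h2 := (hθ (i + l)).comp (continuous_splice S r').measurable
      exact ((h1.sub h2).abs.pow_const p).ennreal_ofReal
    · exact (tailSum_anti hl).trans hx
    · refine eq_univ_of_forall fun x => ?_
      have h := tendsto_tailSum (hfin (splice S r x) (splice S r' x)
        ⟨S, fun i hi => by simp [splice, hi]⟩)
      have hpos : (0 : ℝ≥0∞) < ((m : ℝ≥0∞) + 1)⁻¹ := by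
        rw [ENNReal.inv_pos]
        exact ENNReal.add_ne_top.2 ⟨ENNReal.natCast_ne_top m, ENNReal.one_ne_top⟩
      obtain ⟨l, hl⟩ := (h.eventually_lt_const hpos).exists
      exact mem_iUnion.2 ⟨l, hl.le⟩
  choose C2 hC2 hC2' using hA
  have hres : ∀ᶠ q : (I → Bool) × (∀ i, F i) in residual _,
      (∀ k : K, ∀ S : Finset I, ∃ i ∈ J k, i ∉ S ∧ q.1 i = true) ∧
      (∀ n, Sub q.1 q.2 ⊆ C1 n) ∧
      (∀ (S : Finset I) (r r' : ∀ i : (S : Finset I), F i) (m : ℕ),
        Sub q.1 q.2 ⊆ C2 S r r' m) := by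
    refine Filter.Eventually.and ?_ (Filter.Eventually.and ?_ ?_)
    · rw [eventually_countable_forall]; intro k
      rw [eventually_countable_forall]; intro S
      exact residual_exists_free (hJ k) S
    · rw [eventually_countable_forall]; intro n
      exact residual_sub_subset (hC1 n)
    · rw [eventually_countable_forall]; intro S
      rw [eventually_countable_forall]; intro r
      rw [eventually_countable_forall]; intro r'
      rw [eventually_countable_forall]; intro m
      exact residual_sub_subset (hC2 S r r' m)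
  obtain ⟨⟨B, z⟩, h1, h2, h3⟩ := (dense_of_mem_residual hres).nonempty
  refine ⟨B, z, h1, fun n => (hC1' n).mono (h2 n), ?_⟩
  intro S ε hε
  obtain ⟨m, hm⟩ := ENNReal.exists_inv_nat_lt hε.ne'
  have hm' : ((m : ℝ≥0∞) + 1)⁻¹ ≤ ε := by
    refine le_trans ?_ hm.le
    rw [ENNReal.inv_le_inv]
    exact le_self_add
  choose L hL using fun (r r' : ∀ i : (S : Finset I), F i) =>
    hC2' S r r' m _ (isCompact_Sub B z) (h3 S r r' m)
  have hFin : Finite ((∀ i : (S : Finset I), F i) × (∀ i : (S : Finset I), F i)) := inferInstance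
  obtain ⟨M, hM⟩ := (Set.finite_range fun q : (∀ i : (S : Finset I), F i) ×
    (∀ i : (S : Finset I), F i) => L q.1 q.2).bddAbove
  refine ⟨M, fun x hx y hy hxy => ?_⟩
  have ex : splice S (fun i : S => x i) x = x := by
    funext i
    by_cases h : i ∈ S <;> simp [splice, h]
  have ey : splice S (fun i : S => y i) x = y := by
    funext i
    by_cases h : i ∈ S
    · simp [splice, h]
    · simp [splice, h, hxy i h]
  have := hL (fun i : S => x i) (fun i : S => y i) hx
  rw [mem_ofPred_eq, ex, ey] at this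
  refine (tailSum_anti ?_).trans (this.trans hm')
  exact hM ⟨(fun i : S => x i, fun i : S => y i), rfl⟩

end Pool.Agent.Lib.MP_ec05f5_lc
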